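import Mathlib

set_option autoImplicit false

namespace Pool.Agent.Helper53.Generic

open Finset Filter

abbrev E2 := EuclideanSpace ℝ (Fin 2)

/-- Ordered pairs at distance `d`. -/
noncomputable def P (A : Finset E2) (d : ℝ) : ℕ :=
  (A.offDiag.filter (fun q => dist q.1 q.2 = d)).card

/-- Squared distance. -/
noncomputable def sq (x y : E2) : ℝ := (x 0 - y 0) ^ 2 + (x 1 - y 1) ^ 2

theorem sq_nonneg' (x y : E2) : 0 ≤ sq x y := by unfold sq; positivity

theorem dist_eq_sqrt (x y : E2) : dist x y = √(sq x y) := by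
  rw [EuclideanSpace.dist_eq, Fin.sum_univ_two, Real.dist_eq, Real.dist_eq, sq_abs, sq_abs]
  rfl

theorem dist_sq (x y : E2) : dist x y ^ 2 = sq x y := by
  rw [dist_eq_sqrt, Real.sq_sqrt (sq_nonneg' x y)]

theorem quad_eventually (α β γ : ℝ) (h : α ≠ 0 ∨ β ≠ 0) :
    ∀ᶠ s : ℝ in atTop, α * s ^ 2 + β * s + γ ≠ 0 := by
  set p : Polynomial ℝ := Polynomial.C α * Polynomial.X ^ 2 + Polynomial.C β * Polynomial.X +
    Polynomial.C γ with hp
  have hne : p ≠ 0 := by
    intro h0
    rcases h with h | h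
    · apply h
      have : p.coeff 2 = 0 := by rw [h0]; simp
      rw [hp] at this
      simpa [Polynomial.coeff_X, Polynomial.coeff_C] using this
    · apply h
      have : p.coeff 1 = 0 := by rw [h0]; simp
      rw [hp] at this
      simpa [Polynomial.coeff_X, Polynomial.coeff_C] using this
  filter_upwards [Polynomial.eventually_atTop_not_isRoot p hne] with s hs h0
  apply hs
  rw [Polynomial.IsRoot, hp]
  simpa using h0

/-- Translation vector on a parabola. -/
noncomputable def vv (s : ℝ) : E2 := !₂[s, s ^ 2]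

theorem sq_vv (u b : E2) (s : ℝ) :
    sq u (b + vv s) = (u 0 - b 0 - s) ^ 2 + (u 1 - b 1 - s ^ 2) ^ 2 := by
  unfold sq vv
  simp
  ring

theorem ev_b (u b : E2) (c : ℝ) : ∀ᶠ s : ℝ in atTop, sq u (b + vv s) ≠ c := by
  filter_upwards [eventually_ge_atTop (1 + |u 1 - b 1| + |c|)] with s hs h
  rw [sq_vv] at h
  set w := u 1 - b 1
  have h1 : |w| ≥ w := le_abs_self w
  have h2 : |c| ≥ c := le_abs_self c
  have h3 : 0 ≤ |w| := abs_nonneg w
  have h4 : 0 ≤ |c| := abs_nonneg c
  have h5 : s ≤ s ^ 2 := by nlinarith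
  have h6 : 1 + |c| ≤ s ^ 2 - w := by linarith
  have h7 : (1 + |c|) ^ 2 ≤ (s ^ 2 - w) ^ 2 := by
    apply pow_le_pow_left₀ (by linarith) h6
  nlinarith [sq_nonneg (u 0 - b 0 - s)]

theorem ev_c (u b u' b' : E2) (h : u - b ≠ u' - b') :
    ∀ᶠ s : ℝ in atTop, sq u (b + vv s) ≠ sq u' (b' + vv s) := by
  have hne : (-2 * ((u 1 - b 1) - (u' 1 - b' 1)) ≠ 0) ∨
      (-2 * ((u 0 - b 0) - (u' 0 - b' 0)) ≠ 0) := by
    by_contra hcon
    push Not at hcon
    obtain ⟨e1, e2⟩ := hcon
    apply h
    ext i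
    fin_cases i
    · show u 0 - b 0 = u' 0 - b' 0
      linarith
    · show u 1 - b 1 = u' 1 - b' 1
      linarith
  filter_upwards [quad_eventually _ _
    ((u 0 - b 0) ^ 2 + (u 1 - b 1) ^ 2 - (u' 0 - b' 0) ^ 2 - (u' 1 - b' 1) ^ 2) hne] with s hs he
  apply hs
  rw [sq_vv, sq_vv] at he
  linear_combination he

theorem exists_translation (U B : Finset E2) (C : Finset ℝ) : ∃ v : E2,
    (∀ u ∈ U, ∀ b ∈ B, ∀ c ∈ C, sq u (b + v) ≠ c) ∧
    (∀ u ∈ U, ∀ b ∈ B, ∀ u' ∈ U, ∀ b' ∈ B, sq u (b + v) = sq u' (b' + v) → u - b = u' - b') := by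
  have h1 : ∀ᶠ s : ℝ in atTop, ∀ u ∈ U, ∀ b ∈ B, ∀ c ∈ C, sq u (b + vv s) ≠ c := by
    rw [Filter.eventually_all_finset]
    intro u _
    rw [Filter.eventually_all_finset]
    intro b _
    rw [Filter.eventually_all_finset]
    intro c _
    exact ev_b u b c
  have h2 : ∀ᶠ s : ℝ in atTop, ∀ u ∈ U, ∀ b ∈ B, ∀ u' ∈ U, ∀ b' ∈ B,
      sq u (b + vv s) = sq u' (b' + vv s) → u - b = u' - b' := by
    rw [Filter.eventually_all_finset]
    intro u _
    rw [Filter.eventually_all_finset]
    intro b _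
    rw [Filter.eventually_all_finset]
    intro u' _
    rw [Filter.eventually_all_finset]
    intro b' _
    by_cases h : u - b = u' - b'
    · exact Filter.Eventually.of_forall (fun s _ => h)
    · filter_upwards [ev_c u b u' b' h] with s hs he
      exact absurd he hs
  obtain ⟨s, hs1, hs2⟩ := (h1.and h2).exists
  exact ⟨vv s, hs1, hs2⟩

theorem P_translate (B : Finset E2) (v : E2) (d : ℝ) :
    P (B.map (Equiv.addRight v).toEmbedding) d = P B d := by
  unfold P
  symm
  apply Finset.card_bij (fun q _ => (q.1 + v, q.2 + v))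
  · intro q hq
    rw [Finset.mem_filter, Finset.mem_offDiag] at hq ⊢
    refine ⟨⟨?_, ?_, ?_⟩, ?_⟩
    · exact Finset.mem_map_of_mem _ hq.1.1
    · exact Finset.mem_map_of_mem _ hq.1.2.1
    · intro h
      exact hq.1.2.2 (add_right_cancel h)
    · simp only [dist_add_right]
      exact hq.2
  · rintro q _ q' _ h
    simp only [Prod.mk.injEq, add_left_inj] at h
    exact Prod.ext h.1 h.2
  · rintro ⟨x, y⟩ h
    rw [Finset.mem_filter, Finset.mem_offDiag] at h
    obtain ⟨⟨hx, hy, hne⟩, hd⟩ := h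
    rw [Finset.mem_map] at hx hy
    obtain ⟨a, ha, rfl⟩ := hx
    obtain ⟨b, hb, rfl⟩ := hy
    refine ⟨(a, b), ?_, rfl⟩
    rw [Finset.mem_filter, Finset.mem_offDiag]
    refine ⟨⟨ha, hb, ?_⟩, ?_⟩
    · rintro h
      simp only at h
      exact hne (by simp only [h])
    · simpa using hd

theorem step (U B : Finset E2) (M : ℕ) (hB : B.card ≤ M) :
    ∃ U' : Finset E2, U'.card = U.card + B.card ∧
      ∀ d, P U d + P B d ≤ P U' d ∧ P U' d ≤ P U d + P B d + 2 * M ∧
        (P U d + P B d ≠ 0 → P U' d ≤ P U d + P B d) := by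
  classical
  set C : Finset ℝ := {0} ∪ (U.offDiag.image (fun q => sq q.1 q.2)) ∪
    (B.offDiag.image (fun q => sq q.1 q.2)) with hC
  obtain ⟨v, hv1, hv2⟩ := exists_translation U B C
  set B' := B.map (Equiv.addRight v).toEmbedding with hB'
  have hdisj : Disjoint U B' := by
    rw [Finset.disjoint_left]
    intro x hx hx'
    rw [hB', Finset.mem_map] at hx'
    obtain ⟨b, hb, he⟩ := hx'
    apply hv1 x hx b hb 0 (by simp [hC])
    have : x = b + v := he.symm
    rw [this]
    simp [sq]
  refine ⟨U ∪ B', ?_, ?_⟩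
  · rw [Finset.card_union_of_disjoint hdisj, hB', Finset.card_map]
  intro d
  -- the cross pairs
  set X1 := (U ×ˢ B').filter (fun q => dist q.1 q.2 = d) with hX1
  set X2 := (B' ×ˢ U).filter (fun q => dist q.1 q.2 = d) with hX2
  have hX1card : X1.card ≤ B.card := by
    rw [← Finset.card_map (Equiv.addRight v).toEmbedding (s := B)]
    apply Finset.card_le_card_of_injOn (fun q => q.2)
    · intro q hq
      rw [Finset.mem_coe, hX1, Finset.mem_filter, Finset.mem_product] at hq
      exact hq.1.2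
    · rintro ⟨x, y⟩ hq ⟨x', y'⟩ hq' h
      rw [Finset.mem_coe, hX1, Finset.mem_filter, Finset.mem_product, hB', Finset.mem_map] at hq hq'
      obtain ⟨⟨hx, b, hb, hby⟩, hd⟩ := hq
      obtain ⟨⟨hx', b', hb', hby'⟩, hd'⟩ := hq'
      simp only at h hx hby hd hx' hby' hd'
      have hby1 : y = b + v := hby.symm
      have hby1' : y' = b' + v := hby'.symm
      subst hby1 hby1'
      have e : sq x (b + v) = sq x' (b' + v) := by
        rw [← dist_sq, ← dist_sq, hd, hd']
      have e2 := hv2 x hx b hb x' hx' b' hb' e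
      have hbb : b = b' := add_right_cancel h
      subst hbb
      have hxx : x = x' := sub_left_injective e2
      rw [hxx]
  have hX2card : X2.card = X1.card := by
    apply Finset.card_bij (fun q _ => (q.2, q.1))
    · intro q hq
      rw [hX2, Finset.mem_filter, Finset.mem_product] at hq
      rw [hX1, Finset.mem_filter, Finset.mem_product]
      exact ⟨⟨hq.1.2, hq.1.1⟩, by rw [dist_comm]; exact hq.2⟩
    · rintro ⟨a, b⟩ _ ⟨c, e⟩ _ h
      simp only [Prod.mk.injEq] at h ⊢
      exact ⟨h.2, h.1⟩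
    · rintro ⟨a, b⟩ hq
      rw [hX1, Finset.mem_filter, Finset.mem_product] at hq
      refine ⟨(b, a), ?_, rfl⟩
      rw [hX2, Finset.mem_filter, Finset.mem_product]
      exact ⟨⟨hq.1.2, hq.1.1⟩, by rw [dist_comm]; exact hq.2⟩
  have hPB : P B' d = P B d := P_translate B v d
  have hzero : P U d + P B d ≠ 0 → X1.card = 0 := by
    intro hne
    rw [Finset.card_eq_zero, Finset.eq_empty_iff_forall_notMem]
    rintro ⟨x, y⟩ hq
    rw [hX1, Finset.mem_filter, Finset.mem_product, hB', Finset.mem_map] at hq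
    obtain ⟨⟨hx, b, hb, hby⟩, hd⟩ := hq
    simp only at hx hby hd
    have hby1 : y = b + v := hby.symm
    subst hby1
    have hmem : d ^ 2 ∈ C := by
      by_cases hU : P U d = 0
      · have hBne : P B d ≠ 0 := by omega
        unfold P at hBne
        rw [Finset.card_ne_zero] at hBne
        obtain ⟨q, hq⟩ := hBne
        rw [Finset.mem_filter] at hq
        rw [hC, Finset.mem_union]
        right
        rw [Finset.mem_image]
        exact ⟨q, hq.1, by rw [← dist_sq, hq.2]⟩
      · unfold P at hU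
        rw [← Ne, Finset.card_ne_zero] at hU
        obtain ⟨q, hq⟩ := hU
        rw [Finset.mem_filter] at hq
        rw [hC, Finset.mem_union, Finset.mem_union]
        left; right
        rw [Finset.mem_image]
        exact ⟨q, hq.1, by rw [← dist_sq, hq.2]⟩
    apply hv1 x hx b hb _ hmem
    rw [← dist_sq, hd]
  have hupper : P (U ∪ B') d ≤ P U d + P B' d + (X1.card + X2.card) := by
    unfold P
    have hsub : (U ∪ B').offDiag.filter (fun q => dist q.1 q.2 = d) ⊆
        (U.offDiag.filter (fun q => dist q.1 q.2 = d) ∪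
        B'.offDiag.filter (fun q => dist q.1 q.2 = d)) ∪ (X1 ∪ X2) := by
      rintro ⟨x, y⟩ hq
      rw [Finset.mem_filter, Finset.mem_offDiag, Finset.mem_union, Finset.mem_union] at hq
      obtain ⟨⟨hx, hy, hne⟩, hd⟩ := hq
      rw [Finset.mem_union, Finset.mem_union, Finset.mem_union, hX1, hX2, Finset.mem_filter,
        Finset.mem_filter, Finset.mem_filter, Finset.mem_filter, Finset.mem_offDiag,
        Finset.mem_offDiag, Finset.mem_product, Finset.mem_product]
      tauto
    refine (Finset.card_le_card hsub).trans ((Finset.card_union_le _ _).trans ?_)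
    exact Nat.add_le_add (Finset.card_union_le _ _) (Finset.card_union_le _ _)
  have hlower : P U d + P B' d ≤ P (U ∪ B') d := by
    unfold P
    rw [← Finset.card_union_of_disjoint]
    · apply Finset.card_le_card
      rintro ⟨x, y⟩ hq
      rw [Finset.mem_union, Finset.mem_filter, Finset.mem_filter, Finset.mem_offDiag,
        Finset.mem_offDiag] at hq
      rw [Finset.mem_filter, Finset.mem_offDiag, Finset.mem_union, Finset.mem_union]
      tauto
    · rw [Finset.disjoint_left]
      rintro ⟨x, y⟩ hq hq'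
      rw [Finset.mem_filter, Finset.mem_offDiag] at hq hq'
      exact Finset.disjoint_left.mp hdisj hq.1.1 hq'.1.1
  rw [hPB] at hupper hlower
  refine ⟨hlower, by omega, ?_⟩
  intro hne
  have := hzero hne
  omega

theorem family {ι : Type} [DecidableEq ι] (s : Finset ι) (B : ι → Finset E2) (M : ℕ)
    (hM : ∀ i ∈ s, (B i).card ≤ M) :
    ∃ U : Finset E2, U.card = ∑ i ∈ s, (B i).card ∧
      ∀ d, ∑ i ∈ s, P (B i) d ≤ P U d ∧ P U d ≤ ∑ i ∈ s, P (B i) d + 2 * M := by
  induction s using Finset.induction_on with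
  | empty =>
    refine ⟨∅, by simp, ?_⟩
    intro d
    simp [P]
  | insert i s hi ih =>
    obtain ⟨U, hU, hUd⟩ := ih (fun j hj => hM j (Finset.mem_insert_of_mem hj))
    obtain ⟨U', hU', hUd'⟩ := step U (B i) M (hM i (Finset.mem_insert_self i s))
    refine ⟨U', ?_, ?_⟩
    · rw [Finset.sum_insert hi, hU', hU]; ring
    · intro d
      obtain ⟨h1, h2⟩ := hUd d
      obtain ⟨h3, h4, h5⟩ := hUd' d
      rw [Finset.sum_insert hi]
      refine ⟨by omega, ?_⟩
      by_cases hz : P U d + P (B i) d = 0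
      · omega
      · have := h5 hz
        omega

end Pool.Agent.Helper53.Generic
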