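import Mathlib

set_option autoImplicit false

namespace Pool.Agent.Helper53.TwoSquares

open Finset

/-- Integer points on the circle of squared radius `k`. -/
noncomputable def reps (k : ℕ) : Finset (ℤ × ℤ) :=
  ((Icc (-(k : ℤ)) k) ×ˢ (Icc (-(k : ℤ)) k)).filter (fun z => z.1 ^ 2 + z.2 ^ 2 = k)

theorem abs_le_of_sq_le {x : ℤ} {k : ℕ} (h : x ^ 2 ≤ k) : -(k : ℤ) ≤ x ∧ x ≤ k := by
  constructor <;> nlinarith [sq_nonneg (x - 1), sq_nonneg (x + 1)]

theorem mem_reps {k : ℕ} {z : ℤ × ℤ} : z ∈ reps k ↔ z.1 ^ 2 + z.2 ^ 2 = k := by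
  unfold reps
  rw [Finset.mem_filter, Finset.mem_product, Finset.mem_Icc, Finset.mem_Icc]
  constructor
  · exact fun h => h.2
  · intro h
    refine ⟨⟨abs_le_of_sq_le ?_, abs_le_of_sq_le ?_⟩, h⟩ <;> nlinarith [sq_nonneg z.1, sq_nonneg z.2]

/-- The number of representations. -/
noncomputable def R (k : ℕ) : ℕ := (reps k).card

theorem exists_sq_add_sq {p : ℕ} (hp : p.Prime) (h1 : p % 4 = 1) :
    ∃ a b : ℤ, a ^ 2 + b ^ 2 = p := by
  have := Fact.mk hp
  obtain ⟨a, b, h⟩ := Nat.Prime.sq_add_sq (p := p) (by omega)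
  exact ⟨a, b, by exact_mod_cast h⟩

theorem R_mul_le {p : ℕ} (hp : p.Prime) (h1 : p % 4 = 1) (k : ℕ) : R (p * k) ≤ 2 * R k := by
  classical
  obtain ⟨a, b, hab⟩ := exists_sq_add_sq hp h1
  have hpi : Prime (p : ℤ) := Nat.prime_iff_prime_int.mp hp
  have hp0 : (p : ℤ) ≠ 0 := hpi.ne_zero
  set f1 : ℤ × ℤ → ℤ × ℤ := fun z => (a * z.1 - b * z.2, a * z.2 + b * z.1) with hf1
  set f2 : ℤ × ℤ → ℤ × ℤ := fun z => (a * z.1 + b * z.2, a * z.2 - b * z.1) with hf2
  have hsub : reps (p * k) ⊆ (reps k).image f1 ∪ (reps k).image f2 := by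
    rintro ⟨u, v⟩ huv
    rw [mem_reps] at huv
    simp only at huv
    push_cast at huv
    have hdiv : (p : ℤ) ∣ (a * u + b * v) * (a * u - b * v) := by
      refine ⟨a ^ 2 * k - v ^ 2, ?_⟩
      have : (a * u + b * v) * (a * u - b * v) = a ^ 2 * (u ^ 2 + v ^ 2) - (a ^ 2 + b ^ 2) * v ^ 2 := by
        ring
      rw [this, huv, hab]
      ring
    rw [Finset.mem_union, Finset.mem_image, Finset.mem_image]
    rcases hpi.dvd_or_dvd hdiv with hd | hd
    · left
      have hd2 : (p : ℤ) ∣ a * v - b * u := by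
        have : (p : ℤ) ∣ (a * v - b * u) ^ 2 := by
          have e : (a * v - b * u) ^ 2 = (a ^ 2 + b ^ 2) * (u ^ 2 + v ^ 2) - (a * u + b * v) ^ 2 := by
            ring
          rw [e, hab, huv]
          refine dvd_sub ⟨p * k, by ring⟩ (Dvd.dvd.pow hd (by norm_num))
        exact hpi.dvd_of_dvd_pow this
      obtain ⟨x, hx⟩ := hd
      obtain ⟨y, hy⟩ := hd2
      have hU : p * (a * x - b * y) = p * u := by
        calc p * (a * x - b * y) = a * (p * x) - b * (p * y) := by ring
          _ = a * (a * u + b * v) - b * (a * v - b * u) := by rw [hx, hy]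
          _ = (a ^ 2 + b ^ 2) * u := by ring
          _ = p * u := by rw [hab]
      have hV : p * (a * y + b * x) = p * v := by
        calc p * (a * y + b * x) = a * (p * y) + b * (p * x) := by ring
          _ = a * (a * v - b * u) + b * (a * u + b * v) := by rw [hx, hy]
          _ = (a ^ 2 + b ^ 2) * v := by ring
          _ = p * v := by rw [hab]
      have hU' := mul_left_cancel₀ hp0 hU
      have hV' := mul_left_cancel₀ hp0 hV
      refine ⟨(x, y), ?_, by simp only [hf1, hU', hV']⟩
      rw [mem_reps]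
      simp only
      have : (p : ℤ) * (x ^ 2 + y ^ 2) = p * k := by
        have e : (a * x - b * y) ^ 2 + (a * y + b * x) ^ 2 = (a ^ 2 + b ^ 2) * (x ^ 2 + y ^ 2) := by
          ring
        rw [hU', hV', huv, hab] at e
        exact e.symm
      exact mul_left_cancel₀ hp0 this
    · right
      have hd2 : (p : ℤ) ∣ a * v + b * u := by
        have : (p : ℤ) ∣ (a * v + b * u) ^ 2 := by
          have e : (a * v + b * u) ^ 2 = (a ^ 2 + b ^ 2) * (u ^ 2 + v ^ 2) - (a * u - b * v) ^ 2 := by
            ring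
          rw [e, hab, huv]
          refine dvd_sub ⟨p * k, by ring⟩ (Dvd.dvd.pow hd (by norm_num))
        exact hpi.dvd_of_dvd_pow this
      obtain ⟨x, hx⟩ := hd
      obtain ⟨y, hy⟩ := hd2
      have hU : p * (a * x + b * y) = p * u := by
        calc p * (a * x + b * y) = a * (p * x) + b * (p * y) := by ring
          _ = a * (a * u - b * v) + b * (a * v + b * u) := by rw [hx, hy]
          _ = (a ^ 2 + b ^ 2) * u := by ring
          _ = p * u := by rw [hab]
      have hV : p * (a * y - b * x) = p * v := by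
        calc p * (a * y - b * x) = a * (p * y) - b * (p * x) := by ring
          _ = a * (a * v + b * u) - b * (a * u - b * v) := by rw [hx, hy]
          _ = (a ^ 2 + b ^ 2) * v := by ring
          _ = p * v := by rw [hab]
      have hU' := mul_left_cancel₀ hp0 hU
      have hV' := mul_left_cancel₀ hp0 hV
      refine ⟨(x, y), ?_, by simp only [hf2, hU', hV']⟩
      rw [mem_reps]
      simp only
      have : (p : ℤ) * (x ^ 2 + y ^ 2) = p * k := by
        have e : (a * x + b * y) ^ 2 + (a * y - b * x) ^ 2 = (a ^ 2 + b ^ 2) * (x ^ 2 + y ^ 2) := by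
          ring
        rw [hU', hV', huv, hab] at e
        exact e.symm
      exact mul_left_cancel₀ hp0 this
  calc R (p * k) ≤ ((reps k).image f1 ∪ (reps k).image f2).card := Finset.card_le_card hsub
    _ ≤ ((reps k).image f1).card + ((reps k).image f2).card := Finset.card_union_le _ _
    _ ≤ (reps k).card + (reps k).card := Nat.add_le_add Finset.card_image_le Finset.card_image_le
    _ = 2 * R k := by unfold R; ring

theorem R_mul_ge {p : ℕ} (hp : p.Prime) (h1 : p % 4 = 1) (k : ℕ) (hk : ¬ p ∣ k) :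
    2 * R k ≤ R (p * k) := by
  classical
  obtain ⟨a, b, hab⟩ := exists_sq_add_sq hp h1
  have hpi : Prime (p : ℤ) := Nat.prime_iff_prime_int.mp hp
  have hp0 : (p : ℤ) ≠ 0 := hpi.ne_zero
  set f1 : ℤ × ℤ → ℤ × ℤ := fun z => (a * z.1 - b * z.2, a * z.2 + b * z.1) with hf1
  set f2 : ℤ × ℤ → ℤ × ℤ := fun z => (a * z.1 + b * z.2, a * z.2 - b * z.1) with hf2
  have inj1 : Function.Injective f1 := by
    rintro ⟨x, y⟩ ⟨x', y'⟩ h
    simp only [hf1, Prod.mk.injEq] at h
    obtain ⟨e1, e2⟩ := h
    have g1 : (p : ℤ) * x = p * x' := by rw [← hab]; linear_combination a * e1 + b * e2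
    have g2 : (p : ℤ) * y = p * y' := by rw [← hab]; linear_combination a * e2 - b * e1
    exact Prod.ext (mul_left_cancel₀ hp0 g1) (mul_left_cancel₀ hp0 g2)
  have inj2 : Function.Injective f2 := by
    rintro ⟨x, y⟩ ⟨x', y'⟩ h
    simp only [hf2, Prod.mk.injEq] at h
    obtain ⟨e1, e2⟩ := h
    have g1 : (p : ℤ) * x = p * x' := by rw [← hab]; linear_combination a * e1 - b * e2
    have g2 : (p : ℤ) * y = p * y' := by rw [← hab]; linear_combination a * e2 + b * e1
    exact Prod.ext (mul_left_cancel₀ hp0 g1) (mul_left_cancel₀ hp0 g2)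
  have hb : ¬ (p : ℤ) ∣ b := by
    intro hb
    have ha : (p : ℤ) ∣ a := by
      have : (p : ℤ) ∣ a ^ 2 := by
        have e : a ^ 2 = p - b ^ 2 := by linarith
        rw [e]
        exact dvd_sub (dvd_refl _) (Dvd.dvd.pow hb (by norm_num))
      exact hpi.dvd_of_dvd_pow this
    obtain ⟨x, rfl⟩ := ha
    obtain ⟨y, rfl⟩ := hb
    have h2 : (p : ℤ) * (p * (x ^ 2 + y ^ 2)) = p * 1 := by linarith [hab]
    have h3 : (p : ℤ) * (x ^ 2 + y ^ 2) = 1 := mul_left_cancel₀ hp0 h2
    exact hpi.not_isUnit (IsUnit.of_mul_eq_one _ h3)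
  have h2p : ¬ (p : ℤ) ∣ 2 := by
    intro h
    have : p ∣ 2 := by exact_mod_cast h
    have := (Nat.prime_dvd_prime_iff_eq hp Nat.prime_two).mp this
    omega
  have hsub : (reps k).image f1 ∪ (reps k).image f2 ⊆ reps (p * k) := by
    intro z hz
    rw [Finset.mem_union, Finset.mem_image, Finset.mem_image] at hz
    rcases hz with ⟨w, hw, rfl⟩ | ⟨w, hw, rfl⟩
    · rw [mem_reps] at hw ⊢
      simp only [hf1]
      push_cast
      rw [← hw, ← hab]
      ring
    · rw [mem_reps] at hw ⊢
      simp only [hf2]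
      push_cast
      rw [← hw, ← hab]
      ring
  have hdisj : Disjoint ((reps k).image f1) ((reps k).image f2) := by
    rw [Finset.disjoint_left]
    rintro z hz hz'
    rw [Finset.mem_image] at hz hz'
    obtain ⟨⟨x, y⟩, hw, rfl⟩ := hz
    obtain ⟨⟨x', y'⟩, hw', he⟩ := hz'
    rw [mem_reps] at hw hw'
    simp only [hf1, hf2, Prod.mk.injEq] at he hw hw'
    obtain ⟨e1, e2⟩ := he
    -- `(a + b i)^2 z = p z'`
    have k1 : (a ^ 2 - b ^ 2) * x - 2 * a * b * y = p * x' := by
      rw [← hab]; linear_combination (-a) * e1 + b * e2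
    have k2 : (a ^ 2 - b ^ 2) * y + 2 * a * b * x = p * y' := by
      rw [← hab]; linear_combination (-a) * e2 - b * e1
    have d1 : (p : ℤ) ∣ 2 * (b * (b * x + a * y)) := by
      refine ⟨x - x', ?_⟩
      linear_combination (-1) * k1 + x * hab
    have d2 : (p : ℤ) ∣ 2 * (b * (a * x - b * y)) := by
      refine ⟨y' - y, ?_⟩
      linear_combination k2 - y * hab
    have d1' : (p : ℤ) ∣ b * x + a * y := by
      rcases hpi.dvd_or_dvd d1 with h | h
      · exact absurd h h2p
      · rcases hpi.dvd_or_dvd h with h | h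
        · exact absurd h hb
        · exact h
    have d2' : (p : ℤ) ∣ a * x - b * y := by
      rcases hpi.dvd_or_dvd d2 with h | h
      · exact absurd h h2p
      · rcases hpi.dvd_or_dvd h with h | h
        · exact absurd h hb
        · exact h
    obtain ⟨s, hs⟩ := d1'
    obtain ⟨r, hr⟩ := d2'
    have e : (p : ℤ) * k = p * (p * (s ^ 2 + r ^ 2)) := by
      calc (p : ℤ) * k = (a ^ 2 + b ^ 2) * (x ^ 2 + y ^ 2) := by rw [hab, hw]
        _ = (b * x + a * y) ^ 2 + (a * x - b * y) ^ 2 := by ring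
        _ = p * (p * (s ^ 2 + r ^ 2)) := by rw [hs, hr]; ring
    have e' := mul_left_cancel₀ hp0 e
    apply hk
    have : (p : ℤ) ∣ k := ⟨_, e'⟩
    exact_mod_cast this
  calc 2 * R k = ((reps k).image f1).card + ((reps k).image f2).card := by
        rw [Finset.card_image_of_injective _ inj1, Finset.card_image_of_injective _ inj2]
        unfold R; ring
    _ = ((reps k).image f1 ∪ (reps k).image f2).card := (Finset.card_union_of_disjoint hdisj).symm
    _ ≤ R (p * k) := Finset.card_le_card hsub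

theorem R_prod_le {ι : Type} [DecidableEq ι] (s : Finset ι) (p : ι → ℕ)
    (hp : ∀ i ∈ s, (p i).Prime) (h1 : ∀ i ∈ s, p i % 4 = 1) (a : ℕ) :
    R (a * ∏ i ∈ s, p i) ≤ 2 ^ s.card * R a := by
  induction s using Finset.induction_on with
  | empty => simp
  | insert i s hi ih =>
    rw [Finset.prod_insert hi, Finset.card_insert_of_notMem hi]
    have e : a * (p i * ∏ x ∈ s, p x) = p i * (a * ∏ x ∈ s, p x) := by ring
    rw [e]
    have h := R_mul_le (hp i (Finset.mem_insert_self i s)) (h1 i (Finset.mem_insert_self i s))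
      (a * ∏ x ∈ s, p x)
    have h' := ih (fun j hj => hp j (Finset.mem_insert_of_mem hj))
      (fun j hj => h1 j (Finset.mem_insert_of_mem hj))
    calc R (p i * (a * ∏ x ∈ s, p x)) ≤ 2 * R (a * ∏ x ∈ s, p x) := h
      _ ≤ 2 * (2 ^ s.card * R a) := by omega
      _ = 2 ^ (s.card + 1) * R a := by ring

theorem R_one_pos : 1 ≤ R 1 := by
  unfold R
  rw [Nat.one_le_iff_ne_zero, ← Nat.pos_iff_ne_zero, Finset.card_pos]
  exact ⟨(1, 0), by rw [mem_reps]; norm_num⟩

theorem R_prod_ge {ι : Type} [DecidableEq ι] (s : Finset ι) (p : ι → ℕ)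
    (hp : ∀ i ∈ s, (p i).Prime) (h1 : ∀ i ∈ s, p i % 4 = 1)
    (hinj : ∀ i ∈ s, ∀ j ∈ s, p i = p j → i = j) :
    2 ^ s.card ≤ R (∏ i ∈ s, p i) := by
  induction s using Finset.induction_on with
  | empty => simpa using R_one_pos
  | insert i s hi ih =>
    rw [Finset.prod_insert hi, Finset.card_insert_of_notMem hi]
    have hnd : ¬ p i ∣ ∏ x ∈ s, p x := by
      intro h
      rw [(hp i (Finset.mem_insert_self i s)).prime.dvd_finsetProd_iff] at h
      obtain ⟨j, hj, hd⟩ := h
      have := (Nat.prime_dvd_prime_iff_eq (hp i (Finset.mem_insert_self i s))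
        (hp j (Finset.mem_insert_of_mem hj))).mp hd
      have := hinj i (Finset.mem_insert_self i s) j (Finset.mem_insert_of_mem hj) this
      subst this
      exact hi hj
    have h := R_mul_ge (hp i (Finset.mem_insert_self i s)) (h1 i (Finset.mem_insert_self i s))
      (∏ x ∈ s, p x) hnd
    have h' := ih (fun j hj => hp j (Finset.mem_insert_of_mem hj))
      (fun j hj => h1 j (Finset.mem_insert_of_mem hj))
      (fun j hj l hl => hinj j (Finset.mem_insert_of_mem hj) l (Finset.mem_insert_of_mem hl))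
    calc 2 ^ (s.card + 1) = 2 * 2 ^ s.card := by ring
      _ ≤ 2 * R (∏ x ∈ s, p x) := by omega
      _ ≤ R (p i * ∏ x ∈ s, p x) := h

/-- Trivial bound. -/
theorem R_le (a : ℕ) (ha : 1 ≤ a) : R a ≤ 6 * Nat.sqrt a := by
  classical
  set s := Nat.sqrt a with hs
  have hs1 : 1 ≤ s := by
    rw [hs, Nat.one_le_iff_ne_zero, Ne, Nat.sqrt_eq_zero]
    omega
  have hcard : R a ≤ ((Icc (-(s : ℤ)) s) ×ˢ (Finset.univ : Finset Bool)).card := by
    unfold R
    apply Finset.card_le_card_of_injOn (fun z => (z.1, decide (0 ≤ z.2)))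
    · rintro ⟨x, y⟩ hz
      rw [Finset.mem_coe, mem_reps] at hz
      simp only at hz
      rw [Finset.mem_coe, Finset.mem_product]
      refine ⟨?_, Finset.mem_univ _⟩
      simp only
      rw [Finset.mem_Icc]
      have h1 : x.natAbs * x.natAbs ≤ a := by
        have : ((x.natAbs * x.natAbs : ℕ) : ℤ) ≤ a := by
          push_cast
          rw [← sq, sq_abs]
          nlinarith [sq_nonneg y]
        exact_mod_cast this
      have h2 : x.natAbs ≤ s := by
        rw [hs]
        exact Nat.le_sqrt.mpr h1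
      omega
    · rintro ⟨x, y⟩ hz ⟨x', y'⟩ hz' h
      rw [Finset.mem_coe, mem_reps] at hz hz'
      simp only [Prod.mk.injEq, decide_eq_decide] at h hz hz'
      obtain ⟨hx, hy⟩ := h
      subst hx
      have hsq : (y - y') * (y + y') = 0 := by linarith
      rcases mul_eq_zero.mp hsq with h | h
      · exact Prod.ext rfl (by simp only; linarith)
      · refine Prod.ext rfl ?_
        simp only
        by_cases h0 : 0 ≤ y
        · have := hy.mp h0
          omega
        · have : ¬ 0 ≤ y' := fun h' => h0 (hy.mpr h')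
          omega
  rw [Finset.card_product, Int.card_Icc] at hcard
  simp only [Finset.card_univ, Fintype.card_bool] at hcard
  have : ((s : ℤ) + 1 - -(s : ℤ)).toNat = 2 * s + 1 := by omega
  rw [this] at hcard
  omega

end Pool.Agent.Helper53.TwoSquares
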