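import Mathlib
import Pool.Agent.Helper53.TwoSquares

set_option autoImplicit false

namespace Pool.Agent.Helper53.Grid

open Finset TwoSquares

/-- Integer points in the open disc of squared radius `m / 2`. -/
noncomputable def A (m : ℕ) : Finset (ℤ × ℤ) :=
  ((Icc (-(m : ℤ)) m) ×ˢ (Icc (-(m : ℤ)) m)).filter (fun z => 2 * (z.1 ^ 2 + z.2 ^ 2) < m)

theorem mem_A {m : ℕ} {z : ℤ × ℤ} : z ∈ A m ↔ 2 * (z.1 ^ 2 + z.2 ^ 2) < m := by
  unfold A
  rw [Finset.mem_filter, Finset.mem_product, Finset.mem_Icc, Finset.mem_Icc]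
  constructor
  · exact fun h => h.2
  · intro h
    refine ⟨⟨abs_le_of_sq_le ?_, abs_le_of_sq_le ?_⟩, h⟩ <;> nlinarith [sq_nonneg z.1, sq_nonneg z.2]

theorem card_A_le (m : ℕ) (hm : 1 ≤ m) : (A m).card ≤ 9 * m := by
  set s := Nat.sqrt m with hs
  have hs1 : 1 ≤ s := by
    rw [hs, Nat.one_le_iff_ne_zero, Ne, Nat.sqrt_eq_zero]
    omega
  have hsub : A m ⊆ (Icc (-(s : ℤ)) s) ×ˢ (Icc (-(s : ℤ)) s) := by
    intro z hz
    rw [mem_A] at hz
    have key : ∀ x : ℤ, x ^ 2 ≤ m → x ∈ Icc (-(s : ℤ)) s := by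
      intro x hx
      have h1 : x.natAbs * x.natAbs ≤ m := by
        have : ((x.natAbs * x.natAbs : ℕ) : ℤ) ≤ m := by
          push_cast
          rw [← sq, sq_abs]
          exact hx
        exact_mod_cast this
      have h2 : x.natAbs ≤ s := by
        rw [hs]
        exact Nat.le_sqrt.mpr h1
      rw [Finset.mem_Icc]
      omega
    rw [Finset.mem_product]
    exact ⟨key _ (by nlinarith [sq_nonneg z.1, sq_nonneg z.2]),
      key _ (by nlinarith [sq_nonneg z.1, sq_nonneg z.2])⟩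
  have h1 := Finset.card_le_card hsub
  rw [Finset.card_product, Int.card_Icc] at h1
  have h2 : ((s : ℤ) + 1 - -(s : ℤ)).toNat = 2 * s + 1 := by omega
  rw [h2] at h1
  have h3 : s * s ≤ m := Nat.sqrt_le m
  nlinarith

/-- Ordered pairs of points of `A m` at squared distance `k`. -/
noncomputable def Q (m : ℕ) (k : ℤ) : Finset ((ℤ × ℤ) × (ℤ × ℤ)) :=
  (A m ×ˢ A m).filter (fun q => (q.1.1 - q.2.1) ^ 2 + (q.1.2 - q.2.2) ^ 2 = k)

theorem mem_Q {m : ℕ} {k : ℤ} {q : (ℤ × ℤ) × (ℤ × ℤ)} : q ∈ Q m k ↔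
    q.1 ∈ A m ∧ q.2 ∈ A m ∧ (q.1.1 - q.2.1) ^ 2 + (q.1.2 - q.2.2) ^ 2 = k := by
  unfold Q
  rw [Finset.mem_filter, Finset.mem_product, and_assoc]

theorem card_Q_le (m k : ℕ) : (Q m k).card ≤ R k * (A m).card := by
  unfold R
  rw [← Finset.card_product]
  apply Finset.card_le_card_of_injOn
    (fun q => ((q.1.1 - q.2.1, q.1.2 - q.2.2), q.2))
  · intro q hq
    rw [Finset.mem_coe, mem_Q] at hq
    rw [Finset.mem_coe, Finset.mem_product]
    exact ⟨mem_reps.mpr hq.2.2, hq.2.1⟩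
  · rintro ⟨⟨a, b⟩, ⟨c, d⟩⟩ _ ⟨⟨a', b'⟩, ⟨c', d'⟩⟩ _ h
    simp only [Prod.mk.injEq] at h ⊢
    omega

theorem sq_dist_lt {m : ℕ} {z w : ℤ × ℤ} (hz : z ∈ A m) (hw : w ∈ A m) :
    (z.1 - w.1) ^ 2 + (z.2 - w.2) ^ 2 < 2 * m := by
  rw [mem_A] at hz hw
  nlinarith [sq_nonneg (z.1 + w.1), sq_nonneg (z.2 + w.2)]

theorem card_Q_ge (m : ℕ) (hm : 49 ≤ m) : R m * m ≤ 196 * (Q m m).card := by
  set D := Nat.sqrt m / 7 with hD
  have hs7 : 7 ≤ Nat.sqrt m := Nat.le_sqrt.mpr (by omega)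
  have hD1 : 1 ≤ D := by omega
  have hD2 : 49 * (D * D) ≤ m := by
    have h1 : 7 * D ≤ Nat.sqrt m := by omega
    have h2 := Nat.sqrt_le m
    nlinarith
  have hD3 : m ≤ 196 * (D * D) := by
    have h1 : Nat.sqrt m < 7 * D + 7 := by omega
    have h2 := Nat.lt_succ_sqrt m
    have h3 : Nat.succ (Nat.sqrt m) ≤ 14 * D := by omega
    nlinarith
  -- injection from `reps m × D × D`
  have hinj : ((reps m) ×ˢ (range D ×ˢ range D)).card ≤ (Q m m).card := by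
    apply Finset.card_le_card_of_injOn (fun x : (ℤ × ℤ) × (ℕ × ℕ) =>
      (((-x.1.1) / 2 + x.2.1 + x.1.1, (-x.1.2) / 2 + x.2.2 + x.1.2),
       ((-x.1.1) / 2 + x.2.1, (-x.1.2) / 2 + x.2.2)))
    · rintro ⟨⟨w1, w2⟩, ⟨d1, d2⟩⟩ hx
      rw [Finset.mem_coe, Finset.mem_product, Finset.mem_product, Finset.mem_range,
        Finset.mem_range, mem_reps] at hx
      simp only at hx
      obtain ⟨hw, hd1, hd2⟩ := hx
      rw [Finset.mem_coe, mem_Q]
      simp only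
      have hD2' : 49 * ((D : ℤ) * D) ≤ m := by exact_mod_cast hD2
      have hd1' : (d1 : ℤ) + 1 ≤ D := by exact_mod_cast hd1
      have hd2' : (d2 : ℤ) + 1 ≤ D := by exact_mod_cast hd2
      have hd1n : (0 : ℤ) ≤ d1 := by positivity
      have hd2n : (0 : ℤ) ≤ d2 := by positivity
      set z1 := (-w1) / 2 + (d1 : ℤ) with hz1
      set z2 := (-w2) / 2 + (d2 : ℤ) with hz2
      have hu1 : -(2 * (D : ℤ)) ≤ 2 * z1 + w1 ∧ 2 * z1 + w1 ≤ 2 * D := by omega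
      have hu2 : -(2 * (D : ℤ)) ≤ 2 * z2 + w2 ∧ 2 * z2 + w2 ≤ 2 * D := by omega
      set u1 := 2 * z1 + w1 with hu1d
      set u2 := 2 * z2 + w2 with hu2d
      have hu : u1 ^ 2 + u2 ^ 2 ≤ 8 * (D * D) := by nlinarith
      have hu' : 49 * (u1 ^ 2 + u2 ^ 2) ≤ 8 * m := by linarith
      -- Cauchy-Schwarz
      have hcs : (u1 * w1 + u2 * w2) ^ 2 ≤ (u1 ^ 2 + u2 ^ 2) * m := by
        rw [← hw]
        nlinarith [sq_nonneg (u1 * w2 - u2 * w1)]
      have hm0 : (0 : ℤ) < m := by exact_mod_cast (by omega : 0 < m)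
      have hcs' : 49 * (u1 * w1 + u2 * w2) ^ 2 ≤ 8 * (m * m : ℤ) := by nlinarith
      have hbound : ∀ c : ℤ, c ^ 2 = (u1 * w1 + u2 * w2) ^ 2 → u1 ^ 2 + u2 ^ 2 + 2 * c < m := by
        intro c hc
        by_contra hcon
        push Not at hcon
        have h1 : 41 * (m : ℤ) ≤ 98 * c := by linarith
        have h2 : (41 * (m : ℤ)) ^ 2 ≤ (98 * c) ^ 2 := by
          apply pow_le_pow_left₀ (by positivity) h1
        nlinarith
      have hb1 := hbound (u1 * w1 + u2 * w2) rfl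
      have hb2 := hbound (-(u1 * w1 + u2 * w2)) (by ring)
      refine ⟨?_, ?_, ?_⟩
      · rw [mem_A]
        simp only
        have e1 : 2 * (z1 + w1) = u1 + w1 := by rw [hu1d]; ring
        have e2 : 2 * (z2 + w2) = u2 + w2 := by rw [hu2d]; ring
        have : 2 * (2 * ((z1 + w1) ^ 2 + (z2 + w2) ^ 2)) < 2 * (m : ℤ) := by
          calc 2 * (2 * ((z1 + w1) ^ 2 + (z2 + w2) ^ 2))
              = (2 * (z1 + w1)) ^ 2 + (2 * (z2 + w2)) ^ 2 := by ring
            _ = (u1 + w1) ^ 2 + (u2 + w2) ^ 2 := by rw [e1, e2]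
            _ = u1 ^ 2 + u2 ^ 2 + 2 * (u1 * w1 + u2 * w2) + (w1 ^ 2 + w2 ^ 2) := by ring
            _ < m + m := by rw [hw]; linarith
            _ = 2 * (m : ℤ) := by ring
        linarith
      · rw [mem_A]
        simp only
        have e1 : 2 * z1 = u1 - w1 := by rw [hu1d]; ring
        have e2 : 2 * z2 = u2 - w2 := by rw [hu2d]; ring
        have : 2 * (2 * (z1 ^ 2 + z2 ^ 2)) < 2 * (m : ℤ) := by
          calc 2 * (2 * (z1 ^ 2 + z2 ^ 2))
              = (2 * z1) ^ 2 + (2 * z2) ^ 2 := by ring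
            _ = (u1 - w1) ^ 2 + (u2 - w2) ^ 2 := by rw [e1, e2]
            _ = u1 ^ 2 + u2 ^ 2 + 2 * (-(u1 * w1 + u2 * w2)) + (w1 ^ 2 + w2 ^ 2) := by ring
            _ < m + m := by rw [hw]; linarith
            _ = 2 * (m : ℤ) := by ring
        linarith
      · rw [← hw]
        ring
    · rintro ⟨⟨w1, w2⟩, ⟨d1, d2⟩⟩ _ ⟨⟨w1', w2'⟩, ⟨d1', d2'⟩⟩ _ h
      simp only [Prod.mk.injEq] at h ⊢
      obtain ⟨⟨h1, h2⟩, h3, h4⟩ := h
      have e1 : w1 = w1' := by linarith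
      have e2 : w2 = w2' := by linarith
      subst e1 e2
      refine ⟨⟨rfl, rfl⟩, ?_, ?_⟩ <;> omega
  rw [Finset.card_product, Finset.card_product, Finset.card_range] at hinj
  calc R m * m ≤ R m * (196 * (D * D)) := Nat.mul_le_mul_left _ hD3
    _ = 196 * ((reps m).card * (D * D)) := by unfold R; ring
    _ ≤ 196 * (Q m m).card := Nat.mul_le_mul_left _ hinj

end Pool.Agent.Helper53.Grid
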