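import Mathlib
import Pool.Agent.Helper53.Grid

set_option autoImplicit false

namespace Pool.Agent.Helper53.Family

open Finset TwoSquares Grid

/-- Number of ordered pairs of distinct points of `A m` with squared distance `ρ * m`. -/
noncomputable def g (m : ℕ) (ρ : ℝ) : ℕ :=
  ((A m).offDiag.filter
    (fun q => (((q.1.1 - q.2.1) ^ 2 + (q.1.2 - q.2.2) ^ 2 : ℤ) : ℝ) = ρ * m)).card

theorem g_eq_Q (m k : ℕ) (ρ : ℝ) (hk : (k : ℝ) = ρ * m) : g m ρ ≤ (Q m k).card := by
  unfold g
  apply Finset.card_le_card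
  intro q hq
  rw [Finset.mem_filter, Finset.mem_offDiag] at hq
  rw [mem_Q]
  refine ⟨hq.1.1, hq.1.2.1, ?_⟩
  have h := hq.2
  rw [← hk] at h
  exact_mod_cast h

theorem g_one (m : ℕ) (hm : 1 ≤ m) : (Q m m).card ≤ g m 1 := by
  unfold g
  apply Finset.card_le_card
  intro q hq
  rw [mem_Q] at hq
  rw [Finset.mem_filter, Finset.mem_offDiag]
  refine ⟨⟨hq.1, hq.2.1, ?_⟩, ?_⟩
  · intro h
    have h3 := hq.2.2
    rw [h] at h3
    simp at h3
    omega
  · rw [hq.2.2]
    simp

theorem exists_of_g_ne_zero {m : ℕ} {ρ : ℝ} (h : g m ρ ≠ 0) :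
    ∃ k : ℕ, 0 < k ∧ k < 2 * m ∧ (k : ℝ) = ρ * m := by
  unfold g at h
  rw [Finset.card_ne_zero] at h
  obtain ⟨q, hq⟩ := h
  rw [Finset.mem_filter, Finset.mem_offDiag] at hq
  obtain ⟨⟨h1, h2, h3⟩, h4⟩ := hq
  have h5 := sq_dist_lt h1 h2
  set k := (q.1.1 - q.2.1) ^ 2 + (q.1.2 - q.2.2) ^ 2 with hk
  have hk0 : 0 < k := by
    by_contra hcon
    push Not at hcon
    have e1 : (q.1.1 - q.2.1) = 0 := by
      have := sq_nonneg (q.1.1 - q.2.1)
      have := sq_nonneg (q.1.2 - q.2.2)
      have h0 : (q.1.1 - q.2.1) ^ 2 = 0 := by linarith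
      exact pow_eq_zero_iff (by norm_num) |>.mp h0
    have e2 : (q.1.2 - q.2.2) = 0 := by
      have := sq_nonneg (q.1.1 - q.2.1)
      have := sq_nonneg (q.1.2 - q.2.2)
      have h0 : (q.1.2 - q.2.2) ^ 2 = 0 := by linarith
      exact pow_eq_zero_iff (by norm_num) |>.mp h0
    exact h3 (Prod.ext (by linarith) (by linarith))
  refine ⟨k.toNat, by omega, by omega, ?_⟩
  have : ((k.toNat : ℤ) : ℝ) = (k : ℝ) := by rw [Int.toNat_of_nonneg hk0.le]
  rw [← h4, ← this]
  exact (Int.cast_natCast _).symm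

theorem prod_dvd_of {ι : Type} [DecidableEq ι] (s : Finset ι) (q : ι → ℕ) (n : ℕ)
    (hp : ∀ i ∈ s, (q i).Prime) (hinj : ∀ i ∈ s, ∀ j ∈ s, q i = q j → i = j)
    (hd : ∀ i ∈ s, q i ∣ n) : ∏ i ∈ s, q i ∣ n := by
  induction s using Finset.induction_on with
  | empty => simp
  | insert i s hi ih =>
    rw [Finset.prod_insert hi]
    apply Nat.Coprime.mul_dvd_of_dvd_of_dvd
    · apply Nat.Coprime.prod_right
      intro j hj
      rw [Nat.coprime_primes (hp i (Finset.mem_insert_self i s))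
        (hp j (Finset.mem_insert_of_mem hj))]
      intro he
      have := hinj i (Finset.mem_insert_self i s) j (Finset.mem_insert_of_mem hj) he
      subst this
      exact hi hj
    · exact hd i (Finset.mem_insert_self i s)
    · exact ih (fun j hj => hp j (Finset.mem_insert_of_mem hj))
        (fun j hj l hl => hinj j (Finset.mem_insert_of_mem hj) l (Finset.mem_insert_of_mem hl))
        (fun j hj => hd j (Finset.mem_insert_of_mem hj))

/-- If a product of distinct primes is `b * g` then `b` is the product of those dividing it. -/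
theorem eq_prod_of_mul {ι : Type} [DecidableEq ι] (s : Finset ι) (q : ι → ℕ) (b c : ℕ)
    (hp : ∀ i ∈ s, (q i).Prime) (hinj : ∀ i ∈ s, ∀ j ∈ s, q i = q j → i = j)
    (h : ∏ i ∈ s, q i = b * c) : b = ∏ i ∈ s.filter (fun i => q i ∣ b), q i := by
  classical
  have h1 : ∏ i ∈ s.filter (fun i => q i ∣ b), q i ∣ b := by
    apply prod_dvd_of
    · exact fun i hi => hp i (Finset.mem_filter.mp hi).1
    · exact fun i hi j hj => hinj i (Finset.mem_filter.mp hi).1 j (Finset.mem_filter.mp hj).1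
    · exact fun i hi => (Finset.mem_filter.mp hi).2
  have h2 : ∏ i ∈ s.filter (fun i => ¬ q i ∣ b), q i ∣ c := by
    apply prod_dvd_of
    · exact fun i hi => hp i (Finset.mem_filter.mp hi).1
    · exact fun i hi j hj => hinj i (Finset.mem_filter.mp hi).1 j (Finset.mem_filter.mp hj).1
    · intro i hi
      rw [Finset.mem_filter] at hi
      have hd : q i ∣ b * c := by
        rw [← h]
        exact Finset.dvd_prod_of_mem q hi.1
      exact ((hp i hi.1).dvd_mul.mp hd).resolve_left hi.2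
  obtain ⟨x, hx⟩ := h1
  obtain ⟨y, hy⟩ := h2
  have h3 := Finset.prod_filter_mul_prod_filter_not s (fun i => q i ∣ b) q
  set P := ∏ i ∈ s.filter (fun i => q i ∣ b), q i with hP
  set P' := ∏ i ∈ s.filter (fun i => ¬ q i ∣ b), q i with hP'
  have hpos : 0 < P * P' := by
    rw [h3]
    exact Finset.prod_pos (fun i hi => (hp i hi).pos)
  have h4 : P * P' = (P * P') * (x * y) := by
    calc P * P' = b * c := by rw [h3, h]
      _ = (P * P') * (x * y) := by
        conv_lhs => rw [hx, hy]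
        ring
  have h5 : x * y = 1 := by
    have := Nat.eq_of_mul_eq_mul_left hpos (show P * P' * 1 = P * P' * (x * y) by
      rw [mul_one]; exact h4)
    exact this.symm
  have hx1 : x = 1 := Nat.eq_one_of_mul_eq_one_right h5
  rw [hx1, mul_one] at hx
  exact hx

section
variable {L t : ℕ} (p : Fin t → Fin (L ^ 7) → ℕ)

/-- The modulus attached to a choice function. -/
def md (h : Fin t → Fin (L ^ 7)) : ℕ := ∏ i, p i (h i)

/-- Total number of ordered pairs at normalised squared distance `ρ`. -/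
noncomputable def F (ρ : ℝ) : ℕ := ∑ h : Fin t → Fin (L ^ 7), g (md p h) ρ

/-- The sum of a block. -/
def sg (i : Fin t) : ℕ := ∑ a, p i a

theorem sum_md : ∑ h : Fin t → Fin (L ^ 7), md p h = ∏ i, sg p i := by
  unfold md sg
  rw [Finset.prod_univ_sum, Fintype.piFinset_univ]

theorem md_pos (hp : ∀ i a, (p i a).Prime) (h : Fin t → Fin (L ^ 7)) : 0 < md p h :=
  Finset.prod_pos (fun i _ => (hp i _).pos)

theorem F_one_ge (hL : 2 ≤ L) (ht : 1 ≤ t) (hp : ∀ i a, (p i a).Prime)
    (h1 : ∀ i a, p i a % 4 = 1)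
    (hlow : ∀ i a, L ^ 9 < p i a) (hinj : ∀ i a j b, p i a = p j b → i = j ∧ a = b) :
    2 ^ t * ∏ i, sg p i ≤ 196 * F p 1 := by
  rw [← sum_md, F, Finset.mul_sum, Finset.mul_sum]
  apply Finset.sum_le_sum
  intro h _
  have hm : 49 ≤ md p h := by
    have h0 : (0 : ℕ) < t := ht
    have hd : p ⟨0, h0⟩ (h ⟨0, h0⟩) ∣ md p h :=
      Finset.dvd_prod_of_mem (fun i => p i (h i)) (Finset.mem_univ _)
    have h2 := Nat.le_of_dvd (md_pos p hp h) hd
    have h3 := hlow ⟨0, h0⟩ (h ⟨0, h0⟩)
    have h4 : 2 ^ 9 ≤ L ^ 9 := Nat.pow_le_pow_left hL 9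
    omega
  have h5 := card_Q_ge (md p h) hm
  have h6 : 2 ^ t ≤ R (md p h) := by
    have := R_prod_ge (Finset.univ : Finset (Fin t)) (fun i => p i (h i))
      (fun i _ => hp i _) (fun i _ => h1 i _) (fun i _ j _ he => (hinj i _ j _ he).1)
    rw [Finset.card_univ, Fintype.card_fin] at this
    exact this
  calc 2 ^ t * md p h ≤ R (md p h) * md p h := Nat.mul_le_mul_right _ h6
    _ ≤ 196 * (Q (md p h) (md p h)).card := h5
    _ ≤ 196 * g (md p h) 1 := Nat.mul_le_mul_left _ (g_one _ (by omega))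

theorem F_other (hL : 21168 ≤ L) (ht : 1 ≤ t) (hp : ∀ i a, (p i a).Prime)
    (h1 : ∀ i a, p i a % 4 = 1)
    (hlow : ∀ i a, L ^ 9 < p i a) (hup : ∀ i a, p i a ≤ L ^ 10)
    (hinj : ∀ i a j b, p i a = p j b → i = j ∧ a = b) (ρ : ℝ) (hρ : ρ ≠ 1) :
    2 * F p ρ ≤ F p 1 := by
  classical
  by_cases hex : ∃ h0, g (md p h0) ρ ≠ 0
  swap
  · push Not at hex
    have : F p ρ = 0 := Finset.sum_eq_zero (fun h _ => hex h)
    rw [this]
    exact Nat.zero_le _
  obtain ⟨h0, hh0⟩ := hex
  obtain ⟨k0, hk0, hk0', hk0ρ⟩ := exists_of_g_ne_zero hh0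
  have hm0 := md_pos p hp h0
  set m0 := md p h0 with hm0def
  obtain ⟨a, b, hcop, hka, hmb⟩ := Nat.exists_coprime k0 m0
  set d := Nat.gcd k0 m0 with hd
  have hdpos : 0 < d := Nat.gcd_pos_of_pos_left _ hk0
  have hbpos : 0 < b := by
    rcases Nat.eq_zero_or_pos b with h | h
    · rw [h, zero_mul] at hmb; omega
    · exact h
  have hapos : 0 < a := by
    rcases Nat.eq_zero_or_pos a with h | h
    · rw [h, zero_mul] at hka; omega
    · exact h
  have hab : a < 2 * b := by
    have : a * d < 2 * b * d := by rw [← hka, mul_assoc, ← hmb]; exact hk0'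
    exact Nat.lt_of_mul_lt_mul_right this
  set I : Finset (Fin t) := Finset.univ.filter (fun i => p i (h0 i) ∣ b) with hI
  have hb : b = ∏ i ∈ I, p i (h0 i) := by
    apply eq_prod_of_mul Finset.univ (fun i => p i (h0 i)) b d
    · exact fun i _ => hp i _
    · exact fun i _ j _ he => (hinj i _ j _ he).1
    · exact hmb
  have hInon : 1 ≤ I.card := by
    rw [Nat.one_le_iff_ne_zero]
    intro h
    rw [Finset.card_eq_zero] at h
    rw [h, Finset.prod_empty] at hb
    rw [hb] at hab hmb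
    have ha1 : a = 1 := by omega
    rw [ha1] at hka
    apply hρ
    have hkm : k0 = m0 := by rw [hka, hmb]
    rw [hkm] at hk0ρ
    have hmr : (m0 : ℝ) ≠ 0 := by exact_mod_cast hm0.ne'
    field_simp at hk0ρ
    linarith
  set s := I.card with hs
  have hst : s ≤ t := by
    have := Finset.card_le_univ I
    rwa [Fintype.card_fin] at this
  have hcompl : Iᶜ.card = t - s := by
    rw [Finset.card_compl, Fintype.card_fin]
  -- the relevant choice functions
  set HI : Finset (Fin t → Fin (L ^ 7)) :=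
    Fintype.piFinset (fun i => if i ∈ I then {h0 i} else Finset.univ) with hHI
  -- each term
  have hterm : ∀ h, g (md p h) ρ ≠ 0 → h ∈ HI ∧
      g (md p h) ρ ≤ 2 ^ (t - s) * R a * (9 * md p h) := by
    intro h hh
    obtain ⟨k, hk, -, hkρ⟩ := exists_of_g_ne_zero hh
    have hkb : k * b = a * md p h := by
      have e1 : (k : ℝ) * m0 = k0 * md p h := by
        rw [hkρ, hk0ρ]; ring
      have e2 : k * m0 = k0 * md p h := by exact_mod_cast e1
      have e3 : (k * b) * d = (a * md p h) * d := by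
        calc (k * b) * d = k * (b * d) := by ring
          _ = k0 * md p h := by rw [← hmb, e2]
          _ = (a * md p h) * d := by rw [hka]; ring
      exact Nat.eq_of_mul_eq_mul_right hdpos e3
    have hbm : b ∣ md p h := by
      have : b ∣ a * md p h := ⟨k, by rw [← hkb]; ring⟩
      exact hcop.symm.dvd_of_dvd_mul_left this
    have hmem : ∀ i ∈ I, h i = h0 i := by
      intro i hi
      have hdv : p i (h0 i) ∣ md p h := (Finset.mem_filter.mp hi).2.trans hbm
      unfold md at hdv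
      rw [(hp i (h0 i)).prime.dvd_finsetProd_iff] at hdv
      obtain ⟨j, -, hj⟩ := hdv
      have he := (Nat.prime_dvd_prime_iff_eq (hp i _) (hp j _)).mp hj
      obtain ⟨e1, e2⟩ := hinj _ _ _ _ he
      subst e1
      exact e2.symm
    refine ⟨?_, ?_⟩
    · rw [hHI, Fintype.mem_piFinset]
      intro i
      split_ifs with hi
      · rw [Finset.mem_singleton]; exact hmem i hi
      · exact Finset.mem_univ _
    · have hsplit : md p h = b * ∏ i ∈ Iᶜ, p i (h i) := by
        unfold md
        rw [← Finset.prod_mul_prod_compl I, hb]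
        congr 1
        apply Finset.prod_congr rfl
        intro i hi
        rw [hmem i hi]
      have hkeq : k = a * ∏ i ∈ Iᶜ, p i (h i) := by
        have : b * k = b * (a * ∏ i ∈ Iᶜ, p i (h i)) := by
          calc b * k = k * b := by ring
            _ = a * md p h := hkb
            _ = b * (a * ∏ i ∈ Iᶜ, p i (h i)) := by rw [hsplit]; ring
        exact Nat.eq_of_mul_eq_mul_left hbpos this
      have hRk : R k ≤ 2 ^ (t - s) * R a := by
        rw [hkeq, ← hcompl]
        exact R_prod_le Iᶜ (fun i => p i (h i)) (fun i _ => hp i _) (fun i _ => h1 i _) a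
      calc g (md p h) ρ ≤ (Q (md p h) k).card := g_eq_Q _ _ _ hkρ
        _ ≤ R k * (A (md p h)).card := card_Q_le _ _
        _ ≤ (2 ^ (t - s) * R a) * (9 * md p h) :=
          Nat.mul_le_mul hRk (card_A_le _ (md_pos p hp h))
  have hFρ : F p ρ ≤ 2 ^ (t - s) * R a * (9 * (b * ∏ i ∈ Iᶜ, sg p i)) := by
    have e1 : F p ρ = ∑ h ∈ HI, g (md p h) ρ := by
      unfold F
      symm
      apply Finset.sum_subset (Finset.subset_univ _)
      intro h _ hnot
      by_contra hne
      exact hnot (hterm h hne).1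
    have e2 : ∑ h ∈ HI, md p h = b * ∏ i ∈ Iᶜ, sg p i := by
      unfold md
      rw [hHI, ← Finset.prod_univ_sum, ← Finset.prod_mul_prod_compl I, hb]
      congr 1
      · apply Finset.prod_congr rfl
        intro i hi
        rw [if_pos hi, Finset.sum_singleton]
      · apply Finset.prod_congr rfl
        intro i hi
        rw [if_neg (Finset.mem_compl.mp hi)]
        rfl
    rw [e1, ← e2, Finset.mul_sum, Finset.mul_sum]
    apply Finset.sum_le_sum
    intro h _
    by_cases hz : g (md p h) ρ = 0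
    · rw [hz]; exact Nat.zero_le _
    · exact (hterm h hz).2
  -- bound for `R a`
  have hbL : b ≤ (L ^ 10) ^ s := by
    rw [hb, hs]
    exact Finset.prod_le_pow_card _ _ _ (fun i _ => hup i _)
  have hRa : R a ≤ 12 * L ^ (5 * s) := by
    have h2 : Nat.sqrt a ≤ 2 * L ^ (5 * s) := by
      have : a ≤ (2 * L ^ (5 * s)) * (2 * L ^ (5 * s)) := by
        have e : (L ^ 10) ^ s = L ^ (5 * s) * L ^ (5 * s) := by
          rw [← pow_mul, ← pow_add]; congr 1; ring
        rw [e] at hbL
        nlinarith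
      calc Nat.sqrt a ≤ Nat.sqrt ((2 * L ^ (5 * s)) * (2 * L ^ (5 * s))) := Nat.sqrt_le_sqrt this
        _ = 2 * L ^ (5 * s) := Nat.sqrt_eq _
    have h3 := R_le a hapos
    omega
  -- lower bound for the block sums
  have hsg : ∀ i, L ^ 16 ≤ sg p i := by
    intro i
    unfold sg
    calc L ^ 16 = ∑ _a : Fin (L ^ 7), L ^ 9 := by
          rw [Finset.sum_const, Finset.card_univ, Fintype.card_fin, smul_eq_mul]; ring
      _ ≤ ∑ a, p i a := Finset.sum_le_sum (fun a _ => (hlow i a).le)
  have hsgI : (L ^ 16) ^ s ≤ ∏ i ∈ I, sg p i := by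
    rw [hs]
    exact Finset.pow_card_le_prod _ _ _ (fun i _ => hsg i)
  have hF1 := F_one_ge p (by omega) ht hp h1 hlow hinj
  rw [← Finset.prod_mul_prod_compl I] at hF1
  set Pc := ∏ i ∈ Iᶜ, sg p i with hPc
  have hmain : 196 * (2 * F p ρ) ≤ 196 * F p 1 := by
    have hs1 : 42336 ≤ 2 ^ s * L ^ s := by
      calc 42336 ≤ 2 * L := by omega
        _ = (2 * L) ^ 1 := by ring
        _ ≤ (2 * L) ^ s := Nat.pow_le_pow_right (by omega) hInon
        _ = 2 ^ s * L ^ s := Nat.mul_pow _ _ _
    have hts : 2 ^ (t - s) * 2 ^ s = 2 ^ t := by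
      rw [← pow_add]; congr 1; omega
    calc 196 * (2 * F p ρ)
        ≤ 196 * (2 * (2 ^ (t - s) * (12 * L ^ (5 * s)) * (9 * ((L ^ 10) ^ s * Pc)))) := by
          gcongr
          exact hFρ.trans (by gcongr)
      _ = 42336 * (2 ^ (t - s) * L ^ (15 * s) * Pc) := by
          have : L ^ (15 * s) = L ^ (5 * s) * (L ^ 10) ^ s := by
            rw [← pow_mul, ← pow_add]; congr 1; ring
          rw [this]; ring
      _ ≤ (2 ^ s * L ^ s) * (2 ^ (t - s) * L ^ (15 * s) * Pc) := Nat.mul_le_mul_right _ hs1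
      _ = (2 ^ (t - s) * 2 ^ s) * ((L ^ 16) ^ s * Pc) := by
          have : (L ^ 16) ^ s = L ^ s * L ^ (15 * s) := by
            rw [← pow_mul, ← pow_add]; congr 1; ring
          rw [this]; ring
      _ ≤ 2 ^ t * ((∏ i ∈ I, sg p i) * Pc) := by
          rw [hts]
          gcongr
      _ ≤ 196 * F p 1 := hF1
  exact Nat.le_of_mul_le_mul_left hmain (by norm_num)

end

end Pool.Agent.Helper53.Family
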