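import Mathlib
import Pool.Agent.Helper53.Family
import Pool.Agent.Helper53.Generic

set_option autoImplicit false

namespace Pool.Agent.Helper53.Assemble

open Finset Generic Family Grid

/-- Embedding of the integer lattice with scale `c`. -/
noncomputable def emb (c : ℝ) (z : ℤ × ℤ) : E2 := !₂[c * z.1, c * z.2]

theorem emb_injective {c : ℝ} (hc : c ≠ 0) : Function.Injective (emb c) := by
  rintro ⟨a, b⟩ ⟨a', b'⟩ h
  have h0 : c * (a : ℝ) = c * a' := by
    have := congrArg (fun v : E2 => v 0) h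
    simpa [emb] using this
  have h1 : c * (b : ℝ) = c * b' := by
    have := congrArg (fun v : E2 => v 1) h
    simpa [emb] using this
  have e0 := mul_left_cancel₀ hc h0
  have e1 := mul_left_cancel₀ hc h1
  exact Prod.ext (by exact_mod_cast e0) (by exact_mod_cast e1)

theorem sq_emb (c : ℝ) (z w : ℤ × ℤ) :
    Generic.sq (emb c z) (emb c w) = c ^ 2 * (((z.1 - w.1) ^ 2 + (z.2 - w.2) ^ 2 : ℤ) : ℝ) := by
  unfold Generic.sq emb
  simp
  ring

/-- Scaled copy of the disc of lattice points. -/
noncomputable def S (m : ℕ) (c : ℝ) : Finset E2 := (A m).image (emb c)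

theorem card_S (m : ℕ) {c : ℝ} (hc : c ≠ 0) : (S m c).card = (A m).card :=
  Finset.card_image_of_injective _ (emb_injective hc)

theorem P_neg (B : Finset E2) {d : ℝ} (hd : d < 0) : P B d = 0 := by
  unfold P
  rw [Finset.card_eq_zero, Finset.filter_eq_empty_iff]
  intro q _ h
  have : (0 : ℝ) ≤ dist q.1 q.2 := dist_nonneg
  linarith

theorem P_S (m : ℕ) (hm : 0 < m) {lam : ℝ} (hl : 0 < lam) {d : ℝ} (hd : 0 ≤ d) :
    P (S m (lam / √m)) d = g m (d ^ 2 / lam ^ 2) := by
  have hm' : (0 : ℝ) < m := by exact_mod_cast hm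
  have hc : lam / √m ≠ 0 := by positivity
  have hiff : ∀ z w : ℤ × ℤ, dist (emb (lam / √m) z) (emb (lam / √m) w) = d ↔
      (((z.1 - w.1) ^ 2 + (z.2 - w.2) ^ 2 : ℤ) : ℝ) = d ^ 2 / lam ^ 2 * m := by
    intro z w
    have h1 : dist (emb (lam / √m) z) (emb (lam / √m) w) = d ↔
        Generic.sq (emb (lam / √m) z) (emb (lam / √m) w) = d ^ 2 := by
      rw [← dist_sq]
      constructor
      · intro h; rw [h]
      · intro h
        exact (pow_left_inj₀ dist_nonneg hd (by norm_num)).mp h
    rw [h1, sq_emb, div_pow, Real.sq_sqrt hm'.le]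
    constructor
    · intro h
      rw [← h]
      field_simp
    · intro h
      rw [h]
      field_simp
  unfold P g
  symm
  apply Finset.card_bij (fun q _ => (emb (lam / √m) q.1, emb (lam / √m) q.2))
  · intro q hq
    rw [Finset.mem_filter, Finset.mem_offDiag] at hq ⊢
    refine ⟨⟨?_, ?_, ?_⟩, (hiff _ _).mpr hq.2⟩
    · exact Finset.mem_image_of_mem _ hq.1.1
    · exact Finset.mem_image_of_mem _ hq.1.2.1
    · intro h
      exact hq.1.2.2 (emb_injective hc h)
  · rintro q _ q' _ h
    rw [Prod.mk.injEq] at h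
    exact Prod.ext (emb_injective hc h.1) (emb_injective hc h.2)
  · rintro ⟨x, y⟩ h
    rw [Finset.mem_filter, Finset.mem_offDiag] at h
    obtain ⟨⟨hx, hy, hne⟩, hdd⟩ := h
    simp only [S] at hx hy
    rw [Finset.mem_image] at hx hy
    obtain ⟨z, hz, rfl⟩ := hx
    obtain ⟨w, hw, rfl⟩ := hy
    refine ⟨(z, w), ?_, rfl⟩
    rw [Finset.mem_filter, Finset.mem_offDiag]
    refine ⟨⟨hz, hw, ?_⟩, (hiff _ _).mp hdd⟩
    intro hzw
    have hzw' : z = w := hzw
    subst hzw'
    exact hne rfl

/-- The scales. -/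
noncomputable def lam (i : ℕ) : ℝ := √(1 + i * √2)

theorem lam_pos (i : ℕ) : 0 < lam i := by unfold lam; positivity

theorem lam_sq (i : ℕ) : lam i ^ 2 = 1 + i * √2 := by
  unfold lam
  exact Real.sq_sqrt (by positivity)

theorem int_sqrt_two {a b : ℤ} (h : (a : ℝ) + b * √2 = 0) : a = 0 ∧ b = 0 := by
  by_cases hb : b = 0
  · subst hb
    simp at h
    exact ⟨h, rfl⟩
  · exfalso
    have hb' : (b : ℝ) ≠ 0 := by exact_mod_cast hb
    have : √2 = ((-a / b : ℚ) : ℝ) := by
      push_cast
      field_simp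
      linarith
    exact irrational_sqrt_two ⟨_, this.symm⟩

theorem lam_ratio {i j k m k' m' : ℕ} (hk : 0 < k) (hm' : 0 < m') (hm : 0 < m)
    (h : lam i ^ 2 * (k / m) = lam j ^ 2 * (k' / m')) : i = j := by
  rw [lam_sq, lam_sq] at h
  have hm1 : (m : ℝ) ≠ 0 := by exact_mod_cast hm.ne'
  have hm1' : (m' : ℝ) ≠ 0 := by exact_mod_cast hm'.ne'
  field_simp at h
  have h2 : (((k * m' : ℤ) - m * k' : ℤ) : ℝ) + ((i * k * m' : ℤ) - m * k' * j : ℤ) * √2 = 0 := by
    push_cast
    linarith
  obtain ⟨e1, e2⟩ := int_sqrt_two h2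
  have e3 : ((k : ℤ) * m') * i = (k * m') * j := by
    have e4 : (m : ℤ) * k' = k * m' := by linarith
    have e5 : (i : ℤ) * k * m' = m * k' * j := by linarith
    calc ((k : ℤ) * m') * i = i * k * m' := by ring
      _ = m * k' * j := e5
      _ = (k * m') * j := by rw [e4]
  have hpos : ((k : ℤ) * m') ≠ 0 := by positivity
  have := mul_left_cancel₀ hpos e3
  exact_mod_cast this

theorem lam_injective : Function.Injective lam := by
  intro i j h
  have h2 : lam i ^ 2 * (((1 : ℕ) : ℝ) / ((1 : ℕ) : ℝ)) =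
      lam j ^ 2 * (((1 : ℕ) : ℝ) / ((1 : ℕ) : ℝ)) := by rw [h]
  exact lam_ratio one_pos one_pos one_pos h2

section
variable {L t : ℕ} (p : Fin t → Fin (L ^ 7) → ℕ)

theorem exists_of_F_ne_zero (hp : ∀ i a, (p i a).Prime) {ρ : ℝ} (h : F p ρ ≠ 0) :
    ∃ k m : ℕ, 0 < k ∧ 0 < m ∧ ρ = k / m := by
  obtain ⟨c, -, hc⟩ := Finset.exists_ne_zero_of_sum_ne_zero h
  obtain ⟨k, hk, -, hkρ⟩ := exists_of_g_ne_zero hc
  have hm := md_pos p hp c
  refine ⟨k, md p c, hk, hm, ?_⟩
  rw [hkρ]
  have : (md p c : ℝ) ≠ 0 := by exact_mod_cast hm.ne'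
  field_simp

/-- Number of points of one full family. -/
noncomputable def n1 : ℕ := ∑ h : Fin t → Fin (L ^ 7), (A (md p h)).card

theorem assemble (hL : 21168 ≤ L) (ht : 1 ≤ t) (hp : ∀ i a, (p i a).Prime)
    (h1 : ∀ i a, p i a % 4 = 1)
    (hlow : ∀ i a, L ^ 9 < p i a) (hup : ∀ i a, p i a ≤ L ^ 10)
    (hinj : ∀ i a j b, p i a = p j b → i = j ∧ a = b) (w r l : ℕ) :
    ∃ (U : Finset E2) (D : Finset ℝ), U.card = w * (r * n1 p) + l ∧ D.card = r ∧
      (∀ d ∈ D, w * F p 1 ≤ P U d) ∧
      (∀ d, d ∉ D → 2 * P U d ≤ w * F p 1 + 4 * (9 * L ^ (10 * t))) := by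
  classical
  set B : (Fin w × Fin r × (Fin t → Fin (L ^ 7))) ⊕ Fin l → Finset E2 := fun x =>
    match x with
    | Sum.inl y => S (md p y.2.2) (lam y.2.1 / √(md p y.2.2))
    | Sum.inr _ => {0} with hB
  have hcardS : ∀ (i : ℕ) (h : Fin t → Fin (L ^ 7)),
      (S (md p h) (lam i / √(md p h))).card = (A (md p h)).card := by
    intro i h
    apply card_S
    have h1 := lam_pos i
    have h2 : (0 : ℝ) < md p h := by exact_mod_cast md_pos p hp h
    positivity
  have hM : ∀ x ∈ (Finset.univ : Finset ((Fin w × Fin r × (Fin t → Fin (L ^ 7))) ⊕ Fin l)),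
      (B x).card ≤ 9 * L ^ (10 * t) := by
    rintro (⟨j, i, h⟩ | k) _
    · simp only [hB]
      rw [hcardS]
      refine (card_A_le _ (md_pos p hp h)).trans ?_
      apply Nat.mul_le_mul_left
      unfold md
      calc ∏ i, p i (h i) ≤ ∏ _i : Fin t, L ^ 10 := Finset.prod_le_prod' (fun i _ => hup i _)
        _ = L ^ (10 * t) := by
          rw [Finset.prod_const, Finset.card_univ, Fintype.card_fin, ← pow_mul]
    · simp only [hB, Finset.card_singleton]
      have : 1 ≤ L ^ (10 * t) := Nat.one_le_pow _ _ (by omega)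
      omega
  obtain ⟨U, hU, hUd⟩ := Generic.family Finset.univ B _ hM
  have hsum : ∀ d : ℝ, 0 ≤ d → ∑ x, P (B x) d = w * ∑ i : Fin r, F p (d ^ 2 / lam i ^ 2) := by
    intro d hd
    rw [Fintype.sum_sum_type, Fintype.sum_prod_type]
    have e2 : ∑ k : Fin l, P (B (Sum.inr k)) d = 0 := by
      apply Finset.sum_eq_zero
      intro k _
      simp only [hB]
      unfold P
      simp
    rw [e2, add_zero]
    have e3 : ∀ j : Fin w, ∑ y : Fin r × (Fin t → Fin (L ^ 7)), P (B (Sum.inl (j, y))) d =
        ∑ i : Fin r, F p (d ^ 2 / lam i ^ 2) := by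
      intro j
      rw [Fintype.sum_prod_type]
      apply Finset.sum_congr rfl
      intro i _
      unfold F
      apply Finset.sum_congr rfl
      intro h _
      simp only [hB]
      exact P_S _ (md_pos p hp h) (lam_pos i) hd
    rw [Finset.sum_congr rfl (fun j _ => e3 j), Finset.sum_const, Finset.card_univ,
      Fintype.card_fin, smul_eq_mul]
  have hsum0 : ∀ d : ℝ, d < 0 → ∑ x, P (B x) d = 0 := by
    intro d hd
    exact Finset.sum_eq_zero (fun x _ => P_neg _ hd)
  refine ⟨U, Finset.univ.image (fun i : Fin r => lam i), ?_, ?_, ?_, ?_⟩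
  · rw [hU, Fintype.sum_sum_type, Fintype.sum_prod_type]
    have e2 : ∑ k : Fin l, (B (Sum.inr k)).card = l := by
      simp only [hB, Finset.card_singleton]
      simp
    have e3 : ∀ j : Fin w, ∑ y : Fin r × (Fin t → Fin (L ^ 7)), (B (Sum.inl (j, y))).card =
        r * n1 p := by
      intro j
      rw [Fintype.sum_prod_type]
      have : ∀ i : Fin r, ∑ h : Fin t → Fin (L ^ 7), (B (Sum.inl (j, i, h))).card = n1 p := by
        intro i
        unfold n1
        apply Finset.sum_congr rfl
        intro h _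
        simp only [hB]
        exact hcardS _ _
      rw [Finset.sum_congr rfl (fun i _ => this i), Finset.sum_const, Finset.card_univ,
        Fintype.card_fin, smul_eq_mul]
    rw [e2, Finset.sum_congr rfl (fun j _ => e3 j), Finset.sum_const, Finset.card_univ,
      Fintype.card_fin, smul_eq_mul]
  · rw [Finset.card_image_of_injective, Finset.card_univ, Fintype.card_fin]
    intro i j h
    exact Fin.ext (lam_injective h)
  · intro d hd
    rw [Finset.mem_image] at hd
    obtain ⟨i, -, rfl⟩ := hd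
    refine le_trans ?_ (hUd _).1
    rw [hsum _ (lam_pos i).le]
    apply Nat.mul_le_mul_left
    have h2 : F p 1 = F p (lam i ^ 2 / lam i ^ 2) := by
      rw [div_self (by have := lam_pos i; positivity)]
    rw [h2]
    exact Finset.single_le_sum (f := fun j : Fin r => F p (lam i ^ 2 / lam j ^ 2))
      (fun _ _ => Nat.zero_le _) (Finset.mem_univ i)
  · intro d hd
    have h2 := (hUd d).2
    rcases lt_or_ge d 0 with hneg | hpos
    · rw [hsum0 d hneg] at h2
      omega
    · rw [hsum d hpos] at h2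
      have key : 2 * ∑ i : Fin r, F p (d ^ 2 / lam i ^ 2) ≤ F p 1 := by
        by_cases hex : ∃ i : Fin r, F p (d ^ 2 / lam i ^ 2) ≠ 0
        · obtain ⟨i, hi⟩ := hex
          rw [Finset.sum_eq_single i]
          · apply F_other p hL ht hp h1 hlow hup hinj
            intro he
            apply hd
            rw [Finset.mem_image]
            refine ⟨i, Finset.mem_univ _, ?_⟩
            have h3 := lam_pos i
            have h4 : d ^ 2 = lam i ^ 2 := by
              field_simp at he
              exact he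
            exact ((pow_left_inj₀ hpos h3.le (by norm_num)).mp h4).symm
          · intro j _ hji
            by_contra hne
            obtain ⟨k, m, hk, hm, e1⟩ := exists_of_F_ne_zero p hp hi
            obtain ⟨k', m', hk', hm', e2⟩ := exists_of_F_ne_zero p hp hne
            have h3 := lam_pos i
            have h4 := lam_pos j
            have e3 : d ^ 2 = lam i ^ 2 * (k / m) := by
              rw [← e1]; field_simp
            have e4 : d ^ 2 = lam j ^ 2 * (k' / m') := by
              rw [← e2]; field_simp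
            have := lam_ratio hk hm' hm (e3.symm.trans e4)
            exact hji (Fin.ext this.symm)
          · intro h
            exact absurd (Finset.mem_univ i) h
        · push Not at hex
          rw [Finset.sum_eq_zero (fun i _ => hex i)]
          exact Nat.zero_le _
      have h5 : 2 * (w * ∑ i : Fin r, F p (d ^ 2 / lam i ^ 2)) ≤ w * F p 1 := by
        calc 2 * (w * ∑ i : Fin r, F p (d ^ 2 / lam i ^ 2))
            = w * (2 * ∑ i : Fin r, F p (d ^ 2 / lam i ^ 2)) := by ring
          _ ≤ w * F p 1 := Nat.mul_le_mul_left _ key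
      omega

end

end Pool.Agent.Helper53.Assemble
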