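import Mathlib

set_option autoImplicit false

/-!
Chromatic counts of induced subgraphs through the class recursion, and the basic monotonicity facts.
-/

namespace Helper53.BW

open Finset Classical

noncomputable section

variable {V : Type*}

/-- independent set of vertices -/
def Indep (G : SimpleGraph V) (S : Finset V) : Prop := ∀ x ∈ S, ∀ y ∈ S, ¬ G.Adj x y

/-- independent subsets of `W` -/
def I (G : SimpleGraph V) (W : Finset V) : Finset (Finset V) := W.powerset.filter (Indep G)

/-- number of proper `k`-colourings of `G[W]` (class recursion) -/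
def P (G : SimpleGraph V) : ℕ → Finset V → ℝ
  | 0, W => if W = ∅ then 1 else 0
  | (k+1), W => ∑ S ∈ I G W, P G k (W \ S)

variable {G : SimpleGraph V}

lemma mem_I {W S : Finset V} : S ∈ I G W ↔ S ⊆ W ∧ Indep G S := by
  simp [I]

lemma Indep.mono {S T : Finset V} (h : Indep G T) (hST : S ⊆ T) : Indep G S :=
  fun x hx y hy => h x (hST hx) y (hST hy)

lemma indep_empty : Indep G (∅ : Finset V) := by intro x hx; simp at hx

lemma empty_mem_I (W : Finset V) : (∅ : Finset V) ∈ I G W := mem_I.2 ⟨by simp, indep_empty⟩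

lemma P_zero (W : Finset V) : P G 0 W = if W = ∅ then 1 else 0 := rfl

lemma P_succ (k : ℕ) (W : Finset V) : P G (k+1) W = ∑ S ∈ I G W, P G k (W \ S) := rfl

lemma P_nonneg (k : ℕ) (W : Finset V) : 0 ≤ P G k W := by
  induction k generalizing W with
  | zero => rw [P_zero]; split_ifs <;> norm_num
  | succ k ih => rw [P_succ]; exact Finset.sum_nonneg (fun S _ => ih _)

lemma I_empty : I G (∅ : Finset V) = {∅} := by
  ext S; rw [mem_I, Finset.mem_singleton]
  constructor
  · rintro ⟨h, _⟩; exact Finset.subset_empty.1 h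
  · rintro rfl; exact ⟨by simp, indep_empty⟩

lemma P_empty (k : ℕ) : P G k ∅ = 1 := by
  induction k with
  | zero => simp [P_zero]
  | succ k ih => rw [P_succ, I_empty]; simp [ih]

lemma P_le_succ (k : ℕ) (W : Finset V) : P G k W ≤ P G (k+1) W := by
  rw [P_succ]
  have := Finset.single_le_sum (f := fun S => P G k (W \ S)) (fun S _ => P_nonneg k _) (empty_mem_I (G := G) W)
  simpa using this

/-- swapping two disjoint classes -/
lemma sum_swap (f : Finset V → ℝ) (W : Finset V) (v : V) :
    ∑ S ∈ (I G W).filter (fun S => v ∉ S), ∑ T ∈ (I G (W \ S)).filter (fun T => v ∈ T), f ((W \ S) \ T)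
      = ∑ T ∈ (I G W).filter (fun T => v ∈ T), ∑ S ∈ I G (W \ T), f ((W \ T) \ S) := by
  rw [Finset.sum_sigma', Finset.sum_sigma']
  refine Finset.sum_nbij' (fun p => ⟨p.2, p.1⟩) (fun p => ⟨p.2, p.1⟩) ?_ ?_ ?_ ?_ ?_
  · rintro ⟨S, T⟩ h
    simp only [Finset.mem_sigma, Finset.mem_filter, mem_I] at h ⊢
    obtain ⟨⟨⟨hS, hiS⟩, hvS⟩, ⟨hT, hiT⟩, hvT⟩ := h
    refine ⟨⟨⟨hT.trans Finset.sdiff_subset, hiT⟩, hvT⟩, ?_, hiS⟩
    intro x hx
    refine Finset.mem_sdiff.2 ⟨hS hx, fun hxT => ?_⟩
    exact (Finset.mem_sdiff.1 (hT hxT)).2 hx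
  · rintro ⟨T, S⟩ h
    simp only [Finset.mem_sigma, Finset.mem_filter, mem_I] at h ⊢
    obtain ⟨⟨⟨hT, hiT⟩, hvT⟩, hS, hiS⟩ := h
    refine ⟨⟨⟨hS.trans Finset.sdiff_subset, hiS⟩, ?_⟩, ⟨?_, hiT⟩, hvT⟩
    · intro hv
      exact (Finset.mem_sdiff.1 (hS hv)).2 hvT
    · intro x hx
      refine Finset.mem_sdiff.2 ⟨hT hx, fun hxS => ?_⟩
      exact (Finset.mem_sdiff.1 (hS hxS)).2 hx
  · rintro ⟨S, T⟩ _; rfl
  · rintro ⟨S, T⟩ _; rfl
  · rintro ⟨S, T⟩ _
    simp only
    congr 1
    ext x; simp only [Finset.mem_sdiff]; tauto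

/-- class identity: the class of `v` can have any of the `k+1` colours -/
lemma P_class (k : ℕ) (W : Finset V) (v : V) (hv : v ∈ W) :
    P G (k+1) W = (k+1) * ∑ S ∈ (I G W).filter (fun S => v ∈ S), P G k (W \ S) := by
  induction k generalizing W with
  | zero =>
    rw [P_succ, ← Finset.sum_filter_add_sum_filter_not (I G W) (fun S => v ∈ S)]
    have : ∑ S ∈ (I G W).filter (fun S => ¬ v ∈ S), P G 0 (W \ S) = 0 := by
      refine Finset.sum_eq_zero (fun S hS => ?_)
      rw [P_zero, if_neg]
      intro h
      rw [Finset.mem_filter] at hS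
      exact hS.2 (Finset.sdiff_eq_empty_iff_subset.1 h hv)
    rw [this]; simp
  | succ k ih =>
    rw [P_succ, ← Finset.sum_filter_add_sum_filter_not (I G W) (fun S => v ∈ S)]
    have h2 : ∑ S ∈ (I G W).filter (fun S => ¬ v ∈ S), P G (k+1) (W \ S)
        = (k+1) * ∑ T ∈ (I G W).filter (fun T => v ∈ T), P G (k+1) (W \ T) := by
      have h3 : ∀ S ∈ (I G W).filter (fun S => ¬ v ∈ S), P G (k+1) (W \ S)
          = (k+1) * ∑ T ∈ (I G (W \ S)).filter (fun T => v ∈ T), P G k ((W \ S) \ T) := by
        intro S hS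
        rw [Finset.mem_filter] at hS
        exact ih (W \ S) (Finset.mem_sdiff.2 ⟨hv, hS.2⟩)
      rw [Finset.sum_congr rfl h3, ← Finset.mul_sum, sum_swap (G := G) (fun X => P G k X) W v]
      rfl
    rw [h2]; push_cast; ring

/-- class identity with natural subtraction, valid for every number of colours -/
lemma P_class' (k : ℕ) (W : Finset V) (v : V) (hv : v ∈ W) :
    P G k W = k * ∑ S ∈ (I G W).filter (fun S => v ∈ S), P G (k-1) (W \ S) := by
  cases k with
  | zero =>
    rw [P_zero, if_neg]; · simp
    rintro rfl; simp at hv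
  | succ k =>
    rw [P_class k W v hv]; simp

/-- sums over classes containing a new vertex `x` -/
lemma sum_class_insert (f : Finset V → ℝ) (X : Finset V) (x : V) (hx : x ∉ X) :
    ∑ S ∈ (I G (insert x X)).filter (fun S => x ∈ S), f (insert x X \ S)
      = ∑ S ∈ (I G X).filter (fun S => ∀ y ∈ S, ¬ G.Adj x y), f (X \ S) := by
  refine Finset.sum_nbij' (fun S => S.erase x) (fun S => insert x S) ?_ ?_ ?_ ?_ ?_
  · intro S hS
    simp only [Finset.mem_filter, mem_I] at hS ⊢
    obtain ⟨⟨hS, hi⟩, hxS⟩ := hS
    refine ⟨⟨?_, hi.mono (Finset.erase_subset _ _)⟩, ?_⟩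
    · intro y hy
      rw [Finset.mem_erase] at hy
      rcases Finset.mem_insert.1 (hS hy.2) with h | h
      · exact absurd h hy.1
      · exact h
    · intro y hy
      exact hi x hxS y (Finset.mem_of_mem_erase hy)
  · intro S hS
    simp only [Finset.mem_filter, mem_I] at hS ⊢
    obtain ⟨⟨hS, hi⟩, hn⟩ := hS
    refine ⟨⟨Finset.insert_subset_insert x hS, ?_⟩, Finset.mem_insert_self _ _⟩
    intro a ha b hb
    rcases Finset.mem_insert.1 ha with h1 | h1
    · rcases Finset.mem_insert.1 hb with h2 | h2
      · rw [h1, h2]; exact G.irrefl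
      · rw [h1]; exact hn b h2
    · rcases Finset.mem_insert.1 hb with h2 | h2
      · rw [h2]; exact fun h => hn a h1 h.symm
      · exact hi a h1 b h2
  · intro S hS
    simp only [Finset.mem_filter, mem_I] at hS
    exact Finset.insert_erase hS.2
  · intro S hS
    simp only [Finset.mem_filter, mem_I] at hS
    exact Finset.erase_insert (fun h => hx (hS.1.1 h))
  · intro S hS
    simp only [Finset.mem_filter, mem_I] at hS
    congr 1
    ext y
    simp only [Finset.mem_sdiff, Finset.mem_insert, Finset.mem_erase]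
    constructor
    · rintro ⟨h1 | h1, h2⟩
      · subst h1; exact absurd hS.2 h2
      · exact ⟨h1, fun h => h2 h.2⟩
    · rintro ⟨h1, h2⟩
      refine ⟨Or.inr h1, fun h => h2 ⟨?_, h⟩⟩
      rintro rfl; exact hx h1

/-- greedy extension -/
lemma P_ext (k : ℕ) (W : Finset V) (z : V) (hz : z ∉ W) :
    ((k:ℝ) - ((W.filter (fun y => G.Adj z y)).card : ℝ)) * P G k W ≤ P G k (insert z W) := by
  induction k generalizing W with
  | zero =>
    have h1 : P G 0 (insert z W) = 0 := by
      rw [P_zero, if_neg]; exact Finset.insert_ne_empty z W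
    rw [h1]
    have := P_nonneg (G := G) 0 W
    have h2 : (0:ℝ) ≤ ((W.filter (fun y => G.Adj z y)).card : ℝ) := by positivity
    push_cast
    nlinarith
  | succ k ih =>
    rw [P_succ k (insert z W), ← Finset.sum_filter_add_sum_filter_not (I G (insert z W)) (fun S => z ∈ S),
      sum_class_insert (G := G) (fun X => P G k X) W z hz]
    have h2 : (I G (insert z W)).filter (fun S => ¬ z ∈ S) = I G W := by
      ext S
      simp only [Finset.mem_filter, mem_I]
      constructor
      · rintro ⟨⟨h1, h2⟩, h3⟩
        refine ⟨fun y hy => ?_, h2⟩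
        rcases Finset.mem_insert.1 (h1 hy) with rfl | h
        · exact absurd hy h3
        · exact h
      · rintro ⟨h1, h2⟩
        exact ⟨⟨h1.trans (Finset.subset_insert _ _), h2⟩, fun h => hz (h1 h)⟩
    rw [h2, P_succ k W, Finset.mul_sum, Finset.sum_filter, ← Finset.sum_add_distrib]
    refine Finset.sum_le_sum (fun S hS => ?_)
    rw [mem_I] at hS
    have hzS : z ∉ S := fun h => hz (hS.1 h)
    have e1 : insert z W \ S = insert z (W \ S) := Finset.insert_sdiff_of_notMem W hzS
    rw [e1]
    have hz' : z ∉ W \ S := fun h => hz (Finset.mem_sdiff.1 h).1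
    have h3 := ih (W \ S) hz'
    have hp := P_nonneg (G := G) k (W \ S)
    by_cases hn : ∀ y ∈ S, ¬ G.Adj z y
    · rw [if_pos hn]
      have h4 : (((W \ S).filter (fun y => G.Adj z y)).card : ℝ) ≤ ((W.filter (fun y => G.Adj z y)).card : ℝ) := by
        exact_mod_cast Finset.card_le_card (Finset.filter_subset_filter _ Finset.sdiff_subset)
      push_cast
      nlinarith
    · rw [if_neg hn]
      have h4 : ((W \ S).filter (fun y => G.Adj z y)).card + 1 ≤ (W.filter (fun y => G.Adj z y)).card := by
        push Not at hn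
        obtain ⟨y, hy, hay⟩ := hn
        refine Finset.card_lt_card ?_
        refine (Finset.ssubset_iff_of_subset (Finset.filter_subset_filter _ Finset.sdiff_subset)).2 ⟨y, ?_, ?_⟩
        · exact Finset.mem_filter.2 ⟨hS.1 hy, hay⟩
        · intro h
          exact (Finset.mem_sdiff.1 (Finset.mem_filter.1 h).1).2 hy
      have h5 : (((W \ S).filter (fun y => G.Adj z y)).card : ℝ) + 1 ≤ ((W.filter (fun y => G.Adj z y)).card : ℝ) := by
        exact_mod_cast h4
      push_cast
      nlinarith

lemma P_pos (k : ℕ) (W : Finset V) (h : W.card ≤ k) : 0 < P G k W := by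
  induction W using Finset.induction_on with
  | empty => rw [P_empty]; norm_num
  | insert z W hz ih =>
    rw [Finset.card_insert_of_notMem hz] at h
    have h1 := ih (by omega)
    have h2 := P_ext (G := G) k W z hz
    have h3 : ((W.filter (fun y => G.Adj z y)).card : ℝ) ≤ W.card := by
      exact_mod_cast Finset.card_filter_le _ _
    have h4 : (W.card : ℝ) + 1 ≤ k := by exact_mod_cast h
    have : 0 < ((k:ℝ) - ((W.filter (fun y => G.Adj z y)).card : ℝ)) * P G k W := by
      apply mul_pos _ h1; linarith
    linarith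

/-- (F), one vertex, cross-multiplied -/
lemma F_one (k : ℕ) : ∀ (X : Finset V) (x : V), x ∉ X → X.card ≤ k →
    P G k (insert x X) * P G (k+1) X ≤ P G k X * P G (k+1) (insert x X) := by
  induction k with
  | zero =>
    intro X x hx hc
    have hX : X = ∅ := Finset.card_eq_zero.1 (by omega)
    subst hX
    have h1 : P G 0 (insert x (∅ : Finset V)) = 0 := by
      rw [P_zero, if_neg]; exact Finset.insert_ne_empty x ∅
    rw [h1, zero_mul]
    exact mul_nonneg (P_nonneg _ _) (P_nonneg _ _)
  | succ k ih =>
    intro X x hx hc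
    -- monotonicity at the lower level for arbitrary subsets
    have hmono : ∀ (S : Finset V), P G k X * P G (k+1) (X \ S) ≤ P G k (X \ S) * P G (k+1) X := by
      intro S
      induction S using Finset.induction_on with
      | empty => simp
      | insert y S hy ihS =>
        by_cases hyX : y ∈ X
        · have hyXS : y ∈ X \ S := Finset.mem_sdiff.2 ⟨hyX, hy⟩
          have e : X \ insert y S = (X \ S).erase y := by
            ext z; simp only [Finset.mem_sdiff, Finset.mem_insert, Finset.mem_erase]; tauto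
          have e2 : insert y ((X \ S).erase y) = X \ S := Finset.insert_erase hyXS
          have hc2 : ((X \ S).erase y).card ≤ k := by
            rw [Finset.card_erase_of_mem hyXS]
            have := Finset.card_le_card (Finset.sdiff_subset (s := X) (t := S))
            omega
          have h1 := ih ((X \ S).erase y) y (Finset.notMem_erase _ _) hc2
          rw [e2] at h1
          rw [e]
          have hp : 0 < P G (k+1) (X \ S) := P_pos _ _ (by
            have := Finset.card_le_card (Finset.sdiff_subset (s := X) (t := S))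
            omega)
          have hq := P_nonneg (G := G) (k+1) ((X \ S).erase y)
          have hX0 := P_nonneg (G := G) (k+1) X
          have h3 : P G k X * P G (k+1) (X \ S) * P G (k+1) ((X \ S).erase y)
              ≤ P G k (X \ S) * P G (k+1) X * P G (k+1) ((X \ S).erase y) :=
            mul_le_mul_of_nonneg_right ihS hq
          have h4 : P G k (X \ S) * P G (k+1) ((X \ S).erase y) * P G (k+1) X
              ≤ P G k ((X \ S).erase y) * P G (k+1) (X \ S) * P G (k+1) X :=
            mul_le_mul_of_nonneg_right h1 hX0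
          have h5 : P G (k+1) (X \ S) * (P G k X * P G (k+1) ((X \ S).erase y))
              ≤ P G (k+1) (X \ S) * (P G k ((X \ S).erase y) * P G (k+1) X) := by nlinarith
          exact le_of_mul_le_mul_left h5 hp
        · have e : X \ insert y S = X \ S := by
            ext z; simp only [Finset.mem_sdiff, Finset.mem_insert]
            constructor
            · rintro ⟨h1, h2⟩; exact ⟨h1, fun h => h2 (Or.inr h)⟩
            · rintro ⟨h1, h2⟩
              refine ⟨h1, ?_⟩
              rintro (rfl | h)
              · exact hyX h1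
              · exact h2 h
          rw [e]; exact ihS
    set K := P G (k+1) X with hK
    set N := P G (k+2) X with hN
    set q0 := P G k X with hq0
    have hKpos : 0 < K := P_pos _ _ hc
    set IR := (I G X).filter (fun S => ∀ y ∈ S, ¬ G.Adj x y) with hIR
    set PR := ∑ S ∈ IR, P G (k+1) (X \ S) with hPR
    set QR := ∑ S ∈ IR, P G k (X \ S) with hQR
    have hP1 : P G (k+1) (insert x X) = (k+1) * QR := by
      rw [P_class k (insert x X) x (Finset.mem_insert_self _ _), sum_class_insert (G := G) (fun X => P G k X) X x hx]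
    have hP2 : P G (k+2) (insert x X) = (k+2) * PR := by
      rw [P_class (k+1) (insert x X) x (Finset.mem_insert_self _ _), sum_class_insert (G := G) (fun X => P G (k+1) X) X x hx]
      push_cast; ring
    let h : Finset V → ℝ := fun S => P G k (X \ S) * K - q0 * P G (k+1) (X \ S)
    have hh0 : ∀ S, 0 ≤ h S := fun S => by have := hmono S; simp only [h]; linarith
    have hhe : h ∅ = 0 := by simp only [h, Finset.sdiff_empty]; ring
    set R := X.filter (fun y => ¬ G.Adj x y) with hR
    -- each vertex sum
    have hy : ∀ y ∈ X, (k+1) * ((k+2) * ∑ S ∈ (I G X).filter (fun S => y ∈ S), h S) = (k+2) * K * K - (k+1) * q0 * N := by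
      intro y hy
      have e1 := P_class (G := G) k X y hy
      have e2 := P_class (G := G) (k+1) X y hy
      have e3 : ∑ S ∈ (I G X).filter (fun S => y ∈ S), h S
          = (∑ S ∈ (I G X).filter (fun S => y ∈ S), P G k (X \ S)) * K
            - q0 * ∑ S ∈ (I G X).filter (fun S => y ∈ S), P G (k+1) (X \ S) := by
        simp only [h]; rw [Finset.sum_sub_distrib, Finset.sum_mul, Finset.mul_sum]
      rw [e3]
      push_cast at e2
      rw [← hK] at e1
      have e2' : N = (k + 2) * ∑ S ∈ (I G X).filter (fun S => y ∈ S), P G (k+1) (X \ S) := by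
        rw [hN]; rw [show (k+2 : ℕ) = k+1+1 from rfl, e2]; ring
      generalize (∑ S ∈ (I G X).filter (fun S => y ∈ S), P G k (X \ S)) = a at *
      generalize (∑ S ∈ (I G X).filter (fun S => y ∈ S), P G (k+1) (X \ S)) = b at *
      rw [e2', e1]; ring
    -- union bound
    have hub : ∑ S ∈ IR, h S ≤ ∑ y ∈ R, ∑ S ∈ (I G X).filter (fun S => y ∈ S), h S := by
      have e1 : ∀ y ∈ R, ∑ S ∈ IR, (if y ∈ S then h S else 0) ≤ ∑ S ∈ (I G X).filter (fun S => y ∈ S), h S := by
        intro y _
        rw [← Finset.sum_filter]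
        refine Finset.sum_le_sum_of_subset_of_nonneg ?_ (fun S _ _ => hh0 S)
        intro S hS
        simp only [hIR, Finset.mem_filter] at hS ⊢
        exact ⟨hS.1.1, hS.2⟩
      refine le_trans ?_ (Finset.sum_le_sum e1)
      rw [Finset.sum_comm]
      refine Finset.sum_le_sum (fun S hS => ?_)
      rcases Finset.eq_empty_or_nonempty S with rfl | ⟨y, hyS⟩
      · rw [hhe]; exact Finset.sum_nonneg (fun y _ => by split_ifs <;> simp)
      · have hyR : y ∈ R := by
          simp only [hIR, Finset.mem_filter, mem_I] at hS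
          exact Finset.mem_filter.2 ⟨hS.1.1 hyS, hS.2 y hyS⟩
        have := Finset.single_le_sum (f := fun y => if y ∈ S then h S else 0)
          (fun y _ => by split_ifs; exacts [hh0 S, le_refl _]) hyR
        simpa [hyS] using this
    have hsum : ∑ S ∈ IR, h S = QR * K - q0 * PR := by
      simp only [h, hQR, hPR]; rw [Finset.sum_sub_distrib, Finset.sum_mul, Finset.mul_sum]
    -- combine
    have hD : (k+1) * ((k+2) * ∑ y ∈ R, ∑ S ∈ (I G X).filter (fun S => y ∈ S), h S)
        = R.card * ((k+2) * K * K - (k+1) * q0 * N) := by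
      rw [Finset.mul_sum, Finset.mul_sum, Finset.sum_congr rfl (fun y hy' => hy y (Finset.mem_filter.1 hy').1)]
      rw [Finset.sum_const, nsmul_eq_mul]
    have hD0 : 0 ≤ (k+2) * K * K - (k+1) * q0 * N := by
      rcases Finset.eq_empty_or_nonempty X with h0 | ⟨y, hyX⟩
      · have e1 : K = 1 := by rw [hK, h0, P_empty]
        have e2 : N = 1 := by rw [hN, h0, P_empty]
        have e3 : q0 = 1 := by rw [hq0, h0, P_empty]
        rw [e1, e2, e3]; linarith
      · rw [← hy y hyX]
        have : 0 ≤ ∑ S ∈ (I G X).filter (fun S => y ∈ S), h S := Finset.sum_nonneg (fun S _ => hh0 S)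
        positivity
    have hext : (R.card : ℝ) * N ≤ (k+2) * PR := by
      rw [← hP2]
      have h1 := P_ext (G := G) (k+2) X x hx
      refine le_trans ?_ h1
      have h2 : (R.card : ℝ) + ((X.filter (fun y => G.Adj x y)).card : ℝ) = X.card := by
        have := Finset.card_filter_add_card_filter_not (s := X) (fun y => G.Adj x y)
        rw [hR]; exact_mod_cast (by omega)
      have h3 : (X.card : ℝ) ≤ k + 1 := by exact_mod_cast hc
      have h4 := P_nonneg (G := G) (k+2) X
      rw [← hN] at h4 ⊢
      push_cast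
      nlinarith
    rw [hP1, show (k+1+1 : ℕ) = k+2 from rfl, hP2]
    have h6 : (k+1 : ℝ) * ((k+2) * (QR * K - q0 * PR)) ≤ R.card * ((k+2) * K * K - (k+1) * q0 * N) := by
      rw [← hD, ← hsum]
      have hk : (0:ℝ) ≤ (k:ℝ) := by positivity
      exact mul_le_mul_of_nonneg_left (mul_le_mul_of_nonneg_left hub (by linarith)) (by linarith)
    have hNn : 0 ≤ N := P_nonneg _ _
    have h7 : N * ((k+1 : ℝ) * ((k+2) * (QR * K - q0 * PR))) ≤ N * (R.card * ((k+2) * K * K - (k+1) * q0 * N)) :=
      mul_le_mul_of_nonneg_left h6 hNn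
    have h8 : (R.card * N) * ((k+2) * K * K - (k+1) * q0 * N) ≤ ((k+2) * PR) * ((k+2) * K * K - (k+1) * q0 * N) :=
      mul_le_mul_of_nonneg_right hext hD0
    have h9 : ((k+2:ℝ) * K) * ((k+1) * QR * N) ≤ ((k+2:ℝ) * K) * (K * ((k+2) * PR)) := by nlinarith
    have hpos : (0:ℝ) < (k+2) * K := by positivity
    exact le_of_mul_le_mul_left h9 hpos

end

end Helper53.BW
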