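import Mathlib
import Pool.Agent.Helper53.ChromClass

set_option autoImplicit false

/-!
Monotonicity of the mean number of unused colours.
-/

namespace Helper53.BW

open Finset Classical

noncomputable section

variable {V : Type*} {G : SimpleGraph V}

/-- mean number of unused colours in a random proper `k`-colouring of `G[W]` -/
def J (G : SimpleGraph V) (k : ℕ) (W : Finset V) : ℝ := k * P G (k-1) W / P G k W

lemma J_nonneg (k : ℕ) (W : Finset V) : 0 ≤ J G k W := by
  unfold J
  exact div_nonneg (mul_nonneg (by positivity) (P_nonneg _ _)) (P_nonneg _ _)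

lemma J_mul (k : ℕ) (W : Finset V) (h : W.card ≤ k) : J G k W * P G k W = k * P G (k-1) W := by
  unfold J
  rw [div_mul_cancel₀]
  exact (P_pos k W h).ne'

/-- (F) one vertex -/
lemma J_insert_le (k : ℕ) (X : Finset V) (x : V) (hx : x ∉ X) (hc : X.card + 1 ≤ k) :
    J G k (insert x X) ≤ J G k X := by
  obtain ⟨k, rfl⟩ : ∃ l, k = l + 1 := ⟨k-1, by omega⟩
  have h := F_one (G := G) k X x hx (by omega)
  unfold J
  have h1 : 0 < P G (k+1) X := P_pos _ _ (by omega)
  have h2 : 0 < P G (k+1) (insert x X) := P_pos _ _ (by rw [Finset.card_insert_of_notMem hx]; omega)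
  rw [div_le_div_iff₀ h2 h1]
  simp only [Nat.add_sub_cancel]
  have hk : (0:ℝ) ≤ ((k+1 : ℕ):ℝ) := by positivity
  nlinarith [mul_le_mul_of_nonneg_left h hk]

/-- (F) for subsets -/
lemma J_anti (k : ℕ) (W X : Finset V) (hW : W ⊆ X) (hc : X.card ≤ k) : J G k X ≤ J G k W := by
  obtain ⟨D, rfl⟩ : ∃ D, X = W ∪ D := ⟨X \ W, by rw [Finset.union_sdiff_of_subset hW]⟩
  clear hW
  induction D using Finset.induction_on with
  | empty => simp
  | insert x D hx ih =>
    by_cases h : x ∈ W ∪ D
    · have e : W ∪ insert x D = W ∪ D := by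
        rw [Finset.union_insert, Finset.insert_eq_of_mem h]
      rw [e] at hc ⊢
      exact ih hc
    · have e : W ∪ insert x D = insert x (W ∪ D) := Finset.union_insert x W D
      rw [e] at hc ⊢
      rw [Finset.card_insert_of_notMem h] at hc
      exact (J_insert_le k (W ∪ D) x h hc).trans (ih (by omega))

/-- (Up): removing a vertex and a colour -/
lemma J_up (k : ℕ) (X : Finset V) (y : V) (hy : y ∈ X) (hc : X.card ≤ k + 1) :
    J G k (X.erase y) ≤ J G (k+1) X := by
  rcases Nat.eq_zero_or_pos k with rfl | hk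
  · have : J G 0 (X.erase y) = 0 := by unfold J; simp
    rw [this]; exact J_nonneg _ _
  have hce : (X.erase y).card ≤ k := by rw [Finset.card_erase_of_mem hy]; omega
  have h1 : 0 < P G (k+1) X := P_pos _ _ hc
  have e1 := P_class' (G := G) (k+1) X y hy
  have e2 := P_class' (G := G) k X y hy
  simp only [Nat.add_sub_cancel] at e1
  have key : ∀ S ∈ (I G X).filter (fun S => y ∈ S), J G k (X.erase y) * P G k (X \ S) ≤ k * P G (k-1) (X \ S) := by
    intro S hS
    rw [Finset.mem_filter, mem_I] at hS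
    have hsub : X \ S ⊆ X.erase y := by
      intro z hz
      rw [Finset.mem_sdiff] at hz
      refine Finset.mem_erase.2 ⟨?_, hz.1⟩
      rintro rfl; exact hz.2 hS.2
    have hcs : (X \ S).card ≤ k := (Finset.card_le_card hsub).trans hce
    rw [← J_mul k (X \ S) hcs]
    exact mul_le_mul_of_nonneg_right (J_anti k _ _ hsub hce) (P_nonneg _ _)
  have hsum := Finset.sum_le_sum key
  rw [← Finset.mul_sum, ← Finset.mul_sum] at hsum
  have hJ : J G (k+1) X = (k+1) * P G k X / P G (k+1) X := by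
    unfold J; simp
  rw [hJ, le_div_iff₀ h1]
  push_cast at e1
  rw [e1, e2]
  have hk1 : (0:ℝ) ≤ (k:ℝ) + 1 := by positivity
  calc J G k (X.erase y) * (((k:ℝ)+1) * ∑ S ∈ (I G X).filter (fun S => y ∈ S), P G k (X \ S))
      = ((k:ℝ)+1) * (J G k (X.erase y) * ∑ S ∈ (I G X).filter (fun S => y ∈ S), P G k (X \ S)) := by ring
    _ ≤ ((k:ℝ)+1) * (k * ∑ S ∈ (I G X).filter (fun S => y ∈ S), P G (k-1) (X \ S)) :=
        mul_le_mul_of_nonneg_left hsum hk1

/-- sum form of Cauchy-Schwarz -/
lemma cs_sum {ι : Type*} (s : Finset ι) (q p t : ι → ℝ) (hp : ∀ i ∈ s, 0 ≤ p i) (ht : ∀ i ∈ s, 0 ≤ t i)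
    (h : ∀ i ∈ s, q i ^ 2 ≤ p i * t i) : (∑ i ∈ s, q i)^2 ≤ (∑ i ∈ s, p i) * ∑ i ∈ s, t i := by
  have h1 : ∀ i ∈ s, q i ≤ Real.sqrt (p i) * Real.sqrt (t i) := by
    intro i hi
    rw [← Real.sqrt_mul (hp i hi)]
    exact Real.le_sqrt_of_sq_le (h i hi)
  have h1' : ∀ i ∈ s, - q i ≤ Real.sqrt (p i) * Real.sqrt (t i) := by
    intro i hi
    rw [← Real.sqrt_mul (hp i hi)]
    exact Real.le_sqrt_of_sq_le (by rw [neg_sq]; exact h i hi)
  have h2 : |∑ i ∈ s, q i| ≤ ∑ i ∈ s, Real.sqrt (p i) * Real.sqrt (t i) := by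
    rw [abs_le]
    constructor
    · have := Finset.sum_le_sum h1'
      rw [Finset.sum_neg_distrib] at this
      linarith
    · exact Finset.sum_le_sum h1
  have h3 := Finset.sum_mul_sq_le_sq_mul_sq s (fun i => Real.sqrt (p i)) (fun i => Real.sqrt (t i))
  have h4 : ∑ i ∈ s, Real.sqrt (p i) ^ 2 = ∑ i ∈ s, p i :=
    Finset.sum_congr rfl (fun i hi => Real.sq_sqrt (hp i hi))
  have h5 : ∑ i ∈ s, Real.sqrt (t i) ^ 2 = ∑ i ∈ s, t i :=
    Finset.sum_congr rfl (fun i hi => Real.sq_sqrt (ht i hi))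
  rw [h4, h5] at h3
  refine le_trans ?_ h3
  rw [← sq_abs (∑ i ∈ s, q i)]
  exact pow_le_pow_left₀ (abs_nonneg _) h2 2

/-- second moment inequality -/
lemma CS_aux (k : ℕ) (W : Finset V) :
    ((k:ℝ)+1) * P G k W ^ 2 ≤ P G (k+1) W * (k * P G (k-1) W + P G k W) := by
  induction hn : W.card using Nat.strong_induction_on generalizing k W with
  | _ n ih =>
  rcases Finset.eq_empty_or_nonempty W with rfl | ⟨y, hy⟩
  · simp only [P_empty]; nlinarith
  rcases Nat.eq_zero_or_pos k with rfl | hk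
  · have h0 : P G 0 W = 0 := by
      rw [P_zero, if_neg]; rintro rfl; simp at hy
    simp [h0]
  obtain ⟨l, rfl⟩ : ∃ l, k = l + 1 := ⟨k-1, by omega⟩
  have e1 := P_class' (G := G) (l+2) W y hy
  have e2 := P_class' (G := G) (l+1) W y hy
  have e3 := P_class' (G := G) l W y hy
  simp only [Nat.add_sub_cancel] at e2
  rw [show l + 2 - 1 = l + 1 by omega] at e1
  simp only [Nat.add_sub_cancel]
  rw [show l + 1 + 1 = l + 2 from rfl, e1, e3]
  rw [e2]
  set F := (I G W).filter (fun S => y ∈ S) with hF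
  have key : (∑ S ∈ F, P G l (W \ S) * Real.sqrt (l+1))^2
      ≤ (∑ S ∈ F, P G (l+1) (W \ S)) * ∑ S ∈ F, (l * P G (l-1) (W \ S) + P G l (W \ S)) := by
    refine cs_sum F _ _ _ (fun S _ => P_nonneg _ _) (fun S _ => ?_) (fun S hS => ?_)
    · exact add_nonneg (mul_nonneg (by positivity) (P_nonneg _ _)) (P_nonneg _ _)
    · rw [mul_pow, Real.sq_sqrt (by positivity)]
      have hlt : (W \ S).card < n := by
        rw [← hn]
        refine Finset.card_lt_card ?_
        rw [hF, Finset.mem_filter, mem_I] at hS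
        refine (Finset.ssubset_iff_of_subset Finset.sdiff_subset).2 ⟨y, hy, ?_⟩
        intro h; exact (Finset.mem_sdiff.1 h).2 hS.2
      have := ih _ hlt l (W \ S) rfl
      nlinarith
  rw [← Finset.sum_mul, mul_pow, Real.sq_sqrt (by positivity), Finset.sum_add_distrib, ← Finset.mul_sum] at key
  generalize (∑ S ∈ F, P G l (W \ S)) = a at *
  generalize (∑ S ∈ F, P G (l+1) (W \ S)) = b at *
  generalize (∑ S ∈ F, P G (l-1) (W \ S)) = c at *
  push_cast
  have hl : (0:ℝ) ≤ (l:ℝ) := by positivity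
  have : (0:ℝ) ≤ ((l:ℝ)+2) * ((l:ℝ)+1) := by positivity
  nlinarith [mul_le_mul_of_nonneg_left key this]

lemma J_succ_le (k : ℕ) (W : Finset V) (h : W.card ≤ k) : J G (k+1) W ≤ J G k W + 1 := by
  have h1 : 0 < P G (k+1) W := P_pos _ _ (by omega)
  have h2 : 0 < P G k W := P_pos _ _ h
  have h3 := CS_aux (G := G) k W
  have e : J G (k+1) W = (k+1) * P G k W / P G (k+1) W := by unfold J; simp
  have e2 : J G k W = k * P G (k-1) W / P G k W := rfl
  rw [e, e2, div_add_one h2.ne', div_le_div_iff₀ h1 h2]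
  nlinarith

/-- one-step Lipschitz bound -/
lemma J_erase_le (k : ℕ) (W : Finset V) (x : V) (hx : x ∈ W) (hc : W.card ≤ k) :
    J G k (W.erase x) ≤ J G k W + 1 := by
  have hpos : 0 < W.card := Finset.card_pos.2 ⟨x, hx⟩
  obtain ⟨l, rfl⟩ : ∃ l, k = l + 1 := ⟨k-1, by omega⟩
  have h1 := J_succ_le (G := G) l (W.erase x) (by rw [Finset.card_erase_of_mem hx]; omega)
  have h2 := J_up (G := G) l W x hx hc
  linarith

/-- (Lip) -/
lemma J_sdiff_le (k : ℕ) (Y C : Finset V) (hC : C ⊆ Y) (hne : C.Nonempty) (hc : Y.card ≤ k + 1) :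
    J G k (Y \ C) ≤ J G (k+1) Y + C.card - 1 := by
  induction hn : C.card using Nat.strong_induction_on generalizing C with
  | _ n ih =>
  obtain ⟨x, hx⟩ := hne
  rcases Finset.eq_empty_or_nonempty (C.erase x) with h0 | hne'
  · have hCx : C = {x} := by
      ext z; rw [Finset.mem_singleton]
      constructor
      · intro hz
        by_contra hzx
        have : z ∈ C.erase x := Finset.mem_erase.2 ⟨hzx, hz⟩
        rw [h0] at this; simp at this
      · rintro rfl; exact hx
    have e : Y \ C = Y.erase x := by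
      rw [hCx]; exact Finset.sdiff_singleton_eq_erase x Y
    rw [e]
    have h1 := J_up (G := G) k Y x (hC hx) hc
    have : (C.card : ℝ) = 1 := by rw [hCx]; simp
    rw [← hn, this]
    linarith
  · have hcard : (C.erase x).card + 1 = C.card := Finset.card_erase_add_one hx
    have h1 := ih (C.erase x).card (by omega) (C.erase x) ((Finset.erase_subset _ _).trans hC) hne' rfl
    have e : Y \ C = (Y \ C.erase x).erase x := by
      ext z; simp only [Finset.mem_sdiff, Finset.mem_erase]
      constructor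
      · rintro ⟨h1, h2⟩
        refine ⟨?_, h1, fun h => h2 h.2⟩
        rintro rfl; exact h2 hx
      · rintro ⟨h1, h2, h3⟩
        exact ⟨h2, fun h => h3 ⟨h1, h⟩⟩
    have hxm : x ∈ Y \ C.erase x := Finset.mem_sdiff.2 ⟨hC hx, Finset.notMem_erase _ _⟩
    have hck : (Y \ C.erase x).card ≤ k := by
      have := Finset.card_sdiff_add_card_eq_card ((Finset.erase_subset x C).trans hC)
      have h3 : 0 < (C.erase x).card := Finset.card_pos.2 hne'
      omega
    have h2 := J_erase_le (G := G) k (Y \ C.erase x) x hxm hck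
    rw [e]
    have h4 : ((C.erase x).card : ℝ) + 1 = (C.card : ℝ) := by exact_mod_cast hcard
    rw [← hn]
    linarith

/-- chain of (Up): lower bound by an induced subgraph with as many colours removed as vertices -/
lemma J_chain (k : ℕ) (Y Z : Finset V) (hZ : Z ⊆ Y) (hc : Y.card ≤ k) :
    J G (k - (Y \ Z).card) Z ≤ J G k Y := by
  induction hn : (Y \ Z).card using Nat.strong_induction_on generalizing k Y with
  | _ n ih =>
  rcases Finset.eq_empty_or_nonempty (Y \ Z) with h0 | ⟨y, hy⟩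
  · have hYZ : Y = Z := Finset.Subset.antisymm (Finset.sdiff_eq_empty_iff_subset.1 h0) hZ
    rw [h0] at hn; simp at hn
    subst hn; rw [hYZ]; simp
  · have hyY : y ∈ Y := (Finset.mem_sdiff.1 hy).1
    have hyZ : y ∉ Z := (Finset.mem_sdiff.1 hy).2
    have hpos : 0 < Y.card := Finset.card_pos.2 ⟨y, hyY⟩
    obtain ⟨l, rfl⟩ : ∃ l, k = l + 1 := ⟨k-1, by omega⟩
    have e : Y.erase y \ Z = (Y \ Z).erase y := by
      ext z; simp only [Finset.mem_sdiff, Finset.mem_erase]; tauto
    have hcard : ((Y \ Z).erase y).card + 1 = (Y \ Z).card := Finset.card_erase_add_one hy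
    have h1 := ih (Y.erase y \ Z).card (by rw [e]; omega) l (Y.erase y)
      (by intro z hz; exact Finset.mem_erase.2 ⟨fun h => hyZ (h ▸ hz), hZ hz⟩)
      (by rw [Finset.card_erase_of_mem hyY]; omega) rfl
    have h2 := J_up (G := G) l Y y hyY hc
    have e3 : l - (Y.erase y \ Z).card = l + 1 - n := by rw [e]; omega
    rw [e3] at h1
    linarith

end

end Helper53.BW
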