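import Mathlib
import Pool.Agent.Helper53.ChromMono

set_option autoImplicit false

/-!
Link between the class recursion and actual colourings, and the deletion formula.
-/

namespace Helper53.BW

open Finset Classical

noncomputable section

variable {V : Type*} [Fintype V] {G : SimpleGraph V}

/-- proper colourings of `G[W]` with colours `0..k-1`, extended by `0` outside `W` -/
def cols (G : SimpleGraph V) (k : ℕ) (W : Finset V) : Finset (V → ℕ) :=
  (Fintype.piFinset (fun v => if v ∈ W then Finset.range k else {0})).filter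
    (fun c => ∀ u ∈ W, ∀ v ∈ W, G.Adj u v → c u ≠ c v)

lemma mem_cols {k : ℕ} {W : Finset V} {c : V → ℕ} :
    c ∈ cols G k W ↔ (∀ v ∈ W, c v < k) ∧ (∀ v, v ∉ W → c v = 0) ∧
      ∀ u ∈ W, ∀ v ∈ W, G.Adj u v → c u ≠ c v := by
  unfold cols
  rw [Finset.mem_filter, Fintype.mem_piFinset]
  constructor
  · rintro ⟨h1, h2⟩
    refine ⟨fun v hv => ?_, fun v hv => ?_, h2⟩
    · have := h1 v; rw [if_pos hv] at this; exact Finset.mem_range.1 this
    · have := h1 v; rw [if_neg hv] at this; exact Finset.mem_singleton.1 this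
  · rintro ⟨h1, h2, h3⟩
    refine ⟨fun v => ?_, h3⟩
    by_cases hv : v ∈ W
    · rw [if_pos hv]; exact Finset.mem_range.2 (h1 v hv)
    · rw [if_neg hv]; exact Finset.mem_singleton.2 (h2 v hv)

lemma card_cols (k : ℕ) (W : Finset V) : ((cols G k W).card : ℝ) = P G k W := by
  induction k generalizing W with
  | zero =>
    rw [P_zero]
    split_ifs with h
    · subst h
      have : cols G 0 (∅ : Finset V) = {fun _ => 0} := by
        ext c; rw [mem_cols, Finset.mem_singleton]
        constructor
        · rintro ⟨_, h, _⟩; funext v; exact h v (by simp)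
        · rintro rfl; simp
      rw [this]; simp
    · obtain ⟨v, hv⟩ := Finset.nonempty_iff_ne_empty.2 h
      have : cols G 0 W = ∅ := by
        rw [Finset.eq_empty_iff_forall_notMem]
        intro c hc
        have := (mem_cols.1 hc).1 v hv
        omega
      rw [this]; simp
  | succ k ih =>
    rw [P_succ]
    have hmaps : ∀ c ∈ cols G (k+1) W, W.filter (fun v => c v = k) ∈ I G W := by
      intro c hc
      rw [mem_cols] at hc
      rw [mem_I]
      refine ⟨Finset.filter_subset _ _, ?_⟩
      intro x hx y hy hxy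
      rw [Finset.mem_filter] at hx hy
      exact hc.2.2 x hx.1 y hy.1 hxy (by rw [hx.2, hy.2])
    rw [Finset.card_eq_sum_card_fiberwise hmaps]
    push_cast
    refine Finset.sum_congr rfl (fun S hS => ?_)
    rw [← ih]
    rw [mem_I] at hS
    norm_cast
    refine Finset.card_nbij' (fun c v => if v ∈ S then 0 else c v) (fun c v => if v ∈ S then k else c v) ?_ ?_ ?_ ?_
    · intro c hc
      simp only [Finset.coe_filter, Set.mem_ofPred_eq] at hc
      obtain ⟨hc, hS2⟩ := hc
      rw [mem_cols] at hc
      rw [Finset.mem_coe, mem_cols]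
      beta_reduce
      refine ⟨fun v hv => ?_, fun v hv => ?_, fun u hu v hv huv => ?_⟩
      · rw [Finset.mem_sdiff] at hv
        rw [if_neg hv.2]
        have h1 := hc.1 v hv.1
        have h2 : c v ≠ k := fun h => hv.2 (by rw [← hS2]; exact Finset.mem_filter.2 ⟨hv.1, h⟩)
        omega
      · by_cases hvS : v ∈ S
        · rw [if_pos hvS]
        · rw [if_neg hvS]
          exact hc.2.1 v (fun h => hv (Finset.mem_sdiff.2 ⟨h, hvS⟩))
      · rw [Finset.mem_sdiff] at hu hv
        rw [if_neg hu.2, if_neg hv.2]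
        exact hc.2.2 u hu.1 v hv.1 huv
    · intro c hc
      rw [Finset.mem_coe, mem_cols] at hc
      simp only [Finset.coe_filter, Set.mem_ofPred_eq]
      have hcS : ∀ v ∈ W, v ∉ S → c v < k := fun v hv hvS => hc.1 v (Finset.mem_sdiff.2 ⟨hv, hvS⟩)
      refine ⟨?_, ?_⟩
      · rw [mem_cols]
        refine ⟨fun v hv => ?_, fun v hv => ?_, fun u hu v hv huv => ?_⟩
        · by_cases hvS : v ∈ S
          · rw [if_pos hvS]; omega
          · rw [if_neg hvS]; have := hcS v hv hvS; omega
        · have hvS : v ∉ S := fun h => hv (hS.1 h)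
          rw [if_neg hvS]
          exact hc.2.1 v (fun h => hv (Finset.mem_sdiff.1 h).1)
        · by_cases huS : u ∈ S <;> by_cases hvS : v ∈ S
          · exact absurd huv (hS.2 u huS v hvS)
          · rw [if_pos huS, if_neg hvS]; have := hcS v hv hvS; omega
          · rw [if_neg huS, if_pos hvS]; have := hcS u hu huS; omega
          · rw [if_neg huS, if_neg hvS]
            exact hc.2.2 u (Finset.mem_sdiff.2 ⟨hu, huS⟩) v (Finset.mem_sdiff.2 ⟨hv, hvS⟩) huv
      · ext v
        rw [Finset.mem_filter]
        constructor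
        · rintro ⟨hv, h⟩
          by_contra hvS
          rw [if_neg hvS] at h
          have := hcS v hv hvS; omega
        · intro hvS
          exact ⟨hS.1 hvS, if_pos hvS⟩
    · intro c hc
      simp only [Finset.coe_filter, Set.mem_ofPred_eq] at hc
      obtain ⟨hc, hS2⟩ := hc
      funext v
      dsimp only
      by_cases hvS : v ∈ S
      · rw [if_pos hvS]
        rw [← hS2, Finset.mem_filter] at hvS
        exact hvS.2.symm
      · rw [if_neg hvS, if_neg hvS]
    · intro c hc
      rw [Finset.mem_coe, mem_cols] at hc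
      funext v
      dsimp only
      by_cases hvS : v ∈ S
      · rw [if_pos hvS]
        exact (hc.2.1 v (fun h => (Finset.mem_sdiff.1 h).2 hvS)).symm
      · rw [if_neg hvS, if_neg hvS]

lemma card_coloring (G : SimpleGraph V) (k : ℕ) :
    (Nat.card (G.Coloring (Fin k)) : ℝ) = P G k Finset.univ := by
  rw [← card_cols]
  norm_cast
  have e : G.Coloring (Fin k) ≃ {c // c ∈ cols G k (Finset.univ : Finset V)} :=
    { toFun := fun C => ⟨fun v => (C v).val, by
        rw [mem_cols]
        refine ⟨fun v _ => (C v).isLt, fun v hv => absurd (Finset.mem_univ v) hv, fun u _ v _ huv h => ?_⟩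
        exact C.valid huv (Fin.ext h)⟩
      invFun := fun c => SimpleGraph.Coloring.mk (fun v => ⟨c.1 v, (mem_cols.1 c.2).1 v (Finset.mem_univ v)⟩) (by
        intro u v huv h
        exact (mem_cols.1 c.2).2.2 u (Finset.mem_univ u) v (Finset.mem_univ v) huv (congrArg Fin.val h))
      left_inv := by intro C; rfl
      right_inv := by intro c; rfl }
  rw [Nat.card_congr e, Nat.card_eq_fintype_card, Fintype.card_coe]

omit [Fintype V] in
lemma I_congr {G H : SimpleGraph V} (W : Finset V) (h : ∀ x ∈ W, ∀ y ∈ W, (G.Adj x y ↔ H.Adj x y)) :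
    I G W = I H W := by
  ext S
  rw [mem_I, mem_I]
  constructor
  · rintro ⟨h1, h2⟩
    exact ⟨h1, fun x hx y hy => fun ha => h2 x hx y hy ((h x (h1 hx) y (h1 hy)).2 ha)⟩
  · rintro ⟨h1, h2⟩
    exact ⟨h1, fun x hx y hy => fun ha => h2 x hx y hy ((h x (h1 hx) y (h1 hy)).1 ha)⟩

omit [Fintype V] in
lemma P_congr {G H : SimpleGraph V} (k : ℕ) (W : Finset V)
    (h : ∀ x ∈ W, ∀ y ∈ W, (G.Adj x y ↔ H.Adj x y)) : P G k W = P H k W := by
  induction k generalizing W with
  | zero => rfl
  | succ k ih =>
    rw [P_succ, P_succ, I_congr W h]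
    refine Finset.sum_congr rfl (fun S _ => ih _ ?_)
    intro x hx y hy
    exact h x (Finset.mem_sdiff.1 hx).1 y (Finset.mem_sdiff.1 hy).1

/-- neighbours of `u` as a finset -/
def nb (G : SimpleGraph V) (u : V) : Finset V := Finset.univ.filter (fun y => G.Adj u y)

lemma mem_nb {u y : V} : y ∈ nb G u ↔ G.Adj u y := by simp [nb]

/-- the whole vertex set by classes of `u` -/
lemma P_univ (k : ℕ) (u : V) :
    P G k Finset.univ = k * ∑ S ∈ (I G (Finset.univ.erase u)).filter (fun S => S ∩ nb G u = ∅),
      P G (k-1) (Finset.univ.erase u \ S) := by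
  have h := P_class' (G := G) k Finset.univ u (Finset.mem_univ u)
  have e : (Finset.univ : Finset V) = insert u (Finset.univ.erase u) :=
    (Finset.insert_erase (Finset.mem_univ u)).symm
  rw [h]
  congr 1
  conv_lhs => rw [e]
  rw [sum_class_insert (G := G) (fun X => P G (k-1) X) (Finset.univ.erase u) u (Finset.notMem_erase _ _)]
  refine Finset.sum_congr ?_ (fun _ _ => rfl)
  ext S
  simp only [Finset.mem_filter]
  refine and_congr_right (fun _ => ?_)
  rw [Finset.eq_empty_iff_forall_notMem]
  constructor
  · intro h y hy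
    rw [Finset.mem_inter, mem_nb] at hy
    exact h y hy.1 hy.2
  · intro h y hy ha
    exact h y (Finset.mem_inter.2 ⟨hy, mem_nb.2 ha⟩)

/-- colourings of `G \ e` in which the ends of `e = uv` get the same colour -/
def M (G : SimpleGraph V) (u v : V) (k : ℕ) : ℝ :=
  k * ∑ S ∈ (I G (Finset.univ.erase u)).filter (fun S => S ∩ nb G u = {v}),
      P G (k-1) (Finset.univ.erase u \ S)

lemma P_delete (k : ℕ) (u v : V) (huv : G.Adj u v) :
    P (G.deleteEdges {s(u,v)}) k Finset.univ = P G k Finset.univ + M G u v k := by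
  set H := G.deleteEdges {s(u,v)} with hH
  have hadj : ∀ x y, H.Adj x y ↔ (G.Adj x y ∧ s(x,y) ≠ s(u,v)) := by
    intro x y; rw [hH, SimpleGraph.deleteEdges_adj, Set.mem_singleton_iff]
  have hoff : ∀ x ∈ (Finset.univ.erase u : Finset V), ∀ y ∈ (Finset.univ.erase u : Finset V),
      (H.Adj x y ↔ G.Adj x y) := by
    intro x hx y hy
    rw [hadj]
    constructor
    · exact fun h => h.1
    · intro h
      refine ⟨h, fun he => ?_⟩
      rw [Sym2.eq_iff] at he
      rcases he with ⟨h1, _⟩ | ⟨_, h1⟩
      · exact (Finset.mem_erase.1 hx).1 h1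
      · exact (Finset.mem_erase.1 hy).1 h1
  have hI : I H (Finset.univ.erase u) = I G (Finset.univ.erase u) := I_congr _ hoff
  have hnb : nb H u = (nb G u).erase v := by
    ext y
    rw [mem_nb, hadj, Finset.mem_erase, mem_nb]
    constructor
    · rintro ⟨h1, h2⟩
      exact ⟨fun h => h2 (by rw [h]), h1⟩
    · rintro ⟨h1, h2⟩
      refine ⟨h2, fun he => h1 ?_⟩
      rw [Sym2.eq_iff] at he
      rcases he with ⟨_, h3⟩ | ⟨h3, h4⟩
      · exact h3
      · exact absurd h4 (by rintro rfl; exact G.irrefl h2)
  rw [P_univ (G := H) k u, P_univ (G := G) k u, M, ← mul_add, hI]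
  congr 1
  have hPP : ∀ S ∈ (I G (Finset.univ.erase u)).filter (fun S => S ∩ nb H u = ∅),
      P H (k-1) (Finset.univ.erase u \ S) = P G (k-1) (Finset.univ.erase u \ S) := by
    intro S _
    refine P_congr _ _ ?_
    intro x hx y hy
    exact hoff x (Finset.mem_sdiff.1 hx).1 y (Finset.mem_sdiff.1 hy).1
  rw [Finset.sum_congr rfl hPP]
  have hunion : (I G (Finset.univ.erase u)).filter (fun S => S ∩ nb H u = ∅)
      = (I G (Finset.univ.erase u)).filter (fun S => S ∩ nb G u = ∅)
        ∪ (I G (Finset.univ.erase u)).filter (fun S => S ∩ nb G u = {v}) := by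
    ext S
    simp only [Finset.mem_union, Finset.mem_filter]
    rw [← and_or_left]
    refine and_congr_right (fun _ => ?_)
    rw [hnb]
    have hv : v ∈ nb G u := mem_nb.2 huv
    constructor
    · intro h
      by_cases hvS : v ∈ S
      · right
        ext y
        rw [Finset.mem_inter, Finset.mem_singleton]
        constructor
        · rintro ⟨h1, h2⟩
          by_contra hne
          have : y ∈ S ∩ (nb G u).erase v := Finset.mem_inter.2 ⟨h1, Finset.mem_erase.2 ⟨hne, h2⟩⟩
          rw [h] at this; simp at this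
        · rintro rfl; exact ⟨hvS, hv⟩
      · left
        rw [Finset.eq_empty_iff_forall_notMem]
        intro y hy
        rw [Finset.mem_inter] at hy
        have : y ∈ S ∩ (nb G u).erase v := Finset.mem_inter.2 ⟨hy.1, Finset.mem_erase.2 ⟨fun h => hvS (h ▸ hy.1), hy.2⟩⟩
        rw [h] at this; simp at this
    · intro h
      rw [Finset.eq_empty_iff_forall_notMem]
      intro y hy
      rw [Finset.mem_inter, Finset.mem_erase] at hy
      have hy2 : y ∈ S ∩ nb G u := Finset.mem_inter.2 ⟨hy.1, hy.2.2⟩
      rcases h with h | h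
      · rw [h] at hy2; simp at hy2
      · rw [h, Finset.mem_singleton] at hy2; exact hy.2.1 hy2
  rw [hunion, Finset.sum_union]
  rw [Finset.disjoint_left]
  intro S h1 h2
  rw [Finset.mem_filter] at h1 h2
  rw [h1.2] at h2
  have := h2.2
  have : v ∈ (∅ : Finset V) := by rw [this]; simp
  simp at this

/-- the edge `e` satisfies the Bartels–Welsh inequality -/
def Good (G : SimpleGraph V) (e : Sym2 V) : Prop :=
  (Nat.card (G.Coloring (Fin (Fintype.card V - 1))) : ℝ) /
      (Nat.card (G.Coloring (Fin (Fintype.card V))) : ℝ) ≤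
    (Nat.card ((G.deleteEdges {e}).Coloring (Fin (Fintype.card V - 1))) : ℝ) /
      (Nat.card ((G.deleteEdges {e}).Coloring (Fin (Fintype.card V))) : ℝ)

lemma M_nonneg (u v : V) (k : ℕ) : 0 ≤ M G u v k :=
  mul_nonneg (by positivity) (Finset.sum_nonneg (fun _ _ => P_nonneg _ _))

lemma good_of (u v : V) (huv : G.Adj u v)
    (h : P G (Fintype.card V - 1) Finset.univ * M G u v (Fintype.card V)
      ≤ M G u v (Fintype.card V - 1) * P G (Fintype.card V) Finset.univ) : Good G s(u,v) := by
  unfold Good
  rw [card_coloring, card_coloring, card_coloring, card_coloring, P_delete _ u v huv, P_delete _ u v huv]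
  have h1 : 0 < P G (Fintype.card V) Finset.univ := P_pos _ _ (le_of_eq (Finset.card_univ))
  have h2 := M_nonneg (G := G) u v (Fintype.card V)
  rw [div_le_div_iff₀ h1 (by linarith)]
  nlinarith

end

end Helper53.BW
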