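import Mathlib
import Pool.Agent.Helper53.ChromLink

set_option autoImplicit false

/-!
The main covariance estimate.
-/

namespace Helper53.BW

open Finset Classical

noncomputable section

variable {V : Type*} {G : SimpleGraph V}

section core

variable (G) (κ : ℕ) (Y : Finset V)

/-- weight of the classes containing `T` -/
def pT (T : Finset V) : ℝ := ∑ S ∈ (I G Y).filter (fun S => T ⊆ S), P G κ (Y \ S)

end core

variable {κ : ℕ} {Y : Finset V}

lemma pT_nonneg (T : Finset V) : 0 ≤ pT G κ Y T := Finset.sum_nonneg (fun _ _ => P_nonneg _ _)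

lemma pT_insert (m : ℝ) (hm : ∀ S ∈ I G Y, ∀ z ∈ S, (m-1) * P G κ (Y \ S) ≤ P G κ (Y \ (S.erase z)))
    (T : Finset V) (z : V) (hz : z ∉ T) : m * pT G κ Y (insert z T) ≤ pT G κ Y T := by
  have h1 : (m-1) * pT G κ Y (insert z T) ≤ ∑ S ∈ (I G Y).filter (fun S => T ⊆ S ∧ z ∉ S), P G κ (Y \ S) := by
    unfold pT
    rw [Finset.mul_sum]
    calc ∑ S ∈ (I G Y).filter (fun S => insert z T ⊆ S), (m-1) * P G κ (Y \ S)
        ≤ ∑ S ∈ (I G Y).filter (fun S => insert z T ⊆ S), P G κ (Y \ (S.erase z)) := by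
          refine Finset.sum_le_sum (fun S hS => ?_)
          rw [Finset.mem_filter] at hS
          exact hm S hS.1 z (hS.2 (Finset.mem_insert_self _ _))
      _ = ∑ S ∈ ((I G Y).filter (fun S => insert z T ⊆ S)).image (fun S => S.erase z), P G κ (Y \ S) := by
          rw [Finset.sum_image]
          intro S hS S' hS' h
          simp only [Finset.coe_filter, Set.mem_ofPred_eq] at hS hS'
          have h1 : z ∈ S := hS.2 (Finset.mem_insert_self _ _)
          have h2 : z ∈ S' := hS'.2 (Finset.mem_insert_self _ _)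
          have h' : S.erase z = S'.erase z := h
          rw [← Finset.insert_erase h1, ← Finset.insert_erase h2, h']
      _ ≤ ∑ S ∈ (I G Y).filter (fun S => T ⊆ S ∧ z ∉ S), P G κ (Y \ S) := by
          refine Finset.sum_le_sum_of_subset_of_nonneg ?_ (fun _ _ _ => P_nonneg _ _)
          intro S hS
          rw [Finset.mem_image] at hS
          obtain ⟨S', hS', rfl⟩ := hS
          rw [Finset.mem_filter, mem_I] at hS' ⊢
          refine ⟨⟨(Finset.erase_subset _ _).trans hS'.1.1, hS'.1.2.mono (Finset.erase_subset _ _)⟩, ?_, Finset.notMem_erase _ _⟩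
          intro x hx
          refine Finset.mem_erase.2 ⟨?_, hS'.2 (Finset.mem_insert_of_mem hx)⟩
          rintro rfl; exact hz hx
  have h2 : pT G κ Y (insert z T) + ∑ S ∈ (I G Y).filter (fun S => T ⊆ S ∧ z ∉ S), P G κ (Y \ S) = pT G κ Y T := by
    unfold pT
    rw [← Finset.sum_filter_add_sum_filter_not ((I G Y).filter (fun S => T ⊆ S)) (fun S => z ∈ S)]
    congr 1
    · refine Finset.sum_congr ?_ (fun _ _ => rfl)
      ext S
      simp only [Finset.mem_filter, Finset.insert_subset_iff]; tauto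
    · refine Finset.sum_congr ?_ (fun _ _ => rfl)
      ext S
      simp only [Finset.mem_filter]; tauto
  linarith

lemma pT_single (y : V) (hy : y ∈ Y) : ((κ:ℝ)+1) * pT G κ Y {y} = P G (κ+1) Y := by
  rw [P_class κ Y y hy]; unfold pT
  simp only [Finset.singleton_subset_iff]

lemma sum_card_sub (v y : V) :
    ∑ S ∈ (I G Y).filter (fun S => v ∈ S ∧ y ∈ S), ((S.card : ℝ) - 1) * P G κ (Y \ S)
      = ∑ z ∈ Y.erase v, pT G κ Y {v, y, z} := by
  have h1 : ∀ S ∈ (I G Y).filter (fun S => v ∈ S ∧ y ∈ S), ((S.card : ℝ) - 1) * P G κ (Y \ S)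
      = ∑ z ∈ Y.erase v, if z ∈ S then P G κ (Y \ S) else 0 := by
    intro S hS
    rw [Finset.mem_filter, mem_I] at hS
    rw [← Finset.sum_filter, Finset.sum_const, nsmul_eq_mul]
    congr 1
    have e : (Y.erase v).filter (fun z => z ∈ S) = S.erase v := by
      ext z; simp only [Finset.mem_filter, Finset.mem_erase]
      constructor
      · rintro ⟨⟨h1, _⟩, h3⟩; exact ⟨h1, h3⟩
      · rintro ⟨h1, h2⟩; exact ⟨⟨h1, hS.1.1 h2⟩, h2⟩
    rw [e]
    have := Finset.card_erase_add_one hS.2.1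
    have h : (((S.erase v).card + 1 : ℕ) : ℝ) = (S.card : ℝ) := by exact_mod_cast this
    push_cast at h; linarith
  rw [Finset.sum_congr rfl h1, Finset.sum_comm]
  refine Finset.sum_congr rfl (fun z _ => ?_)
  unfold pT
  rw [← Finset.sum_filter, Finset.filter_filter]
  refine Finset.sum_congr ?_ (fun _ _ => rfl)
  ext S
  simp only [Finset.mem_filter, Finset.insert_subset_iff, Finset.singleton_subset_iff, and_assoc]

/-- bound for a pair of vertices in the same class -/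
lemma pair_bound (m : ℝ) (hm1 : 1 ≤ m)
    (hm : ∀ S ∈ I G Y, ∀ z ∈ S, (m-1) * P G κ (Y \ S) ≤ P G κ (Y \ (S.erase z)))
    (hY : Y.card = κ) (v y : V) (hv : v ∈ Y) (hy : y ∈ Y) (hvy : v ≠ y) :
    ((κ:ℝ)+1) * ∑ S ∈ (I G Y).filter (fun S => v ∈ S ∧ y ∈ S), ((S.card : ℝ) - 1) * P G κ (Y \ S)
      ≤ (1/m) * (1 + ((κ:ℝ)+1)/m) * P G (κ+1) Y := by
  have hm0 : 0 < m := by linarith
  rw [sum_card_sub v y]
  set N := P G (κ+1) Y with hN
  have hN0 : 0 ≤ N := P_nonneg _ _
  have hκ : (0:ℝ) < (κ:ℝ) + 1 := by positivity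
  have h1 : ((κ:ℝ)+1) * pT G κ Y {v, y} ≤ N / m := by
    have e1 := pT_single (G := G) (κ := κ) v hv
    have e2 := pT_insert m hm {v} y (by simp [hvy.symm])
    have e3 : (insert y {v} : Finset V) = {v, y} := by ext x; simp [or_comm]
    rw [e3] at e2
    rw [le_div_iff₀ hm0, hN, ← e1]
    nlinarith
  have h2 : ∀ z ∈ Y.erase v, ((κ:ℝ)+1) * pT G κ Y {v, y, z} ≤ (if z = y then N / m else 0) + N / m / m := by
    intro z hz
    by_cases hzy : z = y
    · subst hzy
      rw [if_pos rfl]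
      have e : ({v, z, z} : Finset V) = {v, z} := by ext x; simp
      rw [e]
      have : 0 ≤ N / m / m := by positivity
      linarith
    · rw [if_neg hzy, zero_add]
      have hzv : z ≠ v := (Finset.mem_erase.1 hz).1
      have e2 := pT_insert m hm {v, y} z (by simp [hzv, hzy])
      have e3 : (insert z {v, y} : Finset V) = {v, y, z} := by
        ext x; simp only [Finset.mem_insert, Finset.mem_singleton]; tauto
      rw [e3] at e2
      rw [le_div_iff₀ hm0]
      calc ((κ:ℝ)+1) * pT G κ Y {v, y, z} * m = ((κ:ℝ)+1) * (m * pT G κ Y {v, y, z}) := by ring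
        _ ≤ ((κ:ℝ)+1) * pT G κ Y {v, y} := mul_le_mul_of_nonneg_left e2 hκ.le
        _ ≤ N / m := h1
  rw [Finset.mul_sum]
  refine (Finset.sum_le_sum h2).trans ?_
  rw [Finset.sum_add_distrib, Finset.sum_ite_eq' (Y.erase v) y, Finset.sum_const, nsmul_eq_mul]
  rw [if_pos (Finset.mem_erase.2 ⟨hvy.symm, hy⟩)]
  have hc : ((Y.erase v).card : ℝ) ≤ (κ:ℝ) + 1 := by
    have : (Y.erase v).card ≤ κ + 1 := by
      rw [Finset.card_erase_of_mem hv]; omega
    exact_mod_cast this
  have h3 : 0 ≤ N / m / m := by positivity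
  calc N / m + ((Y.erase v).card : ℝ) * (N / m / m) ≤ N / m + ((κ:ℝ)+1) * (N / m / m) := by
        nlinarith
    _ = (1/m) * (1 + ((κ:ℝ)+1)/m) * N := by field_simp

/-- the final algebraic step, in real variables -/
lemma final_algebra (k a m τ j N K P0 Q0 P1 Q1 B B' D D' EB ED : ℝ) (hk : 0 < k) (ha1 : 1 ≤ a) (hm0 : 0 < m)
    (hN : 0 < N) (hP00 : 0 ≤ P0) (hP10 : 0 ≤ P1) (hEB0 : 0 ≤ EB)
    (hjN : j * N = (k+1) * K)
    (hP0' : (k+1) * P0 = (k+1) * N - a * N + (k+1) * D)
    (hQ0' : k * Q0 = k * K - a * K + k * D')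
    (hP1' : (k+1) * P1 = N - (k+1) * B)
    (hQ1' : k * Q1 = K - k * B')
    (hDle : k * D' ≤ j * D + ED) (hBle : k * B' ≤ j * B + EB)
    (hEBle : (k+1) * EB ≤ (a-1) * (τ * N)) (hEDle : (k+1) * ED ≤ (a * (a-1) / 2) * (τ * N))
    (hBbound : (k+1) * B ≤ ((a-1)/m) * N) (hP0N : P0 ≤ N)
    (h1 : a - 1 ≤ m) (h2 : a * (a - 1) / 2 * τ ≤ j)
    (h3 : (k+1) * (a - 1) * τ ≤ (1 - (a - 1)/m) * (j - a * (a - 1) / 2 * τ)) :
    Q0 * P1 ≤ Q1 * P0 := by
  obtain ⟨n, hn⟩ : ∃ n, n = k + 1 := ⟨_, rfl⟩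
  have hn0 : 0 < n := by linarith
  rw [← hn] at hjN hP0' hP1' hEBle hEDle hBbound h3
  have hKN : n * K = j * N := hjN.symm
  have s1 : (j * P1 - EB) * P0 ≤ k * Q1 * P0 := by
    refine mul_le_mul_of_nonneg_right ?_ hP00
    rw [hQ1']
    have : n * (j * P1) = n * (K - j * B) := by
      calc n * (j * P1) = j * (n * P1) := by ring
        _ = j * (N - n * B) := by rw [hP1']
        _ = j * N - n * (j * B) := by ring
        _ = n * K - n * (j * B) := by rw [hKN]
        _ = n * (K - j * B) := by ring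
    have h5 : j * P1 = K - j * B := mul_left_cancel₀ hn0.ne' this
    rw [h5]; linarith
  have s2 : k * Q0 * P1 ≤ (j * P0 - K + ED) * P1 := by
    refine mul_le_mul_of_nonneg_right ?_ hP10
    rw [hQ0']
    have : n * (j * P0) = n * (n * K - a * K + j * D) := by
      calc n * (j * P0) = j * (n * P0) := by ring
        _ = j * (n * N - a * N + n * D) := by rw [hP0']
        _ = n * (j * N) - a * (j * N) + n * (j * D) := by ring
        _ = n * (n * K) - a * (n * K) + n * (j * D) := by rw [hKN]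
        _ = n * (n * K - a * K + j * D) := by ring
    have h5 : j * P0 = n * K - a * K + j * D := mul_left_cancel₀ hn0.ne' this
    rw [h5, hn]; linarith
  have s3 : EB * P0 ≤ (K - ED) * P1 := by
    have a0 : 0 ≤ a - 1 := by linarith
    have t1 : n * (n * (EB * P0)) ≤ n * N * ((a-1) * (τ * N)) := by
      calc n * (n * (EB * P0)) = (n * P0) * (n * EB) := by ring
        _ ≤ n * N * ((a-1) * (τ * N)) :=
            mul_le_mul (mul_le_mul_of_nonneg_left hP0N hn0.le) hEBle (mul_nonneg hn0.le hEB0)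
              (mul_nonneg hn0.le hN.le)
    have t2 : N * (j - a*(a-1)/2*τ) ≤ n * (K - ED) := by
      have : n * (K - ED) = j * N - n * ED := by rw [mul_sub, hKN]
      rw [this]; linarith
    have t3 : N * (1 - (a-1)/m) ≤ n * P1 := by
      rw [hP1']; linarith
    have u1 : 0 ≤ j - a*(a-1)/2*τ := by linarith
    have u2 : 0 ≤ 1 - (a-1)/m := by
      have : (a-1)/m ≤ 1 := by rw [div_le_one hm0]; exact h1
      linarith
    have u3 : 0 ≤ N * (j - a*(a-1)/2*τ) := mul_nonneg hN.le u1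
    have t4 : (N * (j - a*(a-1)/2*τ)) * (N * (1 - (a-1)/m)) ≤ (n * (K - ED)) * (n * P1) :=
      mul_le_mul t2 t3 (mul_nonneg hN.le u2) (le_trans u3 t2)
    have t5 : n * N * ((a-1) * (τ * N)) ≤ (N * (j - a*(a-1)/2*τ)) * (N * (1 - (a-1)/m)) := by
      have : N * N * (n * (a-1) * τ) ≤ N * N * ((1 - (a-1)/m) * (j - a*(a-1)/2*τ)) :=
        mul_le_mul_of_nonneg_left h3 (mul_nonneg hN.le hN.le)
      linarith
    have t6 : (n * n) * (EB * P0) ≤ (n * n) * ((K - ED) * P1) := by linarith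
    exact le_of_mul_le_mul_left t6 (mul_pos hn0 hn0)
  have s4 : k * (Q0 * P1) ≤ k * (Q1 * P0) := by linarith
  exact le_of_mul_le_mul_left s4 hk

/-- the main inequality between class sums -/
lemma core_ineq (hκ : 1 ≤ κ) (hY : Y.card = κ) (A : Finset V) (hA : A ⊆ Y) (v : V) (hv : v ∈ A)
    (m : ℝ) (hm1 : 1 ≤ m)
    (hm : ∀ S ∈ I G Y, ∀ z ∈ S, (m-1) * P G κ (Y \ S) ≤ P G κ (Y \ (S.erase z)))
    (τ : ℝ) (hτ : τ = (1/m) * (1 + ((κ:ℝ)+1)/m))
    (h1 : (A.card : ℝ) - 1 ≤ m)
    (h2 : (A.card : ℝ) * ((A.card : ℝ) - 1) / 2 * τ ≤ J G (κ+1) Y)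
    (h3 : ((κ:ℝ)+1) * ((A.card : ℝ) - 1) * τ
      ≤ (1 - ((A.card : ℝ) - 1)/m) * (J G (κ+1) Y - (A.card : ℝ) * ((A.card : ℝ) - 1) / 2 * τ)) :
    (∑ S ∈ (I G Y).filter (fun S => S ∩ A = ∅), P G (κ-1) (Y \ S))
        * (∑ S ∈ (I G Y).filter (fun S => S ∩ A = {v}), P G κ (Y \ S))
      ≤ (∑ S ∈ (I G Y).filter (fun S => S ∩ A = {v}), P G (κ-1) (Y \ S))
        * (∑ S ∈ (I G Y).filter (fun S => S ∩ A = ∅), P G κ (Y \ S)) := by
  have hm0 : 0 < m := by linarith
  have hκ0 : (0:ℝ) < (κ:ℝ) := by exact_mod_cast hκ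
  have hn0 : (0:ℝ) < (κ:ℝ) + 1 := by linarith
  set a : ℝ := (A.card : ℝ) with ha
  have ha1 : 1 ≤ a := by
    rw [ha]; exact_mod_cast Finset.card_pos.2 ⟨v, hv⟩
  set N := P G (κ+1) Y with hN
  set K := P G κ Y with hK
  set j := J G (κ+1) Y with hj
  have hNpos : 0 < N := P_pos _ _ (by omega)
  have hKpos : 0 < K := P_pos _ _ (by omega)
  have hjN : j * N = (κ+1) * K := by
    have := J_mul (G := G) (κ+1) Y (by omega)
    rw [hj, hN, this]; push_cast; simp [hK]
  have hj0 : 0 ≤ j := J_nonneg _ _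
  have hvY : v ∈ Y := hA hv
  set P0 := ∑ S ∈ (I G Y).filter (fun S => S ∩ A = ∅), P G κ (Y \ S) with hP0
  set Q0 := ∑ S ∈ (I G Y).filter (fun S => S ∩ A = ∅), P G (κ-1) (Y \ S) with hQ0
  set P1 := ∑ S ∈ (I G Y).filter (fun S => S ∩ A = {v}), P G κ (Y \ S) with hP1
  set Q1 := ∑ S ∈ (I G Y).filter (fun S => S ∩ A = {v}), P G (κ-1) (Y \ S) with hQ1
  -- vertex sums
  have hNs : N = ∑ S ∈ I G Y, P G κ (Y \ S) := P_succ κ Y
  have hKs : K = ∑ S ∈ I G Y, P G (κ-1) (Y \ S) := by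
    rw [hK]; conv_lhs => rw [show κ = (κ-1)+1 by omega]
    exact P_succ (κ-1) Y
  have hpv : ∀ y ∈ Y, (κ+1) * ∑ S ∈ (I G Y).filter (fun S => y ∈ S), P G κ (Y \ S) = N :=
    fun y hy => (P_class κ Y y hy).symm
  have hqv : ∀ y ∈ Y, κ * ∑ S ∈ (I G Y).filter (fun S => y ∈ S), P G (κ-1) (Y \ S) = K :=
    fun y hy => (P_class' κ Y y hy).symm
  -- inclusion-exclusion identity for a general weight
  have hie : ∀ f : Finset V → ℝ, ∑ S ∈ (I G Y).filter (fun S => S ∩ A = ∅), f S
      = ∑ S ∈ I G Y, f S - ∑ y ∈ A, ∑ S ∈ (I G Y).filter (fun S => y ∈ S), f S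
        + ∑ S ∈ I G Y, (((S ∩ A).card - 1 : ℕ) : ℝ) * f S := by
    intro f
    have e1 : ∑ y ∈ A, ∑ S ∈ (I G Y).filter (fun S => y ∈ S), f S = ∑ S ∈ I G Y, ((S ∩ A).card : ℝ) * f S := by
      have : ∀ y ∈ A, ∑ S ∈ (I G Y).filter (fun S => y ∈ S), f S = ∑ S ∈ I G Y, if y ∈ S then f S else 0 :=
        fun y _ => Finset.sum_filter _ _
      rw [Finset.sum_congr rfl this, Finset.sum_comm]
      refine Finset.sum_congr rfl (fun S _ => ?_)
      rw [← Finset.sum_filter, Finset.sum_const, nsmul_eq_mul]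
      congr 2
      rw [Finset.inter_comm]
      rfl
    rw [e1, ← Finset.sum_sub_distrib, ← Finset.sum_add_distrib, Finset.sum_filter]
    refine Finset.sum_congr rfl (fun S _ => ?_)
    by_cases h : S ∩ A = ∅
    · rw [if_pos h, h]; simp
    · rw [if_neg h]
      have : 1 ≤ (S ∩ A).card := Finset.card_pos.2 (Finset.nonempty_iff_ne_empty.2 h)
      rw [Nat.cast_sub this]; push_cast; ring
  set D := ∑ S ∈ I G Y, (((S ∩ A).card - 1 : ℕ) : ℝ) * P G κ (Y \ S) with hD
  set D' := ∑ S ∈ I G Y, (((S ∩ A).card - 1 : ℕ) : ℝ) * P G (κ-1) (Y \ S) with hD'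
  have hP0' : (κ+1) * P0 = (κ+1) * N - a * N + (κ+1) * D := by
    rw [hP0, hie (fun S => P G κ (Y \ S)), ← hNs]
    have e : (κ+1 : ℝ) * ∑ y ∈ A, ∑ S ∈ (I G Y).filter (fun S => y ∈ S), P G κ (Y \ S) = a * N := by
      rw [Finset.mul_sum, Finset.sum_congr rfl (fun y hy => hpv y (hA hy)), Finset.sum_const, nsmul_eq_mul]
    rw [mul_add, mul_sub, e]
  have hQ0' : κ * Q0 = κ * K - a * K + κ * D' := by
    rw [hQ0, hie (fun S => P G (κ-1) (Y \ S)), ← hKs]
    have e : (κ : ℝ) * ∑ y ∈ A, ∑ S ∈ (I G Y).filter (fun S => y ∈ S), P G (κ-1) (Y \ S) = a * K := by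
      rw [Finset.mul_sum, Finset.sum_congr rfl (fun y hy => hqv y (hA hy)), Finset.sum_const, nsmul_eq_mul]
    rw [mul_add, mul_sub, e]
  -- splitting the classes of v
  set FB := (I G Y).filter (fun S => v ∈ S ∧ S ∩ A ≠ {v}) with hFB
  have hsplit : ∀ f : Finset V → ℝ, ∑ S ∈ (I G Y).filter (fun S => v ∈ S), f S
      = ∑ S ∈ (I G Y).filter (fun S => S ∩ A = {v}), f S + ∑ S ∈ FB, f S := by
    intro f
    rw [← Finset.sum_filter_add_sum_filter_not ((I G Y).filter (fun S => v ∈ S)) (fun S => S ∩ A = {v}),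
      Finset.filter_filter, Finset.filter_filter]
    congr 1
    refine Finset.sum_congr ?_ (fun _ _ => rfl)
    ext S
    simp only [Finset.mem_filter]
    refine and_congr_right (fun _ => ⟨fun h => h.2, fun h => ⟨?_, h⟩⟩)
    have : v ∈ S ∩ A := by rw [h]; simp
    exact (Finset.mem_inter.1 this).1
  set B := ∑ S ∈ FB, P G κ (Y \ S) with hB
  set B' := ∑ S ∈ FB, P G (κ-1) (Y \ S) with hB'
  have hP1' : (κ+1) * P1 = N - (κ+1) * B := by
    have := hpv v hvY
    rw [hsplit (fun S => P G κ (Y \ S))] at this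
    rw [← this]; ring
  have hQ1' : κ * Q1 = K - κ * B' := by
    have := hqv v hvY
    rw [hsplit (fun S => P G (κ-1) (Y \ S))] at this
    rw [← this]; ring
  -- Lipschitz
  have hlip : ∀ S ∈ I G Y, S.Nonempty → κ * P G (κ-1) (Y \ S) ≤ (j + ((S.card:ℝ) - 1)) * P G κ (Y \ S) := by
    intro S hS hne
    rw [mem_I] at hS
    have hc : (Y \ S).card ≤ κ := by
      rw [← hY]; exact Finset.card_le_card Finset.sdiff_subset
    rw [← J_mul κ (Y \ S) hc]
    refine mul_le_mul_of_nonneg_right ?_ (P_nonneg _ _)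
    have := J_sdiff_le (G := G) κ Y S hS.1 hne (by omega)
    linarith
  set ED := ∑ S ∈ I G Y, (((S ∩ A).card - 1 : ℕ) : ℝ) * (((S.card:ℝ) - 1) * P G κ (Y \ S)) with hED
  set EB := ∑ S ∈ FB, ((S.card:ℝ) - 1) * P G κ (Y \ S) with hEB
  have hDle : κ * D' ≤ j * D + ED := by
    rw [hD', hD, hED, Finset.mul_sum, Finset.mul_sum, ← Finset.sum_add_distrib]
    refine Finset.sum_le_sum (fun S hS => ?_)
    by_cases hs : (S ∩ A).card - 1 = 0
    · rw [hs]; simp
    · have hne : S.Nonempty := by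
        rcases Finset.eq_empty_or_nonempty S with h | h
        · exfalso; apply hs; rw [h]; simp
        · exact h
      have h4 := hlip S hS hne
      have h5 : (0:ℝ) ≤ (((S ∩ A).card - 1 : ℕ) : ℝ) := by positivity
      calc κ * ((((S ∩ A).card - 1 : ℕ) : ℝ) * P G (κ-1) (Y \ S))
          = (((S ∩ A).card - 1 : ℕ) : ℝ) * (κ * P G (κ-1) (Y \ S)) := by ring
        _ ≤ (((S ∩ A).card - 1 : ℕ) : ℝ) * ((j + ((S.card:ℝ) - 1)) * P G κ (Y \ S)) :=
            mul_le_mul_of_nonneg_left h4 h5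
        _ = _ := by ring
  have hBle : κ * B' ≤ j * B + EB := by
    rw [hB', hB, hEB, Finset.mul_sum, Finset.mul_sum, ← Finset.sum_add_distrib]
    refine Finset.sum_le_sum (fun S hS => ?_)
    rw [hFB, Finset.mem_filter] at hS
    have h4 := hlip S hS.1 ⟨v, hS.2.1⟩
    linarith
  -- pair bounds
  have hF : ∀ x ∈ Y, ∀ y ∈ Y, x ≠ y →
      (κ+1) * ∑ S ∈ (I G Y).filter (fun S => x ∈ S ∧ y ∈ S), ((S.card : ℝ) - 1) * P G κ (Y \ S) ≤ τ * N := by
    intro x hx y hy hxy
    have := pair_bound m hm1 hm hY x y hx hy hxy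
    rw [hτ]; exact this
  have hτ0 : 0 ≤ τ := by rw [hτ]; positivity
  have hterm0 : ∀ S : Finset V, S.Nonempty → 0 ≤ ((S.card:ℝ) - 1) * P G κ (Y \ S) := by
    intro S hne
    refine mul_nonneg ?_ (P_nonneg _ _)
    have : (1:ℝ) ≤ (S.card : ℝ) := by exact_mod_cast Finset.card_pos.2 hne
    linarith
  have hEBle : (κ+1) * EB ≤ (a-1) * (τ * N) := by
    have e1 : EB ≤ ∑ y ∈ A.erase v, ∑ S ∈ (I G Y).filter (fun S => v ∈ S ∧ y ∈ S), ((S.card : ℝ) - 1) * P G κ (Y \ S) := by
      have e2 : ∀ y ∈ A.erase v, ∑ S ∈ FB, (if y ∈ S then ((S.card : ℝ) - 1) * P G κ (Y \ S) else 0)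
          ≤ ∑ S ∈ (I G Y).filter (fun S => v ∈ S ∧ y ∈ S), ((S.card : ℝ) - 1) * P G κ (Y \ S) := by
        intro y _
        rw [← Finset.sum_filter]
        refine Finset.sum_le_sum_of_subset_of_nonneg ?_ ?_
        · intro S hS
          simp only [hFB, Finset.mem_filter] at hS ⊢
          exact ⟨hS.1.1, hS.1.2.1, hS.2⟩
        · intro S hS _
          rw [Finset.mem_filter] at hS
          exact hterm0 S ⟨v, hS.2.1⟩
      refine le_trans ?_ (Finset.sum_le_sum e2)
      rw [Finset.sum_comm, hEB]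
      refine Finset.sum_le_sum (fun S hS => ?_)
      rw [hFB, Finset.mem_filter] at hS
      obtain ⟨hS1, hvS, hne⟩ := hS
      have : ∃ y ∈ A.erase v, y ∈ S := by
        by_contra hcon
        push Not at hcon
        apply hne
        ext y
        rw [Finset.mem_inter, Finset.mem_singleton]
        constructor
        · rintro ⟨h5, h6⟩
          by_contra h7
          exact hcon y (Finset.mem_erase.2 ⟨h7, h6⟩) h5
        · rintro rfl; exact ⟨hvS, hv⟩
      obtain ⟨y, hy, hyS⟩ := this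
      have h8 := Finset.single_le_sum (f := fun y => if y ∈ S then ((S.card : ℝ) - 1) * P G κ (Y \ S) else 0)
        (fun y _ => by split_ifs; exacts [hterm0 S ⟨v, hvS⟩, le_refl _]) hy
      simpa [hyS] using h8
    calc (κ+1) * EB ≤ (κ+1) * ∑ y ∈ A.erase v, ∑ S ∈ (I G Y).filter (fun S => v ∈ S ∧ y ∈ S), ((S.card : ℝ) - 1) * P G κ (Y \ S) :=
          mul_le_mul_of_nonneg_left e1 hn0.le
      _ = ∑ y ∈ A.erase v, (κ+1) * ∑ S ∈ (I G Y).filter (fun S => v ∈ S ∧ y ∈ S), ((S.card : ℝ) - 1) * P G κ (Y \ S) :=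
          Finset.mul_sum _ _ _
      _ ≤ ∑ y ∈ A.erase v, τ * N := Finset.sum_le_sum (fun y hy =>
          hF v hvY y (hA (Finset.mem_erase.1 hy).2) (Finset.mem_erase.1 hy).1.symm)
      _ = (a-1) * (τ * N) := by
          rw [Finset.sum_const, nsmul_eq_mul]
          congr 1
          have h9 := Finset.card_erase_add_one hv
          have h10 : (((A.erase v).card + 1 : ℕ) : ℝ) = (A.card : ℝ) := by exact_mod_cast h9
          push_cast at h10; linarith
  have hEDle : (κ+1) * ED ≤ (a * (a-1) / 2) * (τ * N) := by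
    have e1 : ED ≤ (1/2) * ∑ x ∈ A, ∑ y ∈ A.erase x, ∑ S ∈ (I G Y).filter (fun S => x ∈ S ∧ y ∈ S), ((S.card : ℝ) - 1) * P G κ (Y \ S) := by
      have e2 : ∀ x ∈ A, ∀ y ∈ A.erase x, ∑ S ∈ (I G Y).filter (fun S => x ∈ S ∧ y ∈ S), ((S.card : ℝ) - 1) * P G κ (Y \ S)
          = ∑ S ∈ I G Y, if (x ∈ S ∧ y ∈ S) then ((S.card : ℝ) - 1) * P G κ (Y \ S) else 0 :=
        fun x _ y _ => Finset.sum_filter _ _
      rw [Finset.sum_congr rfl (fun x hx => Finset.sum_congr rfl (e2 x hx))]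
      have e3 : ∀ x ∈ A, ∑ y ∈ A.erase x, ∑ S ∈ I G Y, (if (x ∈ S ∧ y ∈ S) then ((S.card : ℝ) - 1) * P G κ (Y \ S) else 0)
          = ∑ S ∈ I G Y, ∑ y ∈ A.erase x, (if (x ∈ S ∧ y ∈ S) then ((S.card : ℝ) - 1) * P G κ (Y \ S) else 0) :=
        fun x _ => Finset.sum_comm
      rw [Finset.sum_congr rfl e3, Finset.sum_comm, Finset.mul_sum, hED]
      refine Finset.sum_le_sum (fun S hS => ?_)
      have e4 : ∑ x ∈ A, ∑ y ∈ A.erase x, (if (x ∈ S ∧ y ∈ S) then ((S.card : ℝ) - 1) * P G κ (Y \ S) else 0)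
          = ((S ∩ A).card : ℝ) * (((S ∩ A).card : ℝ) - 1) * (((S.card : ℝ) - 1) * P G κ (Y \ S)) := by
        have e5 : ∀ x ∈ A, ∑ y ∈ A.erase x, (if (x ∈ S ∧ y ∈ S) then ((S.card : ℝ) - 1) * P G κ (Y \ S) else 0)
            = if x ∈ S then (((S ∩ A).card : ℝ) - 1) * (((S.card : ℝ) - 1) * P G κ (Y \ S)) else 0 := by
          intro x hx
          by_cases hxS : x ∈ S
          · simp only [hxS, true_and, if_true]
            rw [← Finset.sum_filter, Finset.sum_const, nsmul_eq_mul]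
            congr 1
            have e6 : (A.erase x).filter (fun y => y ∈ S) = (S ∩ A).erase x := by
              ext y; simp only [Finset.mem_filter, Finset.mem_erase, Finset.mem_inter]; tauto
            rw [e6]
            have h9 := Finset.card_erase_add_one (Finset.mem_inter.2 ⟨hxS, hx⟩)
            have h10 : ((((S ∩ A).erase x).card + 1 : ℕ) : ℝ) = ((S ∩ A).card : ℝ) := by exact_mod_cast h9
            push_cast at h10; linarith
          · simp [hxS]
        rw [Finset.sum_congr rfl e5, ← Finset.sum_filter, Finset.sum_const, nsmul_eq_mul]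
        have e7 : A.filter (fun x => x ∈ S) = S ∩ A := by
          ext y; simp only [Finset.mem_filter, Finset.mem_inter]; tauto
        rw [e7]; ring
      rw [e4]
      rcases Finset.eq_empty_or_nonempty S with h | h
      · subst h; simp
      · have h11 := hterm0 S h
        have h12 : (((S ∩ A).card - 1 : ℕ) : ℝ) ≤ (1/2) * (((S ∩ A).card : ℝ) * (((S ∩ A).card : ℝ) - 1)) := by
          rcases Nat.lt_or_ge (S ∩ A).card 2 with h13 | h13
          · interval_cases hc : (S ∩ A).card <;> norm_num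
          · rw [Nat.cast_sub (by omega)]
            have h14 : (2:ℝ) ≤ ((S ∩ A).card : ℝ) := by exact_mod_cast h13
            push_cast
            nlinarith
        calc (((S ∩ A).card - 1 : ℕ) : ℝ) * (((S.card:ℝ) - 1) * P G κ (Y \ S))
            ≤ ((1/2) * (((S ∩ A).card : ℝ) * (((S ∩ A).card : ℝ) - 1))) * (((S.card:ℝ) - 1) * P G κ (Y \ S)) :=
              mul_le_mul_of_nonneg_right h12 h11
          _ = _ := by ring
    calc (κ+1) * ED ≤ (κ+1) * ((1/2) * ∑ x ∈ A, ∑ y ∈ A.erase x, ∑ S ∈ (I G Y).filter (fun S => x ∈ S ∧ y ∈ S), ((S.card : ℝ) - 1) * P G κ (Y \ S)) :=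
          mul_le_mul_of_nonneg_left e1 hn0.le
      _ = (1/2) * ∑ x ∈ A, ∑ y ∈ A.erase x, (κ+1) * ∑ S ∈ (I G Y).filter (fun S => x ∈ S ∧ y ∈ S), ((S.card : ℝ) - 1) * P G κ (Y \ S) := by
          simp only [Finset.mul_sum]
          refine Finset.sum_congr rfl (fun x _ => Finset.sum_congr rfl (fun y _ => Finset.sum_congr rfl (fun S _ => ?_)))
          ring
      _ ≤ (1/2) * ∑ x ∈ A, ∑ y ∈ A.erase x, τ * N := by
          refine mul_le_mul_of_nonneg_left ?_ (by norm_num)
          refine Finset.sum_le_sum (fun x hx => Finset.sum_le_sum (fun y hy => ?_))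
          exact hF x (hA hx) y (hA (Finset.mem_erase.1 hy).2) (Finset.mem_erase.1 hy).1.symm
      _ = (a * (a-1) / 2) * (τ * N) := by
          have h9 : ∀ x ∈ A, ∑ y ∈ A.erase x, τ * N = (a-1) * (τ * N) := by
            intro x hx
            rw [Finset.sum_const, nsmul_eq_mul]
            congr 1
            have h9 := Finset.card_erase_add_one hx
            have h10 : (((A.erase x).card + 1 : ℕ) : ℝ) = (A.card : ℝ) := by exact_mod_cast h9
            push_cast at h10; linarith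
          rw [Finset.sum_congr rfl h9, Finset.sum_const, nsmul_eq_mul]; ring
  -- bound for B
  have hBbound : (κ+1) * B ≤ ((a-1)/m) * N := by
    have e1 : B ≤ ∑ y ∈ A.erase v, pT G κ Y {v, y} := by
      have e2 : ∀ y ∈ A.erase v, ∑ S ∈ FB, (if y ∈ S then P G κ (Y \ S) else 0) ≤ pT G κ Y {v, y} := by
        intro y _
        unfold pT
        rw [← Finset.sum_filter]
        refine Finset.sum_le_sum_of_subset_of_nonneg ?_ (fun _ _ _ => P_nonneg _ _)
        intro S hS
        simp only [hFB, Finset.mem_filter, Finset.insert_subset_iff, Finset.singleton_subset_iff] at hS ⊢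
        exact ⟨hS.1.1, hS.1.2.1, hS.2⟩
      refine le_trans ?_ (Finset.sum_le_sum e2)
      rw [Finset.sum_comm, hB]
      refine Finset.sum_le_sum (fun S hS => ?_)
      rw [hFB, Finset.mem_filter] at hS
      obtain ⟨hS1, hvS, hne⟩ := hS
      have : ∃ y ∈ A.erase v, y ∈ S := by
        by_contra hcon
        push Not at hcon
        apply hne
        ext y
        rw [Finset.mem_inter, Finset.mem_singleton]
        constructor
        · rintro ⟨h5, h6⟩
          by_contra h7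
          exact hcon y (Finset.mem_erase.2 ⟨h7, h6⟩) h5
        · rintro rfl; exact ⟨hvS, hv⟩
      obtain ⟨y, hy, hyS⟩ := this
      have h8 := Finset.single_le_sum (f := fun y => if y ∈ S then P G κ (Y \ S) else 0)
        (fun y _ => by split_ifs; exacts [P_nonneg _ _, le_refl _]) hy
      simpa [hyS] using h8
    have e3 : ∀ y ∈ A.erase v, (κ+1) * pT G κ Y {v, y} ≤ N / m := by
      intro y hy
      have hvy : y ≠ v := (Finset.mem_erase.1 hy).1
      have f1 := pT_single (G := G) (κ := κ) v hvY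
      have f2 := pT_insert m hm {v} y (by simp [hvy])
      have f3 : (insert y {v} : Finset V) = {v, y} := by ext x; simp [or_comm]
      rw [f3] at f2
      rw [le_div_iff₀ hm0, hN, ← f1]
      nlinarith
    calc (κ+1) * B ≤ (κ+1) * ∑ y ∈ A.erase v, pT G κ Y {v, y} := mul_le_mul_of_nonneg_left e1 hn0.le
      _ = ∑ y ∈ A.erase v, (κ+1) * pT G κ Y {v, y} := Finset.mul_sum _ _ _
      _ ≤ ∑ y ∈ A.erase v, N / m := Finset.sum_le_sum e3
      _ = ((a-1)/m) * N := by
          rw [Finset.sum_const, nsmul_eq_mul]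
          have h9 := Finset.card_erase_add_one hv
          have h10 : (((A.erase v).card + 1 : ℕ) : ℝ) = (A.card : ℝ) := by exact_mod_cast h9
          push_cast at h10
          have h11 : ((A.erase v).card : ℝ) = a - 1 := by linarith
          rw [h11]; ring
  -- final algebra
  have hP0N : P0 ≤ N := by
    rw [hP0, hNs]
    exact Finset.sum_le_sum_of_subset_of_nonneg (Finset.filter_subset _ _) (fun _ _ _ => P_nonneg _ _)
  have hP00 : 0 ≤ P0 := Finset.sum_nonneg (fun _ _ => P_nonneg _ _)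
  have hP10 : 0 ≤ P1 := Finset.sum_nonneg (fun _ _ => P_nonneg _ _)
  have hEB0 : 0 ≤ EB := by
    rw [hEB]; refine Finset.sum_nonneg (fun S hS => ?_)
    rw [hFB, Finset.mem_filter] at hS
    exact hterm0 S ⟨v, hS.2.1⟩
  exact final_algebra (κ:ℝ) a m τ j N K P0 Q0 P1 Q1 B B' D D' EB ED hκ0 ha1 hm0 hNpos hP00 hP10 hEB0
    hjN hP0' hQ0' hP1' hQ1' hDle hBle hEBle hEDle hBbound hP0N h1 h2 h3

end

end Helper53.BW
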