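import Mathlib
import Pool.Agent.Helper53.ChromMain

set_option autoImplicit false

/-!
Consequences: criteria for an edge to satisfy the Bartels–Welsh inequality.
-/

namespace Helper53.BW

open Finset Classical

noncomputable section

variable {V : Type*} [Fintype V] {G : SimpleGraph V}

/-- dominated neighbourhoods -/
lemma good_dominated (u v : V) (huv : G.Adj u v) (h : ∀ w, w ≠ v → G.Adj u w → G.Adj v w) :
    Good G s(u,v) := by
  apply good_of u v huv
  set n := Fintype.card V with hn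
  have hcY : (Finset.univ.erase u : Finset V).card = n - 1 := by
    rw [Finset.card_erase_of_mem (Finset.mem_univ u), Finset.card_univ]
  have hn1 : 1 ≤ n := by rw [hn]; exact Fintype.card_pos_iff.2 ⟨u⟩
  have hvY : v ∈ (Finset.univ.erase u : Finset V) := Finset.mem_erase.2 ⟨fun e => G.irrefl (e ▸ huv), Finset.mem_univ v⟩
  have hM : ∀ k, M G u v k = P G k (Finset.univ.erase u) := by
    intro k
    rw [P_class' k (Finset.univ.erase u) v hvY]
    unfold M
    congr 1
    refine Finset.sum_congr ?_ (fun _ _ => rfl)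
    ext S
    simp only [Finset.mem_filter, mem_I]
    refine and_congr_right (fun hS => ?_)
    constructor
    · intro e
      have : v ∈ S ∩ nb G u := by rw [e]; simp
      exact (Finset.mem_inter.1 this).1
    · intro hvS
      ext w
      rw [Finset.mem_inter, Finset.mem_singleton, mem_nb]
      constructor
      · rintro ⟨h1, h2⟩
        by_contra hne
        exact hS.2 v hvS w h1 (h w hne h2)
      · rintro rfl; exact ⟨hvS, huv⟩
  rw [hM, hM]
  have hF := F_one (G := G) (n-1) (Finset.univ.erase u) u (Finset.notMem_erase _ _) hcY.le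
  rw [Finset.insert_erase (Finset.mem_univ u), Nat.sub_add_cancel hn1] at hF
  exact hF

/-- criterion from the core inequality -/
lemma good_core (u v : V) (huv : G.Adj u v) (m : ℝ) (hm1 : 1 ≤ m)
    (hm : ∀ S ∈ I G (Finset.univ.erase u), ∀ z ∈ S,
      (m-1) * P G (Fintype.card V - 1) (Finset.univ.erase u \ S)
        ≤ P G (Fintype.card V - 1) (Finset.univ.erase u \ (S.erase z)))
    (a : ℝ) (ha : a = ((nb G u).card : ℝ)) (j : ℝ) (hj : j ≤ J G (Fintype.card V) (Finset.univ.erase u))
    (n : ℝ) (hn : n = (Fintype.card V : ℝ)) (τ : ℝ) (hτ : τ = (1/m) * (1 + n/m))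
    (h1 : a - 1 ≤ m) (h2 : a * (a - 1) / 2 * τ ≤ j)
    (h3 : n * (a - 1) * τ ≤ (1 - (a - 1)/m) * (j - a * (a - 1) / 2 * τ)) : Good G s(u,v) := by
  apply good_of u v huv
  obtain ⟨κ, hκ⟩ : ∃ κ, Fintype.card V = κ + 1 := ⟨Fintype.card V - 1, by
    have : 0 < Fintype.card V := Fintype.card_pos_iff.2 ⟨u⟩
    omega⟩
  have hne : u ≠ v := fun e => G.irrefl (e ▸ huv)
  have hvY : v ∈ (Finset.univ.erase u : Finset V) := Finset.mem_erase.2 ⟨hne.symm, Finset.mem_univ v⟩
  have hcY : (Finset.univ.erase u : Finset V).card = κ := by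
    rw [Finset.card_erase_of_mem (Finset.mem_univ u), Finset.card_univ, hκ]; rfl
  have hκ1 : 1 ≤ κ := by
    rw [← hcY]; exact Finset.card_pos.2 ⟨v, hvY⟩
  rw [hκ] at hm hj ⊢
  simp only [Nat.add_sub_cancel] at hm ⊢
  have hA : nb G u ⊆ Finset.univ.erase u := by
    intro w hw
    rw [mem_nb] at hw
    exact Finset.mem_erase.2 ⟨fun e => G.irrefl (e ▸ hw), Finset.mem_univ w⟩
  have hnκ : n = (κ:ℝ) + 1 := by rw [hn, hκ]; push_cast; ring
  have hm0 : 0 < m := by linarith
  have hfac : 0 ≤ 1 - (a-1)/m := by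
    have : (a-1)/m ≤ 1 := by rw [div_le_one hm0]; exact h1
    linarith
  have hcore := core_ineq (G := G) (κ := κ) hκ1 hcY (nb G u) hA v (mem_nb.2 huv) m hm1 hm τ (by rw [hτ, hnκ])
    (by rw [← ha]; exact h1) (by rw [← ha]; linarith)
    (by
      rw [← ha, ← hnκ]
      refine h3.trans (mul_le_mul_of_nonneg_left ?_ hfac)
      linarith)
  rw [P_univ κ u, P_univ (κ+1) u, M, M]
  simp only [Nat.add_sub_cancel]
  have hk : (0:ℝ) ≤ (κ:ℝ) * ((κ+1 : ℕ):ℝ) := by positivity
  have := mul_le_mul_of_nonneg_left hcore hk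
  linarith

omit [Fintype V] in
/-- extending by a vertex coloured with an unused colour -/
lemma P_insert_ge_unused (k : ℕ) (W : Finset V) (z : V) (hz : z ∉ W) :
    k * P G (k-1) W ≤ P G k (insert z W) := by
  rw [P_class' k (insert z W) z (Finset.mem_insert_self _ _),
    sum_class_insert (G := G) (fun X => P G (k-1) X) W z hz]
  refine mul_le_mul_of_nonneg_left ?_ (by positivity)
  have h0 : (∅ : Finset V) ∈ (I G W).filter (fun S => ∀ y ∈ S, ¬ G.Adj z y) :=
    Finset.mem_filter.2 ⟨empty_mem_I W, by simp⟩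
  have := Finset.single_le_sum (f := fun S => P G (k-1) (W \ S)) (fun S _ => P_nonneg _ _) h0
  simpa using this

omit [Fintype V] in
/-- extension hypothesis from the mean number of unused colours -/
lemma ext_of_J (κ : ℕ) (Y : Finset V) (hY : Y.card = κ) (m : ℝ) (hm : m - 1 ≤ J G κ Y) :
    ∀ S ∈ I G Y, ∀ z ∈ S, (m-1) * P G κ (Y \ S) ≤ P G κ (Y \ (S.erase z)) := by
  intro S hS z hz
  rw [mem_I] at hS
  have e : Y \ S.erase z = insert z (Y \ S) := by
    ext x; simp only [Finset.mem_sdiff, Finset.mem_erase, Finset.mem_insert]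
    constructor
    · rintro ⟨h1, h2⟩
      by_cases hx : x = z
      · exact Or.inl hx
      · exact Or.inr ⟨h1, fun h => h2 ⟨hx, h⟩⟩
    · rintro (rfl | ⟨h1, h2⟩)
      · exact ⟨hS.1 hz, fun h => h.1 rfl⟩
      · exact ⟨h1, fun h => h2 h.2⟩
  rw [e]
  have h1 := P_insert_ge_unused (G := G) κ (Y \ S) z (fun h => (Finset.mem_sdiff.1 h).2 hz)
  refine le_trans ?_ h1
  have hc : (Y \ S).card ≤ κ := by rw [← hY]; exact Finset.card_le_card Finset.sdiff_subset
  rw [← J_mul κ (Y \ S) hc]
  refine mul_le_mul_of_nonneg_right (hm.trans ?_) (P_nonneg _ _)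
  exact J_anti κ _ _ Finset.sdiff_subset hY.le

omit [Fintype V] in
/-- extension hypothesis from degrees -/
lemma ext_of_deg (κ : ℕ) (Y : Finset V) (m : ℝ) (hm : ∀ z ∈ Y, m - 1 ≤ (κ:ℝ) - ((Y.filter (fun y => G.Adj z y)).card : ℝ)) :
    ∀ S ∈ I G Y, ∀ z ∈ S, (m-1) * P G κ (Y \ S) ≤ P G κ (Y \ (S.erase z)) := by
  intro S hS z hz
  rw [mem_I] at hS
  have e : Y \ S.erase z = insert z (Y \ S) := by
    ext x; simp only [Finset.mem_sdiff, Finset.mem_erase, Finset.mem_insert]
    constructor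
    · rintro ⟨h1, h2⟩
      by_cases hx : x = z
      · exact Or.inl hx
      · exact Or.inr ⟨h1, fun h => h2 ⟨hx, h⟩⟩
    · rintro (rfl | ⟨h1, h2⟩)
      · exact ⟨hS.1 hz, fun h => h.1 rfl⟩
      · exact ⟨h1, fun h => h2 h.2⟩
  rw [e]
  refine le_trans ?_ (P_ext (G := G) κ (Y \ S) z (fun h => (Finset.mem_sdiff.1 h).2 hz))
  refine mul_le_mul_of_nonneg_right ?_ (P_nonneg _ _)
  have h1 := hm z (hS.1 hz)
  have h2 : (((Y \ S).filter (fun y => G.Adj z y)).card : ℝ) ≤ ((Y.filter (fun y => G.Adj z y)).card : ℝ) := by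
    exact_mod_cast Finset.card_le_card (Finset.filter_subset_filter _ Finset.sdiff_subset)
  linarith

omit [Fintype V] in
/-- colourings of `W` against colourings with one colour less -/
lemma P_le_pow (k : ℕ) (W : Finset V) (d t : ℝ) (hd : ∀ z ∈ W, ((W.filter (fun y => G.Adj z y)).card : ℝ) ≤ d)
    (hk : d < k) (ht : t = 1 / ((k:ℝ) - d)) :
    P G (k+1) W ≤ (1+t)^W.card * P G k W := by
  have hkd : 0 < (k:ℝ) - d := by linarith
  have ht0 : 0 < t := by rw [ht]; positivity
  have key : ∀ S : Finset V, S ⊆ W → P G k (W \ S) ≤ t^S.card * P G k W := by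
    intro S
    induction S using Finset.induction_on with
    | empty => intro _; simp
    | insert z S hz ih =>
      intro hS
      have hzW : z ∈ W := hS (Finset.mem_insert_self _ _)
      have hSW : S ⊆ W := (Finset.subset_insert _ _).trans hS
      have h1 := ih hSW
      have e : insert z (W \ insert z S) = W \ S := by
        ext x; simp only [Finset.mem_insert, Finset.mem_sdiff]
        constructor
        · rintro (rfl | ⟨h1, h2⟩)
          · exact ⟨hzW, hz⟩
          · exact ⟨h1, fun h => h2 (Or.inr h)⟩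
        · rintro ⟨h1, h2⟩
          by_cases hx : x = z
          · exact Or.inl hx
          · exact Or.inr ⟨h1, by rintro (h | h); exacts [hx h, h2 h]⟩
      have h2 := P_ext (G := G) k (W \ insert z S) z (fun h => (Finset.mem_sdiff.1 h).2 (Finset.mem_insert_self _ _))
      rw [e] at h2
      have h3 : (((W \ insert z S).filter (fun y => G.Adj z y)).card : ℝ) ≤ d :=
        le_trans (by exact_mod_cast Finset.card_le_card (Finset.filter_subset_filter _ Finset.sdiff_subset)) (hd z hzW)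
      have h4 : ((k:ℝ) - d) * P G k (W \ insert z S) ≤ P G k (W \ S) := by
        refine le_trans (mul_le_mul_of_nonneg_right ?_ (P_nonneg _ _)) h2
        linarith
      rw [Finset.card_insert_of_notMem hz, pow_succ]
      have h5 : P G k (W \ insert z S) ≤ t * P G k (W \ S) := by
        rw [ht, one_div, ← div_eq_inv_mul, le_div_iff₀ hkd]; linarith
      calc P G k (W \ insert z S) ≤ t * P G k (W \ S) := h5
        _ ≤ t * (t^S.card * P G k W) := mul_le_mul_of_nonneg_left h1 ht0.le
        _ = t ^ S.card * t * P G k W := by ring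
  rw [P_succ]
  calc ∑ S ∈ I G W, P G k (W \ S) ≤ ∑ S ∈ I G W, t^S.card * P G k W :=
        Finset.sum_le_sum (fun S hS => key S (mem_I.1 hS).1)
    _ ≤ ∑ S ∈ W.powerset, t^S.card * P G k W := by
        refine Finset.sum_le_sum_of_subset_of_nonneg (Finset.filter_subset _ _) (fun _ _ _ => ?_)
        exact mul_nonneg (by positivity) (P_nonneg _ _)
    _ = (1+t)^W.card * P G k W := by
        rw [← Finset.sum_mul]
        congr 1
        have := Finset.sum_pow_mul_eq_add_pow t 1 W
        simp only [one_pow, mul_one] at this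
        rw [this]; ring

omit [Fintype V] in
/-- lower bound for the mean number of unused colours -/
lemma J_ge (k : ℕ) (hk1 : 1 ≤ k) (W : Finset V) (d x : ℝ)
    (hd : ∀ z ∈ W, ((W.filter (fun y => G.Adj z y)).card : ℝ) ≤ d)
    (hc : W.card ≤ k) (hk : d < (k:ℝ) - 1) (hx : (W.card : ℝ) ≤ x * ((k:ℝ) - 1 - d)) :
    (k:ℝ) * Real.exp (-x) ≤ J G k W := by
  obtain ⟨l, rfl⟩ : ∃ l, k = l + 1 := ⟨k-1, by omega⟩
  have hl : d < (l:ℝ) := by push_cast at hk; linarith
  have h1 := P_le_pow (G := G) l W d (1/((l:ℝ)-d)) hd hl rfl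
  have hpos : 0 < P G (l+1) W := P_pos _ _ hc
  have hld : 0 < (l:ℝ) - d := by linarith
  have h2 : (1 + 1/((l:ℝ)-d))^W.card ≤ Real.exp x := by
    have h3 : 1 + 1/((l:ℝ)-d) ≤ Real.exp (1/((l:ℝ)-d)) := by
      have := Real.add_one_le_exp (1/((l:ℝ)-d)); linarith
    calc (1 + 1/((l:ℝ)-d))^W.card ≤ (Real.exp (1/((l:ℝ)-d)))^W.card :=
          pow_le_pow_left₀ (by positivity) h3 _
      _ = Real.exp (W.card * (1/((l:ℝ)-d))) := by rw [← Real.exp_nat_mul]
      _ ≤ Real.exp x := by
          apply Real.exp_le_exp.2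
          rw [mul_one_div, div_le_iff₀ hld]
          push_cast at hx
          linarith
  have hP0 : 0 ≤ P G l W := P_nonneg _ _
  have h4 : P G (l+1) W ≤ Real.exp x * P G l W := h1.trans (mul_le_mul_of_nonneg_right h2 hP0)
  unfold J
  rw [le_div_iff₀ hpos]
  simp only [Nat.add_sub_cancel]
  have h5 : Real.exp (-x) * P G (l+1) W ≤ P G l W := by
    calc Real.exp (-x) * P G (l+1) W ≤ Real.exp (-x) * (Real.exp x * P G l W) :=
          mul_le_mul_of_nonneg_left h4 (Real.exp_pos _).le
      _ = P G l W := by rw [← mul_assoc, ← Real.exp_add]; simp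
  have h6 : (0:ℝ) ≤ ((l+1:ℕ):ℝ) := by positivity
  calc ((l+1:ℕ):ℝ) * Real.exp (-x) * P G (l+1) W = ((l+1:ℕ):ℝ) * (Real.exp (-x) * P G (l+1) W) := by ring
    _ ≤ ((l+1:ℕ):ℝ) * P G l W := mul_le_mul_of_nonneg_left h5 h6

omit [Fintype V] in
lemma J_mono_colour (k : ℕ) (Y : Finset V) (hne : Y.Nonempty) (hc : Y.card ≤ k) : J G k Y ≤ J G (k+1) Y := by
  obtain ⟨y, hy⟩ := hne
  exact (J_anti k (Y.erase y) Y (Finset.erase_subset _ _) hc).trans (J_up k Y y hy (by omega))

end

end Helper53.BW
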