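import Mathlib
import Pool.Agent.Helper53.ChromFinal

set_option autoImplicit false

/-!
Corollaries: graphs of small maximum degree, sparse graphs, vertices of small degree against a
large locally sparse set.
-/

namespace Helper53.BW

open Finset Classical

noncomputable section

variable {V : Type*} [Fintype V] {G : SimpleGraph V}

lemma exp_87 : Real.exp (8/7) ≤ 3.14 := by
  have h1 := Real.exp_one_lt_d9
  have h2 : (Real.exp (8/7))^7 ≤ (3.14:ℝ)^7 := by
    rw [← Real.exp_nat_mul]
    have e : ((7:ℕ):ℝ) * (8/7) = ((8:ℕ):ℝ) * 1 := by norm_num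
    rw [e, Real.exp_nat_mul]
    calc (Real.exp 1)^8 ≤ (2.7182818286:ℝ)^8 := pow_le_pow_left₀ (Real.exp_pos _).le h1.le 8
      _ ≤ (3.14:ℝ)^7 := by norm_num
  exact le_of_pow_le_pow_left₀ (by norm_num) (by norm_num) h2

lemma exp_2120 : Real.exp (21/20) ≤ 2.86 := by
  have h1 := Real.exp_one_lt_d9
  have h2 : (Real.exp (21/20))^20 ≤ (2.86:ℝ)^20 := by
    rw [← Real.exp_nat_mul]
    have e : ((20:ℕ):ℝ) * (21/20) = ((21:ℕ):ℝ) * 1 := by norm_num
    rw [e, Real.exp_nat_mul]
    calc (Real.exp 1)^21 ≤ (2.7182818286:ℝ)^21 := pow_le_pow_left₀ (Real.exp_pos _).le h1.le 21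
      _ ≤ (2.86:ℝ)^20 := by norm_num
  exact le_of_pow_le_pow_left₀ (by norm_num) (by norm_num) h2

lemma exp_98 : Real.exp (9/8) ≤ 3.0805 := by
  have h1 := Real.exp_one_lt_d9
  have h2 : (Real.exp (9/8))^8 ≤ (3.0805:ℝ)^8 := by
    rw [← Real.exp_nat_mul]
    have e : ((8:ℕ):ℝ) * (9/8) = ((9:ℕ):ℝ) * 1 := by norm_num
    rw [e, Real.exp_nat_mul]
    calc (Real.exp 1)^9 ≤ (2.7182818286:ℝ)^9 := pow_le_pow_left₀ (Real.exp_pos _).le h1.le 9
      _ ≤ (3.0805:ℝ)^8 := by norm_num
  exact le_of_pow_le_pow_left₀ (by norm_num) (by norm_num) h2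

lemma exp_neg_ge {x c : ℝ} (h : Real.exp x ≤ c) : 1 / c ≤ Real.exp (-x) := by
  rw [Real.exp_neg, ← one_div]
  exact one_div_le_one_div_of_le (Real.exp_pos _) h

lemma nb_filter_le (W : Finset V) (z : V) :
    ((W.filter (fun y => G.Adj z y)).card : ℝ) ≤ ((nb G z).card : ℝ) := by
  exact_mod_cast Finset.card_le_card (fun y hy => by
    rw [mem_nb]; exact (Finset.mem_filter.1 hy).2)

/-- small maximum degree -/
lemma good_maxdeg (hdeg : ∀ w : V, 9 * (nb G w).card ≤ Fintype.card V) (u v : V) (huv : G.Adj u v) :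
    Good G s(u,v) := by
  set n : ℝ := (Fintype.card V : ℝ) with hn
  have hd : ∀ w, ((nb G w).card : ℝ) ≤ n/9 := by
    intro w
    have h : (9:ℝ) * ((nb G w).card : ℝ) ≤ n := by rw [hn]; exact_mod_cast hdeg w
    linarith
  have ha1 : (1:ℝ) ≤ ((nb G u).card : ℝ) := by
    exact_mod_cast Finset.card_pos.2 ⟨v, mem_nb.2 huv⟩
  set a : ℝ := ((nb G u).card : ℝ) with ha
  have han : a ≤ n/9 := hd u
  have hn9 : 9 ≤ n := by linarith
  have hcard1 : 1 ≤ Fintype.card V := Fintype.card_pos_iff.2 ⟨u⟩
  have hcY : (Finset.univ.erase u : Finset V).card = Fintype.card V - 1 := by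
    rw [Finset.card_erase_of_mem (Finset.mem_univ u), Finset.card_univ]
  have hκ : ((Fintype.card V - 1 : ℕ) : ℝ) = n - 1 := by
    rw [Nat.cast_sub hcard1, hn]; simp
  have hj : n / 3.14 ≤ J G (Fintype.card V) (Finset.univ.erase u) := by
    have h1 := J_ge (G := G) (Fintype.card V) hcard1 (Finset.univ.erase u) (n/9) (8/7)
      (fun z _ => (nb_filter_le _ z).trans (hd z)) (by rw [hcY]; omega)
      (by rw [← hn]; linarith) (by rw [hcY, hκ, ← hn]; linarith)
    have h2 := exp_neg_ge exp_87
    rw [← hn] at h1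
    have h3 : n * (1/3.14) ≤ n * Real.exp (-(8/7)) := mul_le_mul_of_nonneg_left h2 (by linarith)
    have h4 : n / 3.14 = n * (1/3.14) := by ring
    rw [h4]; exact h3.trans h1
  have hn0 : n ≠ 0 := by linarith
  have hτ : (153 / (64 * n) : ℝ) = (1/(8*n/9)) * (1 + n/(8*n/9)) := by
    field_simp; ring
  have hab : 0 ≤ a * (a-1) := mul_nonneg (by linarith) (by linarith)
  have hab2 : a * (a-1) / 2 * (153 / (64 * n)) ≤ 0.0148 * n := by
    have h1 : a * (a-1) ≤ (n/9) * (n/9) := mul_le_mul han (by linarith) (by linarith) (by linarith)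
    have h2 : (0:ℝ) ≤ 153 / (64 * n) := by positivity
    calc a * (a-1) / 2 * (153 / (64 * n)) ≤ ((n/9) * (n/9)) / 2 * (153 / (64 * n)) := by
          apply mul_le_mul_of_nonneg_right _ h2; linarith
      _ = 153 / (81 * 128) * n := by field_simp; ring
      _ ≤ 0.0148 * n := by
          apply mul_le_mul_of_nonneg_right _ (by linarith); norm_num
  refine good_core u v huv (8*n/9) (by linarith) ?_ a ha (n/3.14) hj n hn (153/(64*n)) hτ (by linarith) ?_ ?_
  · apply ext_of_deg
    intro z hz
    rw [hκ]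
    have := (nb_filter_le (G := G) (Finset.univ.erase u) z).trans (hd z)
    linarith
  · refine hab2.trans ?_
    have : n / 3.14 = (1/3.14) * n := by ring
    rw [this]
    apply mul_le_mul_of_nonneg_right _ (by linarith); norm_num
  · have h1 : n * (a-1) * (153 / (64 * n)) = 153/64 * (a-1) := by field_simp
    rw [h1]
    have h2 : (7/8 : ℝ) ≤ 1 - (a-1)/(8*n/9) := by
      have : (a-1)/(8*n/9) ≤ 1/8 := by
        rw [div_le_iff₀ (by linarith)]; linarith
      linarith
    have h3 : 0.3036 * n ≤ n/3.14 - a * (a-1) / 2 * (153 / (64 * n)) := by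
      have : n / 3.14 = (1/3.14) * n := by ring
      rw [this]
      have h4 : (0.3184:ℝ) * n ≤ (1/3.14) * n := by
        apply mul_le_mul_of_nonneg_right _ (by linarith); norm_num
      linarith
    have h5 : (7/8:ℝ) * (0.3036 * n) ≤ (1 - (a-1)/(8*n/9)) * (n/3.14 - a * (a-1) / 2 * (153 / (64 * n))) :=
      mul_le_mul h2 h3 (by positivity) (by linarith)
    refine le_trans ?_ h5
    nlinarith

omit [Fintype V] in
/-- lower bound for the mean number of unused colours from a locally sparse subset -/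
lemma J_lower (Y Z : Finset V) (hZ : Z ⊆ Y) (d x : ℝ)
    (hd : ∀ z ∈ Z, ((Z.filter (fun y => G.Adj z y)).card : ℝ) ≤ d)
    (hk : d < (Z.card:ℝ) - 1) (hx : (Z.card : ℝ) ≤ x * ((Z.card:ℝ) - 1 - d)) (hZ1 : 1 ≤ Z.card) :
    (Z.card : ℝ) * Real.exp (-x) ≤ J G Y.card Y := by
  have h1 := J_ge (G := G) Z.card hZ1 Z d x hd le_rfl hk hx
  refine h1.trans ?_
  have h2 := J_chain (G := G) Y.card Y Z hZ le_rfl
  have h3 : Y.card - (Y \ Z).card = Z.card := by
    have := Finset.card_sdiff_add_card_eq_card hZ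
    omega
  rw [h3] at h2
  exact h2

/-- a vertex of small degree against a large locally sparse set -/
lemma good_local (Z : Finset V) (hZ : ∀ z ∈ Z, 10 * (Z.filter (fun y => G.Adj z y)).card ≤ Z.card)
    (u v : V) (huv : G.Adj u v) (h : 50 * (nb G u).card * (Fintype.card V)^2 ≤ Z.card^3) :
    Good G s(u,v) := by
  set n : ℝ := (Fintype.card V : ℝ) with hn
  have ha1 : 1 ≤ (nb G u).card := Finset.card_pos.2 ⟨v, mem_nb.2 huv⟩
  set a : ℝ := ((nb G u).card : ℝ) with ha
  have hcard1 : 1 ≤ Fintype.card V := Fintype.card_pos_iff.2 ⟨u⟩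
  have hcY : (Finset.univ.erase u : Finset V).card = Fintype.card V - 1 := by
    rw [Finset.card_erase_of_mem (Finset.mem_univ u), Finset.card_univ]
  have hκ : ((Fintype.card V - 1 : ℕ) : ℝ) = n - 1 := by
    rw [Nat.cast_sub hcard1, hn]; simp
  have hn1 : 1 ≤ n := by rw [hn]; exact_mod_cast hcard1
  rcases Nat.lt_or_ge 1 (nb G u).card with ha2 | ha2
  swap
  · -- degree one
    have hae : a = 1 := by rw [ha]; exact_mod_cast le_antisymm ha2 ha1
    refine good_core u v huv 1 le_rfl ?_ a ha 0 (J_nonneg _ _) n hn (1 + n) (by ring) (by rw [hae]; norm_num) (by rw [hae]; norm_num) (by rw [hae]; norm_num)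
    intro S _ z _
    rw [sub_self, zero_mul]
    exact P_nonneg _ _
  · have ha2' : (2:ℝ) ≤ a := by rw [ha]; exact_mod_cast ha2
    set z : ℝ := (Z.card : ℝ) with hz
    have hzn : z ≤ n := by
      rw [hz, hn]; exact_mod_cast Finset.card_le_univ Z
    have hz0 : 0 ≤ z := by rw [hz]; positivity
    have hr : 50 * a * n^2 ≤ z^3 := by rw [ha, hn, hz]; exact_mod_cast h
    -- z ≥ 100
    have hz100 : 100 ≤ z := by
      have h1 : 100 * n^2 ≤ z^3 := by nlinarith [sq_nonneg n]
      have h2 : 100 * z^2 ≤ z^3 := by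
        have : z^2 ≤ n^2 := pow_le_pow_left₀ hz0 hzn 2
        linarith
      by_contra hcon
      push Not at hcon
      have hzpos : 0 < z := by
        by_contra h0
        have h0' : z = 0 := le_antisymm (not_lt.1 h0) hz0
        rw [h0'] at h1
        have : 0 < n^2 := by positivity
        norm_num at h1
        linarith
      have : z^3 = z * z^2 := by ring
      have h3 : 0 < z^2 := by positivity
      nlinarith
    set Z' := Z.erase u with hZ'
    have hZ'Y : Z' ⊆ (Finset.univ.erase u : Finset V) := Finset.erase_subset_erase u (Finset.subset_univ _)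
    have hZ'c1 : z - 1 ≤ (Z'.card : ℝ) := by
      have h1 : Z.card - 1 ≤ Z'.card := Finset.pred_card_le_card_erase
      have h2 : Z.card ≤ Z'.card + 1 := by omega
      have h3 : z ≤ (Z'.card : ℝ) + 1 := by rw [hz]; exact_mod_cast h2
      linarith
    have hZ'c2 : (Z'.card : ℝ) ≤ z := by
      rw [hz]; exact_mod_cast Finset.card_le_card (Finset.erase_subset _ _)
    have hZ'1 : 1 ≤ Z'.card := by
      have : (1:ℝ) ≤ (Z'.card : ℝ) := by linarith
      exact_mod_cast this
    have hd : ∀ w ∈ Z', ((Z'.filter (fun y => G.Adj w y)).card : ℝ) ≤ z/10 := by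
      intro w hw
      have h1 := hZ w (Finset.mem_of_mem_erase hw)
      have h2 : (Z'.filter (fun y => G.Adj w y)).card ≤ (Z.filter (fun y => G.Adj w y)).card :=
        Finset.card_le_card (Finset.filter_subset_filter _ (Finset.erase_subset _ _))
      have h3 : (10:ℝ) * ((Z'.filter (fun y => G.Adj w y)).card : ℝ) ≤ z := by
        rw [hz]; exact_mod_cast (Nat.mul_le_mul_left 10 h2).trans h1
      linarith
    have hJ := J_lower (G := G) (Finset.univ.erase u) Z' hZ'Y (z/10) (9/8) hd (by linarith) (by linarith) hZ'1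
    have hJ2 : 0.32 * z ≤ J G (Fintype.card V - 1) (Finset.univ.erase u) := by
      rw [← hcY]
      refine le_trans ?_ hJ
      have h2 := exp_neg_ge exp_98
      have h3 : (1:ℝ) / 3.0805 * (z - 1) ≤ Real.exp (-(9/8)) * (Z'.card : ℝ) :=
        mul_le_mul h2 hZ'c1 (by linarith) (Real.exp_pos _).le
      have h4 : (0.3246:ℝ) * (z-1) ≤ 1 / 3.0805 * (z-1) := by
        apply mul_le_mul_of_nonneg_right _ (by linarith); norm_num
      linarith
    have hne : (Finset.univ.erase u : Finset V).Nonempty := ⟨v, Finset.mem_erase.2 ⟨fun e => G.irrefl (e ▸ huv), Finset.mem_univ v⟩⟩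
    have hJ3 : 0.32 * z ≤ J G (Fintype.card V) (Finset.univ.erase u) := by
      have := J_mono_colour (G := G) (Fintype.card V - 1) (Finset.univ.erase u) hne hcY.le
      rw [Nat.sub_add_cancel hcard1] at this
      exact hJ2.trans this
    have hz0' : 0 < z := by linarith
    have hn0 : 0 < n := by linarith
    -- a ≤ z / 50
    have haz : a ≤ z/50 := by
      have h1 : 50 * a * n^2 ≤ z * n^2 := by
        have : z^3 ≤ z * n^2 := by
          have h2 : z^2 ≤ n^2 := pow_le_pow_left₀ hz0 hzn 2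
          nlinarith
        linarith
      have h2 : 0 < n^2 := by positivity
      have h3 : 50 * a ≤ z := le_of_mul_le_mul_right h1 h2
      linarith
    set τ : ℝ := (1/(0.32*z)) * (1 + n/(0.32*z)) with hτ
    have hτ0 : 0 ≤ τ := by positivity
    -- τ n a ≤ .2579 z
    have hτ1 : τ ≤ 12.9 * n / z^2 := by
      have h1 : 1 ≤ n / z := by rw [le_div_iff₀ hz0']; linarith
      have h2 : τ = (3.125 / z) * (1 + 3.125 * (n/z)) := by
        rw [hτ]; field_simp; norm_num; ring
      rw [h2]
      have h3 : 12.9 * n / z^2 = (3.125 / z) * (4.128 * (n/z)) := by field_simp; norm_num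
      rw [h3]
      apply mul_le_mul_of_nonneg_left _ (by positivity)
      linarith
    have hτa : n * a * τ ≤ 0.258 * z := by
      calc n * a * τ ≤ n * a * (12.9 * n / z^2) := mul_le_mul_of_nonneg_left hτ1 (by positivity)
        _ = 0.258 * (50 * a * n^2) / z^2 := by ring
        _ ≤ 0.258 * (z^3) / z^2 := by
            apply div_le_div_of_nonneg_right _ (by positivity)
            exact mul_le_mul_of_nonneg_left hr (by norm_num)
        _ = 0.258 * z := by field_simp
    have haτ : a * τ ≤ 0.258 := by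
      have h1 : n * (a * τ) ≤ n * 0.258 := by
        calc n * (a * τ) = n * a * τ := by ring
          _ ≤ 0.258 * z := hτa
          _ ≤ n * 0.258 := by linarith
      exact le_of_mul_le_mul_left h1 hn0
    have haat : a * (a-1) / 2 * τ ≤ 0.0026 * z := by
      have e : a * (a-1) / 2 * τ = (a-1)/2 * (a * τ) := by ring
      rw [e]
      have h1 : (a-1)/2 * (a*τ) ≤ (z/100) * 0.258 := by
        apply mul_le_mul (by linarith) haτ (by positivity) (by positivity)
      linarith
    refine good_core u v huv (0.32*z) (by linarith) ?_ a ha (0.32*z) hJ3 n hn τ hτ (by linarith) (by linarith) ?_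
    · apply ext_of_J _ _ hcY
      linarith
    · have h1 : (0.93:ℝ) ≤ 1 - (a-1)/(0.32*z) := by
        have : (a-1)/(0.32*z) ≤ 0.07 := by
          rw [div_le_iff₀ (by positivity)]; linarith
        linarith
      have h2 : 0.93 * (0.3174 * z) ≤ (1 - (a-1)/(0.32*z)) * (0.32*z - a * (a-1) / 2 * τ) :=
        mul_le_mul h1 (by linarith) (by positivity) (by linarith)
      refine le_trans ?_ h2
      have h3 : n * (a-1) * τ ≤ n * a * τ := by
        apply mul_le_mul_of_nonneg_right _ hτ0
        apply mul_le_mul_of_nonneg_left _ hn0.le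
        linarith
      linarith

/-- sparse graphs: every edge at a vertex of minimum positive degree -/
lemma good_sparse (E : ℕ) (hE : ∑ w : V, (nb G w).card = 2 * E) (hs : 3200 * E ≤ (Fintype.card V)^2)
    (u v : V) (huv : G.Adj u v) (hmin : ∀ w, 0 < (nb G w).card → (nb G u).card ≤ (nb G w).card) :
    Good G s(u,v) := by
  set n : ℝ := (Fintype.card V : ℝ) with hn
  have ha1 : 1 ≤ (nb G u).card := Finset.card_pos.2 ⟨v, mem_nb.2 huv⟩
  set a : ℝ := ((nb G u).card : ℝ) with ha
  have ha1' : (1:ℝ) ≤ a := by rw [ha]; exact_mod_cast ha1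
  have hcard1 : 1 ≤ Fintype.card V := Fintype.card_pos_iff.2 ⟨u⟩
  have hcY : (Finset.univ.erase u : Finset V).card = Fintype.card V - 1 := by
    rw [Finset.card_erase_of_mem (Finset.mem_univ u), Finset.card_univ]
  have hκ : ((Fintype.card V - 1 : ℕ) : ℝ) = n - 1 := by
    rw [Nat.cast_sub hcard1, hn]; simp
  have hEr : ∑ w : V, ((nb G w).card : ℝ) = 2 * (E:ℝ) := by exact_mod_cast hE
  have hsr : 3200 * (E:ℝ) ≤ n^2 := by rw [hn]; exact_mod_cast hs
  -- a² ≤ 2E
  have ha2 : a^2 ≤ 2 * E := by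
    rw [← hEr]
    calc a^2 = ∑ w ∈ nb G u, a := by rw [Finset.sum_const, nsmul_eq_mul, ← ha]; ring
      _ ≤ ∑ w ∈ nb G u, ((nb G w).card : ℝ) := by
          apply Finset.sum_le_sum
          intro w hw
          rw [ha]
          exact_mod_cast hmin w (Finset.card_pos.2 ⟨u, mem_nb.2 (mem_nb.1 hw).symm⟩)
      _ ≤ ∑ w : V, ((nb G w).card : ℝ) :=
          Finset.sum_le_sum_of_subset_of_nonneg (Finset.subset_univ _) (fun _ _ _ => by positivity)
  have hn0 : 0 ≤ n := by rw [hn]; positivity
  have han : a ≤ n / 40 := by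
    have h1 : a^2 ≤ (n/40)^2 := by nlinarith
    exact le_of_sq_le_sq h1 (by positivity)
  have hE1 : (1:ℝ) ≤ E := by
    have : (1:ℝ) ≤ 2 * (E:ℝ) := by nlinarith
    have h2 : 1 ≤ 2 * E := by exact_mod_cast this
    have h3 : 1 ≤ E := by omega
    exact_mod_cast h3
  have hn56 : 56 ≤ n := by
    by_contra hcon
    push Not at hcon
    nlinarith
  -- the low degree vertices
  set Z := (Finset.univ.erase u : Finset V).filter (fun w => ((nb G w).card : ℝ) ≤ n/40) with hZ
  have hZY : Z ⊆ (Finset.univ.erase u : Finset V) := Finset.filter_subset _ _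
  have hZc : 0.975 * n - 1 ≤ (Z.card : ℝ) := by
    set B := (Finset.univ.erase u : Finset V).filter (fun w => ¬ ((nb G w).card : ℝ) ≤ n/40) with hB
    have h1 : (Z.card : ℝ) + (B.card : ℝ) = n - 1 := by
      rw [← hκ, ← hcY]
      exact_mod_cast Finset.card_filter_add_card_filter_not (s := (Finset.univ.erase u : Finset V)) (fun w => ((nb G w).card : ℝ) ≤ n/40)
    have h2 : (B.card : ℝ) * (n/40) ≤ 2 * E := by
      rw [← hEr]
      calc (B.card : ℝ) * (n/40) = ∑ w ∈ B, n/40 := by rw [Finset.sum_const, nsmul_eq_mul]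
        _ ≤ ∑ w ∈ B, ((nb G w).card : ℝ) := by
            apply Finset.sum_le_sum
            intro w hw
            exact (not_le.1 (Finset.mem_filter.1 hw).2).le
        _ ≤ ∑ w : V, ((nb G w).card : ℝ) :=
            Finset.sum_le_sum_of_subset_of_nonneg (Finset.subset_univ _) (fun _ _ _ => by positivity)
    have h3 : (B.card : ℝ) ≤ n/40 := by
      have h4 : (B.card : ℝ) * (n/40) ≤ (n/40) * (n/40) := by nlinarith
      exact le_of_mul_le_mul_right h4 (by positivity)
    linarith
  have hZc2 : (Z.card : ℝ) ≤ n := by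
    rw [hn]; exact_mod_cast Finset.card_le_univ Z
  have hZ1 : 1 ≤ Z.card := by
    have : (1:ℝ) ≤ (Z.card : ℝ) := by linarith
    exact_mod_cast this
  have hd : ∀ w ∈ Z, ((Z.filter (fun y => G.Adj w y)).card : ℝ) ≤ n/40 := by
    intro w hw
    exact (nb_filter_le _ w).trans (Finset.mem_filter.1 hw).2
  have hJ := J_lower (G := G) (Finset.univ.erase u) Z hZY (n/40) (21/20) hd (by linarith) (by linarith) hZ1
  have hJ2 : n/3 ≤ J G (Fintype.card V - 1) (Finset.univ.erase u) := by
    rw [← hcY]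
    refine le_trans ?_ hJ
    have h2 := exp_neg_ge exp_2120
    have h3 : (1:ℝ) / 2.86 * (0.975 * n - 1) ≤ Real.exp (-(21/20)) * (Z.card : ℝ) :=
      mul_le_mul h2 hZc (by linarith) (Real.exp_pos _).le
    have h4 : (0.3496:ℝ) * (0.975 * n -1) ≤ 1 / 2.86 * (0.975 * n -1) := by
      apply mul_le_mul_of_nonneg_right _ (by linarith); norm_num
    linarith
  have hne : (Finset.univ.erase u : Finset V).Nonempty := ⟨v, Finset.mem_erase.2 ⟨fun e => G.irrefl (e ▸ huv), Finset.mem_univ v⟩⟩
  have hJ3 : n/3 ≤ J G (Fintype.card V) (Finset.univ.erase u) := by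
    have := J_mono_colour (G := G) (Fintype.card V - 1) (Finset.univ.erase u) hne hcY.le
    rw [Nat.sub_add_cancel hcard1] at this
    exact hJ2.trans this
  have hnp : 0 < n := by linarith
  have hn0 : n ≠ 0 := hnp.ne'
  have hτ : (12 / n : ℝ) = (1/(n/3)) * (1 + n/(n/3)) := by
    field_simp; ring
  have hab2 : a * (a-1) / 2 * (12 / n) ≤ 0.00375 * n := by
    have h1 : a * (a-1) ≤ (n/40) * (n/40) := mul_le_mul han (by linarith) (by linarith) (by linarith)
    have h2 : (0:ℝ) ≤ 12 / n := by positivity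
    calc a * (a-1) / 2 * (12 / n) ≤ ((n/40) * (n/40)) / 2 * (12 / n) := by
          apply mul_le_mul_of_nonneg_right _ h2; linarith
      _ = 0.00375 * n := by field_simp; norm_num
  refine good_core u v huv (n/3) (by linarith) ?_ a ha (n/3) hJ3 n hn (12/n) hτ (by linarith) (by linarith) ?_
  · apply ext_of_J _ _ hcY
    linarith
  · have h1 : n * (a-1) * (12 / n) = 12 * (a-1) := by field_simp
    rw [h1]
    have h2 : (0.925 : ℝ) ≤ 1 - (a-1)/(n/3) := by
      have : (a-1)/(n/3) ≤ 0.075 := by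
        rw [div_le_iff₀ (by linarith)]; linarith
      linarith
    have h5 : (0.925:ℝ) * (0.3295 * n) ≤ (1 - (a-1)/(n/3)) * (n/3 - a * (a-1) / 2 * (12 / n)) :=
      mul_le_mul h2 (by linarith) (by positivity) (by linarith)
    refine le_trans ?_ h5
    linarith

end

end Helper53.BW
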