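import Mathlib

set_option autoImplicit false

/-!
Algebraic part: monomials, the total Steenrod square, hit polynomials, substitution maps.
-/

namespace Pool.Agent.Helper53.Hit

open MvPolynomial

/-- The monomial with exponent vector `u`. -/
noncomputable def M {d : ℕ} (u : Fin d → ℕ) : MvPolynomial (Fin d) (ZMod 2) :=
  monomial (Finsupp.equivFunOnFinite.symm u) (1 : ZMod 2)

/-- The total Steenrod square. -/
noncomputable def SqT (d : ℕ) :
    MvPolynomial (Fin d) (ZMod 2) →ₐ[ZMod 2] MvPolynomial (Fin d) (ZMod 2) :=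
  aeval (fun j : Fin d => (X j + X j ^ 2 : MvPolynomial (Fin d) (ZMod 2)))

/-- The generators of the space of hit polynomials. -/
def hitSet (d : ℕ) : Set (MvPolynomial (Fin d) (ZMod 2)) :=
  {g | ∃ (e : Fin d → ℕ) (i : ℕ), 0 < i ∧
    g = homogeneousComponent ((∑ j, e j) + i) (SqT d (M e))}

theorem M_eq_prod {d : ℕ} (u : Fin d → ℕ) :
    M u = ∏ j, (X j : MvPolynomial (Fin d) (ZMod 2)) ^ u j := by
  unfold M
  rw [MvPolynomial.monomial_eq, map_one, one_mul, Finsupp.prod_fintype _ _ (by simp)]
  rfl

theorem M_add {d : ℕ} (u v : Fin d → ℕ) : M (fun j => u j + v j) = M u * M v := by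
  rw [M_eq_prod, M_eq_prod, M_eq_prod, ← Finset.prod_mul_distrib]
  exact Finset.prod_congr rfl (fun j _ => pow_add _ _ _)

theorem aeval_M {d d' : ℕ} (f : Fin d → MvPolynomial (Fin d') (ZMod 2)) (u : Fin d → ℕ) :
    aeval f (M u) = ∏ j, f j ^ u j := by
  rw [M_eq_prod, map_prod]
  exact Finset.prod_congr rfl (fun j _ => by rw [map_pow, aeval_X])

theorem M_isHomogeneous {d : ℕ} (u : Fin d → ℕ) : (M u).IsHomogeneous (∑ j, u j) := by
  unfold M
  apply isHomogeneous_monomial
  rw [Finsupp.degree_eq_sum]
  rfl

/-- Homogeneous components commute with linear substitutions. -/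
theorem hc_aeval {d d' : ℕ} (f : Fin d → MvPolynomial (Fin d') (ZMod 2))
    (hf : ∀ j, (f j).IsHomogeneous 1) (n : ℕ) (q : MvPolynomial (Fin d) (ZMod 2)) :
    homogeneousComponent n (aeval f q) = aeval f (homogeneousComponent n q) := by
  induction q using MvPolynomial.induction_on' with
  | monomial u a =>
    have h1 : (monomial u a : MvPolynomial (Fin d) (ZMod 2)).IsHomogeneous u.degree :=
      isHomogeneous_monomial _ rfl
    have h2 : (aeval f (monomial u a)).IsHomogeneous u.degree := by
      have := h1.aeval f hf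
      rwa [one_mul] at this
    rw [homogeneousComponent_of_mem ((mem_homogeneousSubmodule _ _).2 h1),
      homogeneousComponent_of_mem ((mem_homogeneousSubmodule _ _).2 h2)]
    split_ifs <;> simp
  | add p q hp hq => rw [map_add, map_add, hp, hq, map_add, map_add]

/-- Every polynomial homogeneous of degree `m` is a combination of monomials of degree `m`, hence
its higher Steenrod squares are hit. -/
theorem hc_SqT_mem {d : ℕ} (m i : ℕ) (hi : 0 < i) (q : MvPolynomial (Fin d) (ZMod 2))
    (hq : q.IsHomogeneous m) :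
    homogeneousComponent (m + i) (SqT d q) ∈ Submodule.span (ZMod 2) (hitSet d) := by
  rw [q.as_sum, map_sum, map_sum]
  apply Submodule.sum_mem
  intro v hv
  have hdeg : v.degree = m := by
    have := hq (mem_support_iff.1 hv)
    rw [Finsupp.weight_apply] at this
    rw [← this, Finsupp.degree_eq_sum, Finsupp.sum_fintype]
    · simp
    · simp
  have h1 : (monomial v (coeff v q) : MvPolynomial (Fin d) (ZMod 2))
      = coeff v q • M (fun j => v j) := by
    unfold M
    rw [smul_monomial, smul_eq_mul, mul_one]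
    congr 1
    ext j
    simp
  rw [h1, map_smul, map_smul]
  apply Submodule.smul_mem
  apply Submodule.subset_span
  refine ⟨fun j => v j, i, hi, ?_⟩
  rw [← hdeg, Finsupp.degree_eq_sum]

/-- A sum of variables. -/
theorem sumX_isHomogeneous {d : ℕ} (I : Finset (Fin d)) :
    (∑ l ∈ I, X l : MvPolynomial (Fin d) (ZMod 2)).IsHomogeneous 1 :=
  IsHomogeneous.sum _ _ _ (fun l _ => isHomogeneous_X _ _)

/-- Substitution of sums of variables commutes with the total Steenrod square. -/
theorem SqT_aeval {d d' : ℕ} (S : Fin d → Finset (Fin d')) (q : MvPolynomial (Fin d) (ZMod 2)) :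
    SqT d' (aeval (fun j => (∑ l ∈ S j, X l : MvPolynomial (Fin d') (ZMod 2))) q)
      = aeval (fun j => (∑ l ∈ S j, X l : MvPolynomial (Fin d') (ZMod 2))) (SqT d q) := by
  have : (SqT d').comp (aeval (fun j => (∑ l ∈ S j, X l : MvPolynomial (Fin d') (ZMod 2))))
      = (aeval (fun j => (∑ l ∈ S j, X l : MvPolynomial (Fin d') (ZMod 2)))).comp (SqT d) := by
    apply MvPolynomial.algHom_ext
    intro j
    rw [AlgHom.comp_apply, AlgHom.comp_apply]
    unfold SqT
    rw [aeval_X, aeval_X, map_add, map_pow, aeval_X, map_sum]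
    simp only [aeval_X]
    rw [Finset.sum_add_distrib, CharTwo.sum_sq]
  exact DFunLike.congr_fun this q

/-- Substitution of sums of variables preserves hit polynomials. -/
theorem aeval_hit {d d' : ℕ} (S : Fin d → Finset (Fin d')) (q : MvPolynomial (Fin d) (ZMod 2))
    (hq : q ∈ Submodule.span (ZMod 2) (hitSet d)) :
    aeval (fun j => (∑ l ∈ S j, X l : MvPolynomial (Fin d') (ZMod 2))) q
      ∈ Submodule.span (ZMod 2) (hitSet d') := by
  induction hq using Submodule.span_induction with
  | mem g hg =>
    obtain ⟨e, i, hi, rfl⟩ := hg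
    rw [← hc_aeval _ (fun j => sumX_isHomogeneous (S j)), ← SqT_aeval]
    apply hc_SqT_mem _ _ hi
    have := (M_isHomogeneous e).aeval
      (fun j => (∑ l ∈ S j, X l : MvPolynomial (Fin d') (ZMod 2))) (fun j => sumX_isHomogeneous (S j))
    rwa [one_mul] at this
  | zero => rw [map_zero]; exact Submodule.zero_mem _
  | add x y _ _ hx hy => rw [map_add]; exact Submodule.add_mem _ hx hy
  | smul a x _ hx => rw [map_smul]; exact Submodule.smul_mem _ _ hx

end Pool.Agent.Helper53.Hit
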