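import Mathlib

set_option autoImplicit false

/-!
Combinatorics of binary digits used for the weight vectors.
-/

namespace Pool.Agent.Helper53.Hit

/-- Weight vector of an exponent vector. -/
def Wt {d : ℕ} (e : Fin d → ℕ) (i : ℕ) : ℕ := ∑ j, e j / 2 ^ i % 2

/-- Left lexicographic order on sequences. -/
def LL (a b : ℕ → ℕ) : Prop := ∃ i : ℕ, (∀ l < i, a l = b l) ∧ a i < b i

/-- Left lexicographic order on exponent vectors. -/
def LexLt {d : ℕ} (y u : Fin d → ℕ) : Prop := ∃ i : Fin d, (∀ j, j < i → y j = u j) ∧ y i < u i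

/-- The order on monomials of the same degree. -/
def Lower {d : ℕ} (y u : Fin d → ℕ) : Prop :=
  ∑ j, y j = ∑ j, u j ∧ (LL (Wt y) (Wt u) ∨ (Wt y = Wt u ∧ LexLt y u))

/-- The binary digits of `c` are distributed over the entries of `g`. -/
def Split {n : ℕ} (c : ℕ) (g : Fin n → ℕ) : Prop := ∀ i : ℕ, ∑ l, g l / 2 ^ i % 2 = c / 2 ^ i % 2

theorem LL.trans {a b c : ℕ → ℕ} (h1 : LL a b) (h2 : LL b c) : LL a c := by
  obtain ⟨i, hi, hi'⟩ := h1
  obtain ⟨j, hj, hj'⟩ := h2
  rcases lt_trichotomy i j with h | h | h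
  · exact ⟨i, fun l hl => by rw [hi l hl, hj l (hl.trans h)], by rw [← hj i h]; exact hi'⟩
  · subst h
    exact ⟨i, fun l hl => by rw [hi l hl, hj l hl], hi'.trans hj'⟩
  · exact ⟨j, fun l hl => by rw [hi l (hl.trans h), hj l hl], by rw [hi j h]; exact hj'⟩

theorem LexLt.trans {d : ℕ} {a b c : Fin d → ℕ} (h1 : LexLt a b) (h2 : LexLt b c) :
    LexLt a c := by
  obtain ⟨i, hi, hi'⟩ := h1
  obtain ⟨j, hj, hj'⟩ := h2
  rcases lt_trichotomy i j with h | h | h
  · exact ⟨i, fun l hl => by rw [hi l hl, hj l (hl.trans h)], by rw [← hj i h]; exact hi'⟩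
  · subst h
    exact ⟨i, fun l hl => by rw [hi l hl, hj l hl], hi'.trans hj'⟩
  · exact ⟨j, fun l hl => by rw [hi l (hl.trans h), hj l hl], by rw [hi j h]; exact hj'⟩

theorem digit_succ (a i : ℕ) : a / 2 ^ (i + 1) % 2 = a / 2 / 2 ^ i % 2 := by
  rw [Nat.div_div_eq_div_mul, pow_succ, mul_comm]

theorem digit_zero (a : ℕ) : a / 2 ^ 0 % 2 = a % 2 := by simp

theorem eq_zero_of_digits {a : ℕ} (h : ∀ i, a / 2 ^ i % 2 = 0) : a = 0 := by
  induction a using Nat.strong_induction_on with
  | _ a ih =>
    by_contra ha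
    have h0 := h 0
    rw [digit_zero] at h0
    have h2 : a / 2 = 0 := ih (a / 2) (by omega) (fun i => by rw [← digit_succ]; exact h (i + 1))
    omega

theorem exists_digit {a : ℕ} (ha : 0 < a) : ∃ i, a / 2 ^ i % 2 = 1 := by
  by_contra h
  push Not at h
  have : a = 0 := eq_zero_of_digits (fun i => by have := h i; omega)
  omega

theorem pow_le_of_digit {a i : ℕ} (h : a / 2 ^ i % 2 = 1) : 2 ^ i ≤ a := by
  by_contra hlt
  push Not at hlt
  rw [Nat.div_eq_of_lt hlt] at h
  omega

theorem Split.half {n : ℕ} {c : ℕ} {g : Fin n → ℕ} (h : Split c g) :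
    Split (c / 2) (fun l => g l / 2) := by
  intro i
  have := h (i + 1)
  rw [digit_succ] at this
  rw [← this]
  exact Finset.sum_congr rfl (fun l _ => (digit_succ _ _).symm)

theorem Split.sum_eq {n : ℕ} {c : ℕ} {g : Fin n → ℕ} (h : Split c g) : ∑ l, g l = c := by
  induction c using Nat.strong_induction_on generalizing g with
  | _ c ih =>
    rcases Nat.eq_zero_or_pos c with rfl | hc
    · apply Finset.sum_eq_zero
      intro l _
      apply eq_zero_of_digits
      intro i
      have := h i
      rw [Nat.zero_div, Nat.zero_mod, Finset.sum_eq_zero_iff] at this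
      exact this l (Finset.mem_univ _)
    · have h1 := ih (c / 2) (by omega) h.half
      have h2 := h 0
      simp only [digit_zero] at h2
      have h3 : ∑ l, g l = 2 * ∑ l, g l / 2 + ∑ l, g l % 2 := by
        rw [Finset.mul_sum, ← Finset.sum_add_distrib]
        exact Finset.sum_congr rfl (fun l _ => by omega)
      rw [h3, h1, h2]
      omega

theorem Split.le {n : ℕ} {c : ℕ} {g : Fin n → ℕ} (h : Split c g) (l : Fin n) : g l ≤ c := by
  rw [← h.sum_eq]
  exact Finset.single_le_sum (f := g) (fun _ _ => Nat.zero_le _) (Finset.mem_univ l)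

/-! ### Carries -/

/-- No common binary digit. -/
def NC (a b : ℕ) : Prop := ∀ i : ℕ, a / 2 ^ i % 2 + b / 2 ^ i % 2 ≤ 1

theorem add_div_of_disjoint {a b : ℕ} (i : ℕ)
    (h : ∀ j < i, a / 2 ^ j % 2 + b / 2 ^ j % 2 ≤ 1) :
    (a + b) / 2 ^ i = a / 2 ^ i + b / 2 ^ i := by
  induction i generalizing a b with
  | zero => simp
  | succ i ih =>
    have h0 := h 0 (Nat.succ_pos _)
    simp only [digit_zero] at h0
    have h1 : (a + b) / 2 = a / 2 + b / 2 := by omega
    have h2 := ih (a := a / 2) (b := b / 2) (fun j hj => by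
      rw [← digit_succ, ← digit_succ]; exact h (j + 1) (by omega))
    have key : ∀ c : ℕ, c / 2 ^ (i + 1) = c / 2 / 2 ^ i := by
      intro c
      rw [Nat.div_div_eq_div_mul, pow_succ, mul_comm]
    rw [key, key, key, h1, h2]

theorem NC.digit_add {a b : ℕ} (h : NC a b) (i : ℕ) :
    (a + b) / 2 ^ i % 2 = a / 2 ^ i % 2 + b / 2 ^ i % 2 := by
  rw [add_div_of_disjoint i (fun j _ => h j)]
  have := h i
  omega

/-- Adding columns without carries preserves the weight vector; with a carry it drops. -/
theorem carry_dichotomy {n : ℕ} (v g : Fin n → ℕ) :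
    ((∀ l, NC (v l) (g l)) ∧ Wt (fun l => v l + g l) = fun i => Wt v i + Wt g i) ∨
      ((¬ ∀ l, NC (v l) (g l)) ∧ LL (Wt (fun l => v l + g l)) (fun i => Wt v i + Wt g i)) := by
  classical
  by_cases h : ∀ l, NC (v l) (g l)
  · left
    refine ⟨h, ?_⟩
    funext i
    unfold Wt
    rw [← Finset.sum_add_distrib]
    exact Finset.sum_congr rfl (fun l _ => (h l).digit_add i)
  · right
    refine ⟨h, ?_⟩
    have hex : ∃ i : ℕ, ∃ l : Fin n, 1 < v l / 2 ^ i % 2 + g l / 2 ^ i % 2 := by
      unfold NC at h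
      push Not at h
      obtain ⟨l, i, hi⟩ := h
      exact ⟨i, l, hi⟩
    let i0 := Nat.find hex
    obtain ⟨l0, hl0⟩ := Nat.find_spec hex
    have hmin : ∀ j < i0, ∀ l, v l / 2 ^ j % 2 + g l / 2 ^ j % 2 ≤ 1 := by
      intro j hj l
      have := Nat.find_min hex hj
      push Not at this
      exact this l
    have hdiv : ∀ j ≤ i0, ∀ l, (v l + g l) / 2 ^ j = v l / 2 ^ j + g l / 2 ^ j := fun j hj l =>
      add_div_of_disjoint j (fun j' hj' => hmin j' (by omega) l)
    refine ⟨i0, ?_, ?_⟩
    · intro j hj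
      unfold Wt
      beta_reduce
      rw [← Finset.sum_add_distrib]
      apply Finset.sum_congr rfl
      intro l _
      rw [hdiv j hj.le l]
      have := hmin j hj l
      omega
    · unfold Wt
      beta_reduce
      rw [← Finset.sum_add_distrib]
      apply Finset.sum_lt_sum
      · intro l _
        rw [hdiv i0 le_rfl l]
        omega
      · refine ⟨l0, Finset.mem_univ _, ?_⟩
        rw [hdiv i0 le_rfl l0]
        change 1 < v l0 / 2 ^ i0 % 2 + g l0 / 2 ^ i0 % 2 at hl0
        omega

/-! ### Digits of special numbers -/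

theorem digit_two_pow_sub_one (r i : ℕ) : (2 ^ r - 1) / 2 ^ i % 2 = if i < r then 1 else 0 := by
  have h := Nat.testBit_two_pow_sub_one r i
  rw [Nat.testBit_eq_decide_div_mod_eq] at h
  split_ifs with hi
  · rw [decide_eq_true hi, decide_eq_true_eq] at h
    exact h
  · rw [decide_eq_false hi, decide_eq_false_iff_not] at h
    omega

theorem digit_two_pow (s i : ℕ) : 2 ^ s / 2 ^ i % 2 = if i = s then 1 else 0 := by
  have h := Nat.testBit_two_pow (n := s) (m := i)
  rw [Nat.testBit_eq_decide_div_mod_eq] at h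
  split_ifs with hi
  · rw [decide_eq_true hi.symm, decide_eq_true_eq] at h
    exact h
  · have hi' : ¬ s = i := fun h => hi h.symm
    rw [decide_eq_false hi', decide_eq_false_iff_not] at h
    omega

/-- Complement of a number with respect to `2 ^ r - 1`. -/
theorem digit_compl {r c : ℕ} (hc : c ≤ 2 ^ r - 1) (i : ℕ) :
    (2 ^ r - 1 - c) / 2 ^ i % 2 + c / 2 ^ i % 2 = (2 ^ r - 1) / 2 ^ i % 2 := by
  induction r generalizing c i with
  | zero =>
    have : c = 0 := by simpa using hc
    subst this
    simp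
  | succ r ih =>
    have hp : 2 ^ (r + 1) = 2 * 2 ^ r := by rw [pow_succ]; ring
    have hpos : 0 < 2 ^ r := by positivity
    cases i with
    | zero =>
      simp only [digit_zero]
      rw [hp] at hc ⊢
      omega
    | succ i =>
      rw [digit_succ, digit_succ, digit_succ]
      have h1 : (2 ^ (r + 1) - 1 - c) / 2 = 2 ^ r - 1 - c / 2 := by rw [hp] at hc ⊢; omega
      have h2 : (2 ^ (r + 1) - 1) / 2 = 2 ^ r - 1 := by rw [hp]; omega
      rw [h1, h2]
      exact ih (by rw [hp] at hc; omega) i

/-- If all digits of `g` are digits of `a = e + g`, then `e` and `g` have no common digit. -/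
theorem NC_of_sub {a g e : ℕ} (ha : e + g = a) (h : ∀ i, g / 2 ^ i % 2 ≤ a / 2 ^ i % 2) :
    NC e g := by
  induction a using Nat.strong_induction_on generalizing g e with
  | _ a ih =>
    rcases Nat.eq_zero_or_pos a with h0 | h0
    · have he : e = 0 := by omega
      have hg : g = 0 := by omega
      subst he hg
      intro i
      simp
    · have hd0 := h 0
      simp only [digit_zero] at hd0
      have hrec := ih (a / 2) (by omega) (g := g / 2) (e := e / 2) (by omega) (fun i => by
        rw [← digit_succ, ← digit_succ]; exact h (i + 1))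
      intro i
      cases i with
      | zero => simp only [digit_zero]; omega
      | succ i => rw [digit_succ, digit_succ]; exact hrec i

/-- A number below `2 ^ r` has no digits in rows `≥ r`. -/
theorem digit_lt_of_le {r c i : ℕ} (hc : c ≤ 2 ^ r - 1) (h : c / 2 ^ i % 2 = 1) : i < r := by
  by_contra hi
  push Not at hi
  have h1 := pow_le_of_digit h
  have h2 : 2 ^ r ≤ 2 ^ i := Nat.pow_le_pow_right (by norm_num) hi
  have h3 : 0 < 2 ^ r := by positivity
  omega

/-- Two numbers below `2 ^ r` without common digits have sum below `2 ^ r`. -/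
theorem NC.add_le {r a b : ℕ} (h : NC a b) (ha : a ≤ 2 ^ r - 1) (hb : b ≤ 2 ^ r - 1) :
    a + b ≤ 2 ^ r - 1 := by
  have h1 := add_div_of_disjoint r (fun j _ => h j)
  have hpos : 0 < 2 ^ r := by positivity
  rw [Nat.div_eq_of_lt (show a < 2 ^ r by omega), Nat.div_eq_of_lt (show b < 2 ^ r by omega)] at h1
  have h2 : a + b < 2 ^ r := by
    rcases (Nat.div_eq_zero_iff).1 h1 with h | h
    · omega
    · exact h
  omega

/-- Lower bound for a sum of distinct powers of two. -/
theorem card_pow_le_sum (s : Finset ℕ) : 2 ^ s.card ≤ ∑ b ∈ s, 2 ^ b + 1 := by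
  induction hk : s.card generalizing s with
  | zero => simp
  | succ k ih =>
    have hne : s.Nonempty := by rw [← Finset.card_pos, hk]; omega
    have hmem := s.max'_mem hne
    have hM : k ≤ s.max' hne := by
      have : s ⊆ Finset.range (s.max' hne + 1) := by
        intro b hb
        rw [Finset.mem_range]
        have := s.le_max' b hb
        omega
      have := Finset.card_le_card this
      rw [hk, Finset.card_range] at this
      omega
    have h1 := ih (s.erase (s.max' hne)) (by rw [Finset.card_erase_of_mem hmem, hk]; rfl)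
    rw [← Finset.add_sum_erase s _ hmem]
    have h2 : 2 ^ k ≤ 2 ^ (s.max' hne) := Nat.pow_le_pow_right (by norm_num) hM
    rw [pow_succ]
    omega

/-- Lower bound for the sum of positive entries of a splitting. -/
theorem Split.card_pow_le {n : ℕ} {c : ℕ} {g : Fin n → ℕ} (h : Split c g) (A : Finset (Fin n))
    (hA : ∀ l ∈ A, 0 < g l) : 2 ^ A.card ≤ ∑ l ∈ A, g l + 1 := by
  classical
  have hex : ∀ l : Fin n, ∃ i, l ∈ A → g l / 2 ^ i % 2 = 1 := by
    intro l
    by_cases hl : l ∈ A
    · obtain ⟨i, hi⟩ := exists_digit (hA l hl)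
      exact ⟨i, fun _ => hi⟩
    · exact ⟨0, fun h => absurd h hl⟩
  choose b hb using hex
  have hinj : Set.InjOn b A := by
    intro l hl l' hl' hll
    by_contra hne
    have h1 := h (b l)
    have h2 : g l / 2 ^ b l % 2 + g l' / 2 ^ b l % 2 ≤ ∑ k, g k / 2 ^ b l % 2 := by
      have : ∑ k ∈ ({l, l'} : Finset (Fin n)), g k / 2 ^ b l % 2 ≤ ∑ k, g k / 2 ^ b l % 2 :=
        Finset.sum_le_sum_of_subset (Finset.subset_univ _)
      rwa [Finset.sum_pair hne] at this
    have h3 := hb l hl
    have h4 := hb l' hl'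
    rw [← hll] at h4
    rw [h1] at h2
    omega
  have h1 := card_pow_le_sum (A.image b)
  rw [Finset.card_image_of_injOn hinj, Finset.sum_image (fun x hx y hy h => hinj hx hy h)] at h1
  have h2 : ∑ l ∈ A, 2 ^ b l ≤ ∑ l ∈ A, g l :=
    Finset.sum_le_sum (fun l hl => pow_le_of_digit (hb l hl))
  omega

end Pool.Agent.Helper53.Hit
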