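import Mathlib
import Pool.Agent.Helper53.HitAlg
import Pool.Agent.Helper53.HitBits

set_option autoImplicit false

/-!
Expansion of powers of sums of variables modulo 2, and the cross-effect operators.
-/

namespace Pool.Agent.Helper53.Hit

open MvPolynomial

open Classical in
/-- Splittings of `c` supported in `I`. -/
noncomputable def DS {n : ℕ} (c : ℕ) (I : Finset (Fin n)) : Finset (Fin n → ℕ) :=
  (Fintype.piFinset (fun _ : Fin n => Finset.range (c + 1))).filter
    (fun g => Split c g ∧ ∀ l, l ∉ I → g l = 0)

theorem mem_DS {n : ℕ} {c : ℕ} {I : Finset (Fin n)} {g : Fin n → ℕ} :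
    g ∈ DS c I ↔ Split c g ∧ ∀ l, l ∉ I → g l = 0 := by
  classical
  unfold DS
  rw [Finset.mem_filter, Fintype.mem_piFinset]
  constructor
  · exact fun h => h.2
  · intro h
    exact ⟨fun l => Finset.mem_range.2 (Nat.lt_succ_of_le (h.1.le l)), h⟩

theorem M_two_mul {n : ℕ} (g : Fin n → ℕ) : M (fun l => 2 * g l) = M g ^ 2 := by
  rw [M_eq_prod, M_eq_prod, ← Finset.prod_pow]
  exact Finset.prod_congr rfl (fun j _ => by rw [mul_comm, pow_mul])

theorem M_zero {n : ℕ} : M (fun _ : Fin n => 0) = 1 := by
  rw [M_eq_prod]
  simp

theorem M_single {n : ℕ} (l : Fin n) : M (fun j => if j = l then 1 else 0) = X l := by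
  rw [M_eq_prod]
  rw [Finset.prod_eq_single l]
  · simp
  · intro j _ hj
    simp [hj]
  · intro h
    exact absurd (Finset.mem_univ _) h

/-- Expansion of a power of a sum of variables modulo 2. -/
theorem pow_expand {n : ℕ} (c : ℕ) (I : Finset (Fin n)) :
    (∑ l ∈ I, X l : MvPolynomial (Fin n) (ZMod 2)) ^ c = ∑ g ∈ DS c I, M g := by
  classical
  induction c using Nat.strong_induction_on with
  | _ c ih =>
    rcases Nat.eq_zero_or_pos c with rfl | hc
    · have : DS 0 I = {fun _ : Fin n => 0} := by
        ext g
        rw [mem_DS, Finset.mem_singleton]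
        constructor
        · intro h
          funext l
          have := h.1.le l
          omega
        · rintro rfl
          exact ⟨fun i => by simp, fun _ _ => rfl⟩
      rw [this, Finset.sum_singleton, pow_zero, M_zero]
    · have h2 := ih (c / 2) (by omega)
      have hsq : (∑ l ∈ I, X l : MvPolynomial (Fin n) (ZMod 2)) ^ (2 * (c / 2))
          = ∑ g ∈ DS (c / 2) I, M (fun l => 2 * g l) := by
        rw [mul_comm, pow_mul, h2, CharTwo.sum_sq]
        exact Finset.sum_congr rfl (fun g _ => (M_two_mul g).symm)
      rcases Nat.mod_two_eq_zero_or_one c with h0 | h1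
      · have hcc : c = 2 * (c / 2) := by omega
        conv_lhs => rw [hcc]
        rw [hsq]
        refine Finset.sum_bij' (fun g _ => fun l => 2 * g l) (fun h _ => fun l => h l / 2)
          ?_ ?_ ?_ ?_ ?_
        · intro g hg
          rw [mem_DS] at hg ⊢
          refine ⟨?_, fun l hl => by rw [hg.2 l hl]⟩
          intro i
          cases i with
          | zero =>
            simp only [digit_zero]
            rw [h0]
            apply Finset.sum_eq_zero
            intro l _
            omega
          | succ i =>
            rw [digit_succ, ← hg.1 i]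
            apply Finset.sum_congr rfl
            intro l _
            rw [digit_succ]
            congr 2
            dsimp only
            omega
        · intro h hh
          rw [mem_DS] at hh ⊢
          exact ⟨hh.1.half, fun l hl => by rw [hh.2 l hl]⟩
        · intro g _
          funext l
          dsimp only
          omega
        · intro h hh
          rw [mem_DS] at hh
          funext l
          beta_reduce
          have h3 := hh.1 0
          simp only [digit_zero] at h3
          rw [h0, Finset.sum_eq_zero_iff] at h3
          have := h3 l (Finset.mem_univ _)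
          omega
        · intro g _
          rfl
      · have hcc : c = 2 * (c / 2) + 1 := by omega
        conv_lhs => rw [hcc]
        rw [pow_succ, hsq, Finset.sum_mul_sum, ← Finset.sum_product']
        apply Finset.sum_bij (fun (x : (Fin n → ℕ) × Fin n) _ =>
          fun l => 2 * x.1 l + if l = x.2 then 1 else 0)
        · rintro ⟨g, k⟩ hx
          rw [Finset.mem_product] at hx
          obtain ⟨hg, hk⟩ := hx
          rw [mem_DS] at hg ⊢
          refine ⟨?_, ?_⟩
          · intro i
            cases i with
            | zero =>
              simp only [digit_zero]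
              rw [h1, Finset.sum_eq_single k]
              · rw [if_pos rfl]
                omega
              · intro l _ hl
                rw [if_neg hl]
                omega
              · intro h
                exact absurd (Finset.mem_univ _) h
            | succ i =>
              rw [digit_succ, ← hg.1 i]
              apply Finset.sum_congr rfl
              intro l _
              rw [digit_succ]
              congr 2
              dsimp only
              split_ifs <;> omega
          · intro l hl
            have hlk : l ≠ k := fun h => hl (h ▸ hk)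
            have hgl := hg.2 l hl
            dsimp only at hgl ⊢
            rw [if_neg hlk, hgl]
        · rintro ⟨g, k⟩ _ ⟨g', k'⟩ _ heq
          dsimp only at heq
          have hk : k = k' := by
            by_contra hne
            have := congrFun heq k
            rw [if_pos rfl, if_neg hne] at this
            omega
          subst hk
          congr 1
          funext l
          have := congrFun heq l
          omega
        · intro h hh
          rw [mem_DS] at hh
          have h3 := hh.1 0
          simp only [digit_zero] at h3
          rw [h1] at h3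
          have hex : ∃ k, h k % 2 = 1 := by
            by_contra hno
            push Not at hno
            have : ∑ l, h l % 2 = 0 := Finset.sum_eq_zero (fun l _ => by
              have := hno l
              omega)
            omega
          obtain ⟨k, hk⟩ := hex
          have hother : ∀ l, l ≠ k → h l % 2 = 0 := by
            intro l hl
            have : ∑ j ∈ ({l, k} : Finset (Fin n)), h j % 2 ≤ ∑ j, h j % 2 :=
              Finset.sum_le_sum_of_subset (Finset.subset_univ _)
            rw [Finset.sum_pair hl, h3] at this
            omega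
          have hkI : k ∈ I := by
            by_contra hkI
            have := hh.2 k hkI
            omega
          refine ⟨(fun l => h l / 2, k), ?_, ?_⟩
          · rw [Finset.mem_product]
            refine ⟨?_, hkI⟩
            rw [mem_DS]
            exact ⟨hh.1.half, fun l hl => by
              have := hh.2 l hl
              dsimp only
              omega⟩
          · funext l
            dsimp only
            split_ifs with hl
            · subst hl
              omega
            · have := hother l hl
              omega
        · rintro ⟨g, k⟩ _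
          dsimp only
          rw [M_add, M_single]

open Classical in
/-- Splittings of `c` whose support is exactly `Z`. -/
noncomputable def FS {n : ℕ} (c : ℕ) (Z : Finset (Fin n)) : Finset (Fin n → ℕ) :=
  (DS c Z).filter (fun g => ∀ l ∈ Z, 0 < g l)

theorem mem_FS {n : ℕ} {c : ℕ} {Z : Finset (Fin n)} {g : Fin n → ℕ} :
    g ∈ FS c Z ↔ Split c g ∧ ∀ l, (l ∈ Z ↔ 0 < g l) := by
  classical
  unfold FS
  rw [Finset.mem_filter, mem_DS]
  constructor
  · rintro ⟨⟨h1, h2⟩, h3⟩
    refine ⟨h1, fun l => ⟨h3 l, fun h => ?_⟩⟩
    by_contra hl
    have := h2 l hl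
    omega
  · rintro ⟨h1, h2⟩
    refine ⟨⟨h1, fun l hl => ?_⟩, fun l hl => (h2 l).1 hl⟩
    by_contra h
    exact hl ((h2 l).2 (Nat.pos_of_ne_zero h))

/-- Sum over all subsets `I ⊆ Z` of the expansions. -/
theorem sum_powerset_DS {n : ℕ} (c : ℕ) (Z : Finset (Fin n))
    (F : (Fin n → ℕ) → MvPolynomial (Fin n) (ZMod 2)) :
    ∑ I ∈ Z.powerset, ∑ g ∈ DS c I, F g = ∑ g ∈ FS c Z, F g := by
  classical
  have h1 : ∀ I ∈ Z.powerset, ∑ g ∈ DS c I, F g
      = ∑ g ∈ DS c Z, if (∀ l, l ∉ I → g l = 0) then F g else 0 := by
    intro I hI
    rw [Finset.mem_powerset] at hI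
    rw [← Finset.sum_filter]
    apply Finset.sum_congr
    · ext g
      rw [Finset.mem_filter, mem_DS, mem_DS]
      constructor
      · rintro ⟨h1, h2⟩
        exact ⟨⟨h1, fun l hl => h2 l (fun h => hl (hI h))⟩, h2⟩
      · rintro ⟨⟨h1, _⟩, h3⟩
        exact ⟨h1, h3⟩
    · intros; rfl
  rw [Finset.sum_congr rfl h1, Finset.sum_comm]
  unfold FS
  rw [Finset.sum_filter]
  apply Finset.sum_congr rfl
  intro g hg
  rw [mem_DS] at hg
  set A : Finset (Fin n) := Finset.univ.filter (fun l => g l ≠ 0) with hA
  have hAZ : A ⊆ Z := by
    intro l hl
    rw [hA, Finset.mem_filter] at hl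
    by_contra h
    exact hl.2 (hg.2 l h)
  rw [← Finset.sum_filter, Finset.sum_const]
  have h2 : (Finset.filter (fun I => ∀ l, l ∉ I → g l = 0) Z.powerset) = Finset.Icc A Z := by
    ext I
    rw [Finset.mem_filter, Finset.mem_powerset, Finset.mem_Icc]
    constructor
    · rintro ⟨h3, h4⟩
      refine ⟨?_, h3⟩
      intro l hl
      rw [hA, Finset.mem_filter] at hl
      by_contra h
      exact hl.2 (h4 l h)
    · rintro ⟨h3, h4⟩
      refine ⟨h4, fun l hl => ?_⟩
      by_contra h
      apply hl
      apply h3
      rw [hA, Finset.mem_filter]
      exact ⟨Finset.mem_univ _, h⟩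
  rw [h2, Finset.card_Icc_finset hAZ]
  split_ifs with hpos
  · have : Z ⊆ A := by
      intro l hl
      rw [hA, Finset.mem_filter]
      exact ⟨Finset.mem_univ _, (hpos l hl).ne'⟩
    rw [Finset.Subset.antisymm this hAZ, Nat.sub_self, pow_zero, one_smul]
  · push Not at hpos
    obtain ⟨l, hl, hl0⟩ := hpos
    have hlt : A.card < Z.card := by
      apply Finset.card_lt_card
      refine ⟨hAZ, fun h => ?_⟩
      have := h hl
      rw [hA, Finset.mem_filter] at this
      exact this.2 (by omega)
    obtain ⟨k, hk⟩ : ∃ k, Z.card - A.card = k + 1 := ⟨Z.card - A.card - 1, by omega⟩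
    rw [hk, pow_succ, mul_comm, mul_smul, two_smul]
    exact CharTwo.add_self_eq_zero _

/-- The cross-effect operator: column `a` is distributed over the columns in `Z`. -/
noncomputable def opC {n : ℕ} (a : Fin (n + 1)) (Z : Finset (Fin n)) :
    MvPolynomial (Fin (n + 1)) (ZMod 2) →ₗ[ZMod 2] MvPolynomial (Fin n) (ZMod 2) :=
  ∑ I ∈ Z.powerset, (aeval (a.insertNth (α := fun _ => MvPolynomial (Fin n) (ZMod 2))
    (∑ l ∈ I, X l) (fun l => X l))).toLinearMap

theorem opC_M {n : ℕ} (a : Fin (n + 1)) (Z : Finset (Fin n)) (y : Fin (n + 1) → ℕ) :
    opC a Z (M y) = ∑ g ∈ FS (y a) Z, M (fun l => y (a.succAbove l) + g l) := by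
  unfold opC
  rw [LinearMap.sum_apply, ← sum_powerset_DS (y a) Z]
  apply Finset.sum_congr rfl
  intro I _
  rw [AlgHom.toLinearMap_apply, aeval_M, Fin.prod_univ_succAbove _ a]
  simp only [Fin.insertNth_apply_same, Fin.insertNth_apply_succAbove]
  rw [pow_expand, ← M_eq_prod (fun l => y (a.succAbove l)), Finset.sum_mul]
  apply Finset.sum_congr rfl
  intro g _
  rw [mul_comm, ← M_add]

theorem opC_hit {n : ℕ} (a : Fin (n + 1)) (Z : Finset (Fin n))
    (q : MvPolynomial (Fin (n + 1)) (ZMod 2)) (hq : q ∈ Submodule.span (ZMod 2) (hitSet (n + 1))) :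
    opC a Z q ∈ Submodule.span (ZMod 2) (hitSet n) := by
  unfold opC
  rw [LinearMap.sum_apply]
  apply Submodule.sum_mem
  intro I _
  rw [AlgHom.toLinearMap_apply]
  have h : (a.insertNth (α := fun _ => MvPolynomial (Fin n) (ZMod 2)) (∑ l ∈ I, X l)
      (fun l => X l)) = fun j => ∑ l ∈ (a.insertNth (α := fun _ => Finset (Fin n)) I
        (fun l => {l})) j, X l := by
    funext j
    rcases Fin.eq_self_or_eq_succAbove a j with rfl | ⟨k, rfl⟩
    · rw [Fin.insertNth_apply_same, Fin.insertNth_apply_same]
    · rw [Fin.insertNth_apply_succAbove, Fin.insertNth_apply_succAbove, Finset.sum_singleton]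
  rw [h]
  exact aeval_hit _ q hq

end Pool.Agent.Helper53.Hit
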