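import Mathlib
import Pool.Agent.Helper53.HitExpand

set_option autoImplicit false

/-!
The main argument: the operator `T = ∑ T_i` and the transfer of inadmissibility.
-/

namespace Pool.Agent.Helper53.Hit

open MvPolynomial

/-- The span of the monomials below `t`. -/
noncomputable def LowS {n : ℕ} (t : Fin n → ℕ) : Submodule (ZMod 2) (MvPolynomial (Fin n) (ZMod 2)) :=
  Submodule.span (ZMod 2) {g | ∃ y : Fin n → ℕ, g = M y ∧ Lower y t}

/-- Inadmissibility. -/
def Inad {n : ℕ} (t : Fin n → ℕ) : Prop :=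
  M t ∈ Submodule.span (ZMod 2) (hitSet n) ⊔ LowS t

theorem mem_LowS {n : ℕ} {y t : Fin n → ℕ} (h : Lower y t) : M y ∈ LowS t :=
  Submodule.subset_span ⟨y, rfl, h⟩

/-- Transfer principle. -/
theorem transfer {n m : ℕ} (e : Fin m → ℕ) (t : Fin n → ℕ)
    (T : MvPolynomial (Fin m) (ZMod 2) →ₗ[ZMod 2] MvPolynomial (Fin n) (ZMod 2))
    (hT : ∀ q ∈ Submodule.span (ZMod 2) (hitSet m), T q ∈ Submodule.span (ZMod 2) (hitSet n))
    (he : ∃ w ∈ LowS t, T (M e) = M t + w)
    (hlow : ∀ y, Lower y e → T (M y) ∈ LowS t) (h : Inad e) : Inad t := by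
  obtain ⟨w, hw, hTe⟩ := he
  unfold Inad at h ⊢
  rw [Submodule.mem_sup] at h ⊢
  obtain ⟨a, ha, b, hb, hab⟩ := h
  have hb' : T b ∈ LowS t := by
    have hle : LowS e ≤ (LowS t).comap T := by
      unfold LowS
      rw [Submodule.span_le]
      rintro g ⟨y, rfl, hy⟩
      exact hlow y hy
    exact hle hb
  refine ⟨T a, hT a ha, T b - w, Submodule.sub_mem _ hb' hw, ?_⟩
  rw [← hab, map_add] at hTe
  rw [← add_sub_assoc, hTe, add_sub_cancel_right]

theorem val_succAbove {n : ℕ} (a : Fin (n + 1)) (l : Fin n) :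
    ((a.succAbove l : Fin (n + 1)) : ℕ) = if (l : ℕ) < a then (l : ℕ) else l + 1 := by
  unfold Fin.succAbove
  split_ifs with h1 h2 h2
  · rfl
  · exact absurd (Fin.lt_def.1 h1) h2
  · exact absurd (Fin.lt_def.2 h2) h1
  · rfl

theorem term_sum {n : ℕ} {y : Fin (n + 1) → ℕ} {a : Fin (n + 1)} {g : Fin n → ℕ}
    (h : Split (y a) g) : ∑ l, (y (a.succAbove l) + g l) = ∑ j, y j := by
  rw [Finset.sum_add_distrib, h.sum_eq, Fin.sum_univ_succAbove y a, add_comm]

theorem wt_split {n : ℕ} {y : Fin (n + 1) → ℕ} {a : Fin (n + 1)} {g : Fin n → ℕ}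
    (h : Split (y a) g) : (fun i => Wt (fun l => y (a.succAbove l)) i + Wt g i) = Wt y := by
  funext i
  unfold Wt
  rw [h i, Fin.sum_univ_succAbove _ a, add_comm]

theorem term_wt {n : ℕ} {y : Fin (n + 1) → ℕ} {a : Fin (n + 1)} {g : Fin n → ℕ}
    (h : Split (y a) g) :
    ((∀ l, NC (y (a.succAbove l)) (g l)) ∧ Wt (fun l => y (a.succAbove l) + g l) = Wt y) ∨
      ((¬ ∀ l, NC (y (a.succAbove l)) (g l)) ∧
        LL (Wt (fun l => y (a.succAbove l) + g l)) (Wt y)) := by
  rw [← wt_split h]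
  exact carry_dichotomy (fun l => y (a.succAbove l)) g

theorem LexLt_add {n : ℕ} {a b g h : Fin n → ℕ} (hab : LexLt a b) (hgh : g = h ∨ LexLt g h) :
    LexLt (fun l => a l + g l) (fun l => b l + h l) := by
  obtain ⟨i, hi, hi'⟩ := hab
  rcases hgh with rfl | ⟨j, hj, hj'⟩
  · exact ⟨i, fun l hl => by dsimp only; rw [hi l hl], by dsimp only; omega⟩
  · rcases lt_trichotomy i j with hij | hij | hij
    · exact ⟨i, fun l hl => by dsimp only; rw [hi l hl, hj l (hl.trans hij)], by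
        have := hj i hij
        dsimp only
        omega⟩
    · subst hij
      exact ⟨i, fun l hl => by dsimp only; rw [hi l hl, hj l hl], by dsimp only; omega⟩
    · exact ⟨j, fun l hl => by dsimp only; rw [hi l (hl.trans hij), hj l hl], by
        have := hi j hij
        dsimp only
        omega⟩

theorem LexLt_add_left {n : ℕ} {a g h : Fin n → ℕ} (hgh : LexLt g h) :
    LexLt (fun l => a l + g l) (fun l => a l + h l) := by
  obtain ⟨j, hj, hj'⟩ := hgh
  exact ⟨j, fun l hl => by dsimp only; rw [hj l hl], by dsimp only; omega⟩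

/-- The column `p + i`. -/
def sI (n p i : ℕ) : Fin (n + 1) := ⟨min (p + i) n, by omega⟩

/-- The set of target columns of the operator `T_i`. -/
def ZI {n : ℕ} (p u : ℕ) (K : Finset (Fin n)) (i : ℕ) : Finset (Fin n) :=
  K ∪ Finset.univ.filter (fun l : Fin n => p + i ≤ (l : ℕ) ∧ (l : ℕ) < p + u)

theorem mem_ZI {n p u : ℕ} {K : Finset (Fin n)} {i : ℕ} {l : Fin n} :
    l ∈ ZI p u K i ↔ l ∈ K ∨ (p + i ≤ (l : ℕ) ∧ (l : ℕ) < p + u) := by
  unfold ZI
  rw [Finset.mem_union, Finset.mem_filter]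
  simp

theorem sI_val {n p i : ℕ} (h : p + i ≤ n) : ((sI n p i : Fin (n + 1)) : ℕ) = p + i := by
  unfold sI
  simp [h]

/-- The data of the main construction. -/
structure Dat (n : ℕ) where
  p : ℕ
  u : ℕ
  r : ℕ
  K : Finset (Fin n)
  e : Fin (n + 1) → ℕ
  t : Fin n → ℕ
  gm : Fin n → ℕ
  hpu : p + u ≤ n
  hK : ∀ l ∈ K, p + u ≤ (l : ℕ)
  hcard : K.card + u = r
  hs : ∀ i ≤ u, e (sI n p i) = 2 ^ r - 1
  hgm : gm ∈ FS (2 ^ r - 1) K
  hmax : ∀ g ∈ FS (2 ^ r - 1) K, g = gm ∨ LexLt g gm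
  ht : ∀ l, t l = e ((sI n p u).succAbove l) + gm l
  hWt : Wt t = Wt e

namespace Dat

variable {n : ℕ} (D : Dat n)

theorem gm_zero {l : Fin n} (hl : (l : ℕ) < D.p + D.u) : D.gm l = 0 := by
  have h1 := (mem_FS.1 D.hgm).2 l
  by_contra h
  have := h1.2 (Nat.pos_of_ne_zero h)
  have := D.hK l this
  omega

theorem sum_t : ∑ l, D.t l = ∑ j, D.e j := by
  have h1 : Split (D.e (sI n D.p D.u)) D.gm := by
    rw [D.hs D.u le_rfl]
    exact (mem_FS.1 D.hgm).1
  rw [← term_sum h1]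
  exact Finset.sum_congr rfl (fun l _ => D.ht l)

theorem ht' {i : ℕ} (hi : i ≤ D.u) (l : Fin n) :
    D.t l = D.e ((sI n D.p i).succAbove l) + D.gm l := by
  rw [D.ht l]
  congr 1
  have hpu := D.hpu
  by_cases h : D.p + i ≤ (l : ℕ) ∧ (l : ℕ) < D.p + D.u
  · have h1 : (sI n D.p D.u).succAbove l = sI n D.p (l - D.p) := by
      apply Fin.ext
      rw [val_succAbove, sI_val D.hpu, sI_val (by omega), if_pos h.2]
      omega
    have h2 : (sI n D.p i).succAbove l = sI n D.p (l - D.p + 1) := by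
      apply Fin.ext
      rw [val_succAbove, sI_val (by omega), sI_val (by omega), if_neg (by omega)]
      omega
    rw [h1, h2, D.hs _ (by omega), D.hs _ (by omega)]
  · congr 1
    apply Fin.ext
    rw [val_succAbove, val_succAbove, sI_val D.hpu, sI_val (by omega)]
    split_ifs <;> omega

/-- Operators `T_i`. -/
noncomputable def op (i : ℕ) :
    MvPolynomial (Fin (n + 1)) (ZMod 2) →ₗ[ZMod 2] MvPolynomial (Fin n) (ZMod 2) :=
  opC (sI n D.p i) (ZI D.p D.u D.K i)

theorem low_LL {z : Fin n → ℕ} (h1 : ∑ l, z l = ∑ j, D.e j) (h2 : LL (Wt z) (Wt D.e)) :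
    M z ∈ LowS D.t :=
  mem_LowS ⟨by rw [h1, D.sum_t], Or.inl (by rw [D.hWt]; exact h2)⟩

theorem case_LL {y : Fin (n + 1) → ℕ} (hy : ∑ j, y j = ∑ j, D.e j) (h : LL (Wt y) (Wt D.e))
    (i : ℕ) : D.op i (M y) ∈ LowS D.t := by
  unfold op
  rw [opC_M]
  apply Submodule.sum_mem
  intro g hg
  have hg' := (mem_FS.1 hg).1
  apply D.low_LL
  · rw [term_sum hg', hy]
  · rcases term_wt hg' with ⟨_, h2⟩ | ⟨_, h2⟩
    · rw [h2]; exact h
    · exact h2.trans h

theorem case_I {y : Fin (n + 1) → ℕ} (hy : ∑ j, y j = ∑ j, D.e j) (hW : Wt y = Wt D.e)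
    {i : ℕ} (hi : i ≤ D.u) {c : Fin (n + 1)} (hc : (c : ℕ) < D.p + i)
    (hc1 : ∀ j, j < c → y j = D.e j) (hc2 : y c < D.e c) : D.op i (M y) ∈ LowS D.t := by
  have hpu := D.hpu
  unfold op
  rw [opC_M]
  apply Submodule.sum_mem
  intro g hg
  have hg' := mem_FS.1 hg
  rcases term_wt hg'.1 with ⟨_, h2⟩ | ⟨_, h2⟩
  · apply mem_LowS
    refine ⟨by rw [term_sum hg'.1, hy, D.sum_t], Or.inr ⟨by rw [h2, hW, D.hWt], ?_⟩⟩
    have hg0 : ∀ l : Fin n, (l : ℕ) < D.p + i → g l = 0 := by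
      intro l hl
      by_contra h
      have h3 := (hg'.2 l).2 (Nat.pos_of_ne_zero h)
      rw [mem_ZI] at h3
      rcases h3 with h3 | h3
      · have := D.hK l h3
        omega
      · omega
    refine ⟨⟨c, by omega⟩, ?_, ?_⟩
    · intro l hl
      rw [Fin.lt_def] at hl
      dsimp only at hl ⊢
      rw [D.ht' hi, hg0 l (by omega), D.gm_zero (by omega), hc1]
      rw [Fin.lt_def, val_succAbove, sI_val (by omega), if_pos (by omega)]
      exact hl
    · have h4 : (sI n D.p i).succAbove ⟨c, by omega⟩ = c := by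
        apply Fin.ext
        rw [val_succAbove, sI_val (by omega), if_pos]
        exact hc
      have h5 := hg0 ⟨c, by omega⟩ hc
      dsimp only
      rw [D.ht' hi, h4, h5]
      omega
  · apply D.low_LL
    · rw [term_sum hg'.1, hy]
    · rw [← hW]; exact h2

theorem case_II {y : Fin (n + 1) → ℕ} (hy : ∑ j, y j = ∑ j, D.e j) (hW : Wt y = Wt D.e)
    {i : ℕ} (hi : i < D.u) (h1 : y (sI n D.p i) = 2 ^ D.r - 1)
    (h2 : y (sI n D.p (i + 1)) = 2 ^ D.r - 1) : D.op i (M y) ∈ LowS D.t := by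
  have hpu := D.hpu
  unfold op
  rw [opC_M]
  apply Submodule.sum_mem
  intro g hg
  have hg' := mem_FS.1 hg
  rcases term_wt hg'.1 with ⟨h3, _⟩ | ⟨_, h3⟩
  · exfalso
    have hq : (⟨D.p + i, by omega⟩ : Fin n) ∈ ZI D.p D.u D.K i := by
      rw [mem_ZI]
      right
      constructor
      · exact le_rfl
      · dsimp only
        omega
    have hpos := (hg'.2 _).1 hq
    have hle := hg'.1.le ⟨D.p + i, by omega⟩
    rw [h1] at hle
    obtain ⟨b, hb⟩ := exists_digit hpos
    have hbr := digit_lt_of_le hle hb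
    have h4 := h3 ⟨D.p + i, by omega⟩ b
    have h5 : (sI n D.p i).succAbove ⟨D.p + i, by omega⟩ = sI n D.p (i + 1) := by
      apply Fin.ext
      rw [val_succAbove, sI_val (by omega), sI_val (by omega), if_neg (by simp)]
      rfl
    rw [h5, h2, hb, digit_two_pow_sub_one, if_pos hbr] at h4
    omega
  · apply D.low_LL
    · rw [term_sum hg'.1, hy]
    · rw [← hW]; exact h3

theorem ZI_last : ZI D.p D.u D.K D.u = D.K := by
  ext l
  rw [mem_ZI]
  constructor
  · rintro (h | h)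
    · exact h
    · omega
  · exact Or.inl

theorem case_III {y : Fin (n + 1) → ℕ} (hy : ∑ j, y j = ∑ j, D.e j) (hW : Wt y = Wt D.e)
    {c : Fin (n + 1)} (hc : D.p + D.u < (c : ℕ))
    (hc1 : ∀ j, j < c → y j = D.e j) (hc2 : y c < D.e c) : D.op D.u (M y) ∈ LowS D.t := by
  have hpu := D.hpu
  unfold op
  rw [opC_M]
  apply Submodule.sum_mem
  intro g hg
  rw [D.ZI_last] at hg
  have hsu : y (sI n D.p D.u) = 2 ^ D.r - 1 := by
    rw [hc1 _ (by rw [Fin.lt_def, sI_val hpu]; exact hc), D.hs _ le_rfl]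
  have hg' := mem_FS.1 hg
  rcases term_wt hg'.1 with ⟨_, h2⟩ | ⟨_, h2⟩
  · apply mem_LowS
    refine ⟨by rw [term_sum hg'.1, hy, D.sum_t], Or.inr ⟨by rw [h2, hW, D.hWt], ?_⟩⟩
    have hteq : D.t = fun l => D.e ((sI n D.p D.u).succAbove l) + D.gm l := funext D.ht
    rw [hteq]
    rw [hsu] at hg
    refine LexLt_add (a := fun l => y ((sI n D.p D.u).succAbove l))
      (b := fun l => D.e ((sI n D.p D.u).succAbove l)) ?_ (D.hmax g hg)
    have hcn : (c : ℕ) - 1 < n := by
      have := c.isLt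
      omega
    refine ⟨⟨(c : ℕ) - 1, hcn⟩, ?_, ?_⟩
    · intro l hl
      rw [Fin.lt_def] at hl
      dsimp only at hl ⊢
      apply hc1
      rw [Fin.lt_def, val_succAbove]
      split_ifs <;> omega
    · have h4 : (sI n D.p D.u).succAbove ⟨(c : ℕ) - 1, hcn⟩ = c := by
        apply Fin.ext
        rw [val_succAbove, sI_val hpu, if_neg (by dsimp only; omega)]
        dsimp only
        omega
      dsimp only
      rw [h4]
      exact hc2
  · apply D.low_LL
    · rw [term_sum hg'.1, hy]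
    · rw [← hW]; exact h2

theorem case_V {y : Fin (n + 1) → ℕ} (h : y (sI n D.p 0) < 2 ^ D.r - 1) :
    D.op 0 (M y) = 0 := by
  classical
  have hpu := D.hpu
  unfold op
  rw [opC_M]
  have hempty : FS (y (sI n D.p 0)) (ZI D.p D.u D.K 0) = ∅ := by
    rw [Finset.eq_empty_iff_forall_notMem]
    intro g hg
    have hg' := mem_FS.1 hg
    have h1 := hg'.1.card_pow_le (ZI D.p D.u D.K 0) (fun l hl => (hg'.2 l).1 hl)
    have h2 : (ZI D.p D.u D.K 0).card = D.r := by
      unfold ZI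
      rw [Finset.card_union_of_disjoint]
      · rw [← D.hcard]
        congr 1
        have h3 : (Finset.univ.filter (fun l : Fin n => D.p + 0 ≤ (l : ℕ) ∧ (l : ℕ) < D.p + D.u)).card
            = (Finset.Ico D.p (D.p + D.u)).card := by
          refine Finset.card_bij (fun (l : Fin n) _ => (l : ℕ)) ?_ ?_ ?_
          · intro l hl
            rw [Finset.mem_filter] at hl
            rw [Finset.mem_Ico]
            omega
          · intro a _ b _ hab
            exact Fin.ext hab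
          · intro b hb
            rw [Finset.mem_Ico] at hb
            refine ⟨⟨b, by omega⟩, ?_, rfl⟩
            rw [Finset.mem_filter]
            exact ⟨Finset.mem_univ _, by dsimp only; omega⟩
        rw [h3, Nat.card_Ico]
        omega
      · rw [Finset.disjoint_left]
        intro l hl hl2
        rw [Finset.mem_filter] at hl2
        have := D.hK l hl
        omega
    have h3 : ∑ l ∈ ZI D.p D.u D.K 0, g l ≤ ∑ l, g l :=
      Finset.sum_le_sum_of_subset (Finset.subset_univ _)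
    rw [hg'.1.sum_eq] at h3
    rw [h2] at h1
    omega
  rw [hempty, Finset.sum_empty]

theorem main_term : ∃ w ∈ LowS D.t, D.op D.u (M D.e) = M D.t + w := by
  classical
  have hpu := D.hpu
  unfold op
  rw [opC_M, D.ZI_last, D.hs _ le_rfl, ← Finset.add_sum_erase _ _ D.hgm]
  have hteq : (fun l => D.e ((sI n D.p D.u).succAbove l) + D.gm l) = D.t :=
    (funext D.ht).symm
  rw [hteq]
  refine ⟨_, ?_, rfl⟩
  apply Submodule.sum_mem
  intro g hg
  rw [Finset.mem_erase] at hg
  obtain ⟨hne, hg⟩ := hg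
  have hlex : LexLt g D.gm := by
    rcases D.hmax g hg with h | h
    · exact absurd h hne
    · exact h
  have hg' := mem_FS.1 hg
  rw [← D.hs _ le_rfl] at hg'
  rcases term_wt hg'.1 with ⟨_, h2⟩ | ⟨_, h2⟩
  · apply mem_LowS
    refine ⟨by rw [term_sum hg'.1, D.sum_t], Or.inr ⟨by rw [h2, D.hWt], ?_⟩⟩
    rw [← hteq]
    exact LexLt_add_left hlex
  · apply D.low_LL
    · rw [term_sum hg'.1]
    · exact h2

end Dat

end Pool.Agent.Helper53.Hit
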