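import Mathlib
import Pool.Agent.Helper53.HitMain

set_option autoImplicit false

/-!
The cancelling pair of operators, and the conclusion for abstract data.
-/

namespace Pool.Agent.Helper53.Hit

open MvPolynomial

namespace Dat

variable {n : ℕ} (D : Dat n)

theorem case_IV {y : Fin (n + 1) → ℕ} (hy : ∑ j, y j = ∑ j, D.e j) (hW : Wt y = Wt D.e)
    {i : ℕ} (hi : i < D.u)
    (hc1 : ∀ j : Fin (n + 1), (j : ℕ) < D.p + (i + 1) → y j = D.e j)
    (hc2 : y (sI n D.p (i + 1)) < 2 ^ D.r - 1) :
    D.op i (M y) + D.op (i + 1) (M y) ∈ LowS D.t := by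
  classical
  have hpu := D.hpu
  have hsi : y (sI n D.p i) = 2 ^ D.r - 1 := by
    rw [hc1 _ (by rw [sI_val (by omega)]; omega), D.hs _ (by omega)]
  have hqn : D.p + i < n := by omega
  set q : Fin n := ⟨D.p + i, hqn⟩ with hq
  set c0 := y (sI n D.p (i + 1)) with hc0
  have hsq : (sI n D.p i).succAbove q = sI n D.p (i + 1) := by
    apply Fin.ext
    rw [val_succAbove, sI_val (by omega), sI_val (by omega), if_neg (by simp [hq])]
    rfl
  have hsq' : (sI n D.p (i + 1)).succAbove q = sI n D.p i := by
    apply Fin.ext
    rw [val_succAbove, sI_val (by omega), sI_val (by omega), if_pos (by simp [hq])]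
  have hother : ∀ l : Fin n, l ≠ q →
      (sI n D.p i).succAbove l = (sI n D.p (i + 1)).succAbove l := by
    intro l hl
    apply Fin.ext
    have hl' : (l : ℕ) ≠ D.p + i := fun h => hl (Fin.ext (by rw [h, hq]))
    rw [val_succAbove, val_succAbove, sI_val (by omega), sI_val (by omega)]
    split_ifs <;> omega
  have hZ : ∀ l : Fin n, l ∈ ZI D.p D.u D.K i ↔ l = q ∨ l ∈ ZI D.p D.u D.K (i + 1) := by
    intro l
    rw [mem_ZI, mem_ZI]
    have hlq : l = q ↔ (l : ℕ) = D.p + i := by
      rw [Fin.ext_iff, hq]
    rw [hlq]
    constructor
    · rintro (h | h)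
      · exact Or.inr (Or.inl h)
      · by_cases h' : (l : ℕ) = D.p + i
        · exact Or.inl h'
        · exact Or.inr (Or.inr (by omega))
    · rintro (h | h | h)
      · exact Or.inr (by omega)
      · exact Or.inl h
      · exact Or.inr (by omega)
  have hqZ : q ∉ ZI D.p D.u D.K (i + 1) := by
    rw [mem_ZI]
    rintro (h | h)
    · have := D.hK q h
      rw [hq] at this
      dsimp only at this
      omega
    · rw [hq] at h
      dsimp only at h
      omega
  unfold op
  rw [opC_M, opC_M, hsi, ← hc0,
    ← Finset.sum_filter_add_sum_filter_not (FS (2 ^ D.r - 1) (ZI D.p D.u D.K i))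
      (fun g => g q = 2 ^ D.r - 1 - c0)]
  -- the matching part
  have hmatch : ∑ g ∈ (FS (2 ^ D.r - 1) (ZI D.p D.u D.K i)).filter
        (fun g => g q = 2 ^ D.r - 1 - c0),
        M (fun l => y ((sI n D.p i).succAbove l) + g l)
      = ∑ g ∈ FS c0 (ZI D.p D.u D.K (i + 1)),
        M (fun l => y ((sI n D.p (i + 1)).succAbove l) + g l) := by
    refine Finset.sum_bij' (fun g _ => Function.update g q 0)
      (fun g _ => Function.update g q (2 ^ D.r - 1 - c0)) ?_ ?_ ?_ ?_ ?_
    · intro g hg
      rw [Finset.mem_filter, mem_FS] at hg
      obtain ⟨⟨h1, h2⟩, h3⟩ := hg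
      rw [mem_FS]
      constructor
      · intro b
        have h4 := h1 b
        rw [← Finset.add_sum_erase _ _ (Finset.mem_univ q)] at h4 ⊢
        rw [Function.update_self]
        have h5 : ∑ l ∈ Finset.univ.erase q, Function.update g q 0 l / 2 ^ b % 2
            = ∑ l ∈ Finset.univ.erase q, g l / 2 ^ b % 2 := by
          apply Finset.sum_congr rfl
          intro l hl
          rw [Function.update_of_ne (Finset.ne_of_mem_erase hl)]
        rw [h5]
        rw [h3] at h4
        have h6 := digit_compl (r := D.r) (c := c0) (by omega) b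
        simp only [Nat.zero_div, Nat.zero_mod]
        omega
      · intro l
        by_cases hl : l = q
        · subst hl
          rw [Function.update_self]
          constructor
          · intro h; exact absurd h hqZ
          · intro h; omega
        · rw [Function.update_of_ne hl, ← h2 l, hZ l]
          constructor
          · exact Or.inr
          · rintro (h | h)
            · exact absurd h hl
            · exact h
    · intro g hg
      rw [mem_FS] at hg
      obtain ⟨h1, h2⟩ := hg
      have hgq : g q = 0 := by
        by_contra h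
        exact hqZ ((h2 q).2 (Nat.pos_of_ne_zero h))
      rw [Finset.mem_filter, mem_FS]
      refine ⟨⟨?_, ?_⟩, ?_⟩
      · intro b
        have h4 := h1 b
        rw [← Finset.add_sum_erase _ _ (Finset.mem_univ q)] at h4 ⊢
        rw [Function.update_self]
        have h5 : ∑ l ∈ Finset.univ.erase q,
              Function.update g q (2 ^ D.r - 1 - c0) l / 2 ^ b % 2
            = ∑ l ∈ Finset.univ.erase q, g l / 2 ^ b % 2 := by
          apply Finset.sum_congr rfl
          intro l hl
          rw [Function.update_of_ne (Finset.ne_of_mem_erase hl)]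
        rw [h5]
        rw [hgq] at h4
        have h6 := digit_compl (r := D.r) (c := c0) (by omega) b
        simp only [Nat.zero_div, Nat.zero_mod] at h4
        omega
      · intro l
        by_cases hl : l = q
        · rw [hl, Function.update_self, hZ]
          constructor
          · intro _; omega
          · intro _; exact Or.inl rfl
        · rw [Function.update_of_ne hl, ← h2 l, hZ l]
          constructor
          · rintro (h | h)
            · exact absurd h hl
            · exact h
          · exact Or.inr
      · exact Function.update_self _ _ _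
    · intro g hg
      rw [Finset.mem_filter] at hg
      rw [Function.update_idem, ← hg.2, Function.update_eq_self]
    · intro g hg
      rw [mem_FS] at hg
      have hgq : g q = 0 := by
        by_contra h
        exact hqZ ((hg.2 q).2 (Nat.pos_of_ne_zero h))
      rw [Function.update_idem, ← hgq, Function.update_eq_self]
    · intro g hg
      rw [Finset.mem_filter] at hg
      congr 1
      funext l
      by_cases hl : l = q
      · rw [hl, Function.update_self, hsq, hsq', hg.2, hsi, ← hc0]
        omega
      · rw [Function.update_of_ne hl, hother l hl]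
  rw [hmatch, add_right_comm, CharTwo.add_self_eq_zero, zero_add]
  apply Submodule.sum_mem
  intro g hg
  rw [Finset.mem_filter, mem_FS] at hg
  obtain ⟨hg', hne⟩ := hg
  have hspl : Split (y (sI n D.p i)) g := by
    rw [hsi]
    exact hg'.1
  rcases term_wt hspl with ⟨h1, h2⟩ | ⟨_, h2⟩
  · apply mem_LowS
    refine ⟨by rw [term_sum hspl, hy, D.sum_t], Or.inr ⟨by rw [h2, hW, D.hWt], ?_⟩⟩
    refine ⟨q, ?_, ?_⟩
    · intro l hl
      rw [Fin.lt_def, hq] at hl
      dsimp only at hl ⊢
      have hgl : g l = 0 := by
        by_contra h
        have h3 := (hg'.2 l).2 (Nat.pos_of_ne_zero h)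
        rw [mem_ZI] at h3
        rcases h3 with h3 | h3
        · have := D.hK l h3
          omega
        · omega
      rw [D.ht' (show i ≤ D.u by omega), hgl, D.gm_zero (by omega), hc1]
      rw [val_succAbove, sI_val (by omega), if_pos (by omega)]
      omega
    · dsimp only
      have h3 := h1 q
      rw [hsq, ← hc0] at h3
      have hle := h3.add_le (r := D.r) (by omega) (hg'.1.le q)
      rw [hsq, ← hc0, D.ht' (show i ≤ D.u by omega), hsq, D.hs _ (by omega)]
      have := hg'.1.le q
      omega
  · apply D.low_LL
    · rw [term_sum hspl, hy]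
    · rw [← hW]; exact h2

/-- The total operator. -/
noncomputable def T :
    MvPolynomial (Fin (n + 1)) (ZMod 2) →ₗ[ZMod 2] MvPolynomial (Fin n) (ZMod 2) :=
  ∑ i ∈ Finset.range (D.u + 1), D.op i

theorem T_hit (q : MvPolynomial (Fin (n + 1)) (ZMod 2))
    (hq : q ∈ Submodule.span (ZMod 2) (hitSet (n + 1))) :
    D.T q ∈ Submodule.span (ZMod 2) (hitSet n) := by
  unfold T
  rw [LinearMap.sum_apply]
  apply Submodule.sum_mem
  intro i _
  exact opC_hit _ _ q hq

theorem T_e : ∃ w ∈ LowS D.t, D.T (M D.e) = M D.t + w := by
  have hpu := D.hpu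
  unfold T
  rw [LinearMap.sum_apply, Finset.sum_range_succ]
  obtain ⟨w, hw, hw'⟩ := D.main_term
  refine ⟨∑ i ∈ Finset.range D.u, D.op i (M D.e) + w, Submodule.add_mem _ ?_ hw, ?_⟩
  · apply Submodule.sum_mem
    intro i hi
    rw [Finset.mem_range] at hi
    exact D.case_II rfl rfl hi (D.hs _ (by omega)) (D.hs _ (by omega))
  · rw [hw']
    ring

theorem T_low (y : Fin (n + 1) → ℕ) (h : Lower y D.e) : D.T (M y) ∈ LowS D.t := by
  classical
  have hpu := D.hpu
  obtain ⟨hy, h | ⟨hW, c, hc1, hc2⟩⟩ := h
  · unfold T
    rw [LinearMap.sum_apply]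
    exact Submodule.sum_mem _ (fun i _ => D.case_LL hy h i)
  · unfold T
    rw [LinearMap.sum_apply]
    rcases lt_or_ge (c : ℕ) D.p with hcp | hcp
    · apply Submodule.sum_mem
      intro i hi
      rw [Finset.mem_range] at hi
      exact D.case_I hy hW (by omega) (by omega) hc1 hc2
    · rcases lt_or_ge (D.p + D.u) (c : ℕ) with hcu | hcu
      · apply Submodule.sum_mem
        intro i hi
        rw [Finset.mem_range] at hi
        rcases (Nat.lt_succ_iff.1 hi).lt_or_eq with hlt | heq
        · apply D.case_II hy hW hlt
          · rw [hc1 _ (by rw [Fin.lt_def, sI_val (by omega)]; omega), D.hs _ (by omega)]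
          · rw [hc1 _ (by rw [Fin.lt_def, sI_val (by omega)]; omega), D.hs _ (by omega)]
        · rw [heq]
          exact D.case_III hy hW hcu hc1 hc2
      · -- `c = p + k`
        obtain ⟨k, hk⟩ : ∃ k, (c : ℕ) = D.p + k := ⟨(c : ℕ) - D.p, by omega⟩
        have hck : c = sI n D.p k := Fin.ext (by rw [sI_val (by omega), hk])
        have hyk : y (sI n D.p k) < 2 ^ D.r - 1 := by
          have h5 := D.hs k (by omega)
          rw [← hck] at h5 ⊢
          omega
        cases k with
        | zero =>
          rw [Finset.sum_range_succ', D.case_V hyk, add_zero]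
          apply Submodule.sum_mem
          intro i hi
          rw [Finset.mem_range] at hi
          exact D.case_I hy hW (by omega) (by omega) hc1 hc2
        | succ k =>
          have hk1 : k ∈ Finset.range (D.u + 1) := by rw [Finset.mem_range]; omega
          have hk2 : k + 1 ∈ (Finset.range (D.u + 1)).erase k := by
            rw [Finset.mem_erase, Finset.mem_range]; omega
          rw [← Finset.add_sum_erase _ _ hk1, ← Finset.add_sum_erase _ _ hk2, ← add_assoc]
          apply Submodule.add_mem
          · refine D.case_IV hy hW (by omega) ?_ hyk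
            intro j hj
            apply hc1
            rw [Fin.lt_def]
            omega
          · apply Submodule.sum_mem
            intro i hi
            rw [Finset.mem_erase, Finset.mem_erase, Finset.mem_range] at hi
            rcases lt_or_ge i (k + 1) with hik | hik
            · apply D.case_II hy hW (by omega)
              · rw [hc1 _ (by rw [Fin.lt_def, sI_val (by omega)]; omega), D.hs _ (by omega)]
              · rw [hc1 _ (by rw [Fin.lt_def, sI_val (by omega)]; omega), D.hs _ (by omega)]
            · exact D.case_I hy hW (by omega) (by omega) hc1 hc2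

/-- Inadmissibility descends. -/
theorem inad (h : Inad D.e) : Inad D.t :=
  transfer D.e D.t D.T D.T_hit D.T_e D.T_low h

end Dat

end Pool.Agent.Helper53.Hit
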