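import Mathlib
import Pool.Agent.Helper53.HitMain2

set_option autoImplicit false

/-!
Sum's maps: verification of the data for the main construction.
-/

namespace Pool.Agent.Helper53.Hit

open MvPolynomial

theorem geo (k : ℕ) : ∑ j ∈ Finset.range k, 2 ^ j + 1 = 2 ^ k := by
  induction k with
  | zero => simp
  | succ k ih => rw [Finset.sum_range_succ, pow_succ]; omega

theorem sum_Ioi_pow (r : ℕ) (m : Fin r) :
    ∑ m' ∈ Finset.Ioi m, 2 ^ (r - 1 - (m' : ℕ)) + 1 = 2 ^ (r - 1 - (m : ℕ)) := by
  rw [← geo (r - 1 - (m : ℕ))]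
  congr 1
  refine Finset.sum_bij (fun (m' : Fin r) _ => r - 1 - (m' : ℕ)) ?_ ?_ ?_ ?_
  · intro m' hm'
    rw [Finset.mem_Ioi, Fin.lt_def] at hm'
    rw [Finset.mem_range]
    have := m'.isLt
    omega
  · intro a ha b hb hab
    have h1 := a.isLt
    have h2 := b.isLt
    apply Fin.ext
    omega
  · intro j hj
    rw [Finset.mem_range] at hj
    refine ⟨⟨r - 1 - j, by omega⟩, ?_, ?_⟩
    · rw [Finset.mem_Ioi, Fin.lt_def]
      dsimp only
      omega
    · dsimp only
      omega
  · intro a _
    rfl

theorem sum_top_pow (r k : ℕ) (hk : k < r) :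
    ∑ m ∈ Finset.range (k + 1), 2 ^ (r - 1 - m) + 2 ^ (r - 1 - k) = 2 ^ r := by
  induction k with
  | zero =>
    rw [Finset.sum_range_one]
    obtain ⟨s, rfl⟩ : ∃ s, r = s + 1 := ⟨r - 1, by omega⟩
    simp only [Nat.sub_zero, Nat.add_sub_cancel]
    rw [pow_succ]
    omega
  | succ k ih =>
    have h1 := ih (by omega)
    rw [Finset.sum_range_succ]
    obtain ⟨s, hs⟩ : ∃ s, r - 1 - k = s + 1 := ⟨r - 1 - k - 1, by omega⟩
    have h2 : r - 1 - (k + 1) = s := by omega
    rw [hs] at h1
    rw [h2]
    rw [pow_succ] at h1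
    omega

theorem digit_top {r s : ℕ} (hs : s ≤ r) (b : ℕ) :
    (2 ^ r - 2 ^ s) / 2 ^ b % 2 = if s ≤ b ∧ b < r then 1 else 0 := by
  have hpos : 0 < 2 ^ s := by positivity
  have hle : 2 ^ s ≤ 2 ^ r := Nat.pow_le_pow_right (by norm_num) hs
  have h1 := digit_compl (r := r) (c := 2 ^ s - 1) (by omega) b
  have h2 : 2 ^ r - 1 - (2 ^ s - 1) = 2 ^ r - 2 ^ s := by omega
  rw [h2, digit_two_pow_sub_one, digit_two_pow_sub_one] at h1
  split_ifs at h1 ⊢ <;> omega

theorem sum_split_at {n : ℕ} (f : Fin n → ℕ) (l : Fin n) :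
    ∑ j, f j = ∑ j ∈ Finset.Iio l, f j + f l + ∑ j ∈ Finset.Ioi l, f j := by
  classical
  have h1 : (Finset.univ : Finset (Fin n)) = Finset.Iio l ∪ ({l} ∪ Finset.Ioi l) := by
    ext j
    simp only [Finset.mem_univ, Finset.mem_union, Finset.mem_Iio, Finset.mem_singleton,
      Finset.mem_Ioi, true_iff]
    rcases lt_trichotomy j l with h | h | h
    · exact Or.inl h
    · exact Or.inr (Or.inl h)
    · exact Or.inr (Or.inr h)
  rw [h1, Finset.sum_union, Finset.sum_union, Finset.sum_singleton, add_assoc]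
  · rw [Finset.disjoint_singleton_left, Finset.mem_Ioi]
    exact lt_irrefl l
  · rw [Finset.disjoint_left]
    intro j hj hj'
    rw [Finset.mem_Iio] at hj
    rw [Finset.mem_union, Finset.mem_singleton, Finset.mem_Ioi] at hj'
    rcases hj' with h | h
    · exact absurd hj (by rw [h]; exact lt_irrefl l)
    · exact absurd (hj.trans h) (lt_irrefl j)

/-- Main statement on Sum's maps: `φ` preserves the weight vector and the degree, and
inadmissibility descends. -/
theorem phi_data {n r : ℕ} (p : Fin (n + 1)) (t : Fin n → ℕ) (e0 e : Fin (n + 1) → ℕ)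
    (he0 : ∀ j, e0 (p.succAbove j) = t j)
    (κ : Fin r → Fin (n + 1)) (u : Fin r) (hκ : StrictMono κ) (hpκ : ∀ m, p < κ m)
    (hadj : ∀ m, m < u → (κ m : ℕ) = (p : ℕ) + 1 + (m : ℕ))
    (hfull : ∀ m, m < u → e0 (κ m) = 2 ^ r - 1)
    (hd1 : ∀ m, m ≤ u → e0 (κ u) / 2 ^ (r - 1 - (m : ℕ)) % 2 = 1)
    (hd2 : ∀ m, u < m → e0 (κ m) / 2 ^ (r - 1 - (m : ℕ)) % 2 = 1)
    (hep : e p = 2 ^ r - 1)
    (heu : e (κ u) + ∑ m ∈ Finset.range ((u : ℕ) + 1), 2 ^ (r - 1 - m) = e0 (κ u))
    (hem : ∀ m, u < m → e (κ m) + 2 ^ (r - 1 - (m : ℕ)) = e0 (κ m))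
    (heo : ∀ i, i ≠ p → (∀ m, u ≤ m → i ≠ κ m) → e i = e0 i) :
    Wt t = Wt e ∧ ∑ l, t l = ∑ j, e j ∧ (Inad e → Inad t) := by
  classical
  have hr : (u : ℕ) < r := u.isLt
  -- basic position facts
  have hκu : ∀ m, u ≤ m → (p : ℕ) + (u : ℕ) + 1 ≤ (κ m : ℕ) := by
    intro m hm
    have h1 : κ u ≤ κ m := hκ.monotone hm
    have h2 : (p : ℕ) + (u : ℕ) + 1 ≤ (κ u : ℕ) := by
      rcases Nat.eq_zero_or_pos (u : ℕ) with hu | hu
      · have := Fin.lt_def.1 (hpκ u)
        omega
      · have hlt : (⟨(u : ℕ) - 1, by omega⟩ : Fin r) < u := by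
          rw [Fin.lt_def]
          dsimp only
          omega
        have h3 := hadj _ hlt
        have h4 := Fin.lt_def.1 (hκ hlt)
        dsimp only at h3 h4
        omega
    rw [Fin.le_def] at h1
    omega
  have hpu : (p : ℕ) + (u : ℕ) ≤ n := by
    have h1 := hκu u le_rfl
    have h2 := (κ u).isLt
    omega
  -- the columns
  have hlm : ∃ lm : Fin r → Fin n, ∀ m, (lm m).succ = κ m := by
    refine ⟨fun m => (κ m).pred (by
      intro h0
      have := hpκ m
      rw [h0] at this
      exact absurd this (by simp)), fun m => Fin.succ_pred _ _⟩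
  obtain ⟨lm, hlm⟩ := hlm
  have hlmv : ∀ m, (κ m : ℕ) = (lm m : ℕ) + 1 := by
    intro m
    rw [← hlm m]
    rfl
  have hlmono : StrictMono lm := by
    intro a b hab
    have := Fin.lt_def.1 (hκ hab)
    rw [hlmv, hlmv] at this
    rw [Fin.lt_def]
    omega
  set K : Finset (Fin n) := (Finset.Ici u).image lm with hKdef
  have hmemK : ∀ l, l ∈ K ↔ ∃ m, u ≤ m ∧ lm m = l := by
    intro l
    rw [hKdef, Finset.mem_image]
    simp only [Finset.mem_Ici]
  set gm : Fin n → ℕ := fun l => if l ∈ K then e0 l.succ - e l.succ else 0 with hgmdef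
  have hgm0 : ∀ l, l ∉ K → gm l = 0 := by
    intro l hl
    rw [hgmdef]
    dsimp only
    rw [if_neg hl]
  have hgmu : gm (lm u) = 2 ^ r - 2 ^ (r - 1 - (u : ℕ)) := by
    rw [hgmdef]
    dsimp only
    rw [if_pos ((hmemK _).2 ⟨u, le_rfl, rfl⟩), hlm u]
    have := sum_top_pow r u hr
    omega
  have hgmm : ∀ m, u < m → gm (lm m) = 2 ^ (r - 1 - (m : ℕ)) := by
    intro m hm
    rw [hgmdef]
    dsimp only
    rw [if_pos ((hmemK _).2 ⟨m, hm.le, rfl⟩), hlm m, ← hem m hm, Nat.add_sub_cancel_left]
  have hK : ∀ l ∈ K, (p : ℕ) + (u : ℕ) ≤ (l : ℕ) := by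
    intro l hl
    obtain ⟨m, hm, rfl⟩ := (hmemK l).1 hl
    have := hκu m hm
    rw [hlmv] at this
    omega
  have hcard : K.card + (u : ℕ) = r := by
    rw [hKdef, Finset.card_image_of_injective _ hlmono.injective, Fin.card_Ici]
    omega
  have hpow : ∀ k, k ≤ r → 0 < 2 ^ k ∧ 2 ^ k ≤ 2 ^ r := fun k hk =>
    ⟨by positivity, Nat.pow_le_pow_right (by norm_num) hk⟩
  have hgmpos : ∀ l, l ∈ K ↔ 0 < gm l := by
    intro l
    constructor
    · intro hl
      obtain ⟨m, hm, rfl⟩ := (hmemK l).1 hl
      rcases hm.eq_or_lt with rfl | hm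
      · rw [hgmu]
        have h1 : 2 ^ (r - 1 - (u : ℕ)) < 2 ^ r := Nat.pow_lt_pow_right (by norm_num) (by omega)
        omega
      · rw [hgmm m hm]
        positivity
    · intro hl
      by_contra h
      rw [hgm0 l h] at hl
      exact absurd hl (lt_irrefl 0)
  -- digits
  have hsplit : Split (2 ^ r - 1) gm := by
    intro b
    have h1 : ∑ l, gm l / 2 ^ b % 2 = ∑ l ∈ K, gm l / 2 ^ b % 2 := by
      symm
      apply Finset.sum_subset (Finset.subset_univ _)
      intro l _ hl
      rw [hgm0 l hl]
      simp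
    rw [h1, hKdef, Finset.sum_image (fun a _ b _ hab => hlmono.injective hab),
      digit_two_pow_sub_one]
    have h2 : Finset.Ici u = insert u (Finset.Ioi u) := by
      ext m
      rw [Finset.mem_insert, Finset.mem_Ici, Finset.mem_Ioi, le_iff_eq_or_lt, eq_comm]
    rw [h2, Finset.sum_insert (by simp), hgmu, digit_top (by omega)]
    have h3 : ∑ m ∈ Finset.Ioi u, gm (lm m) / 2 ^ b % 2
        = ∑ m ∈ Finset.Ioi u, if b = r - 1 - (m : ℕ) then 1 else 0 := by
      apply Finset.sum_congr rfl
      intro m hm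
      rw [Finset.mem_Ioi] at hm
      rw [hgmm m hm, digit_two_pow]
    rw [h3]
    by_cases hb : b < r
    · rw [if_pos hb]
      by_cases hb2 : r - 1 - (u : ℕ) ≤ b
      · rw [if_pos ⟨hb2, hb⟩]
        have hz : ∑ m ∈ Finset.Ioi u, (if b = r - 1 - (m : ℕ) then 1 else 0) = 0 := by
          apply Finset.sum_eq_zero
          intro m hm
          rw [Finset.mem_Ioi, Fin.lt_def] at hm
          have := m.isLt
          rw [if_neg (by omega)]
        rw [hz]
      · rw [if_neg (by omega), zero_add, Finset.sum_eq_single (⟨r - 1 - b, by omega⟩ : Fin r)]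
        · rw [if_pos]
          dsimp only
          omega
        · intro m hm hne
          rw [if_neg]
          intro hbm
          apply hne
          apply Fin.ext
          dsimp only
          have := m.isLt
          omega
        · intro hno
          exfalso
          apply hno
          rw [Finset.mem_Ioi, Fin.lt_def]
          dsimp only
          omega
    · rw [if_neg hb, if_neg (by omega)]
      have hz : ∑ m ∈ Finset.Ioi u, (if b = r - 1 - (m : ℕ) then 1 else 0) = 0 := by
        apply Finset.sum_eq_zero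
        intro m _
        have := m.isLt
        rw [if_neg (by omega)]
      rw [hz]
  have hgmFS : gm ∈ FS (2 ^ r - 1) K := mem_FS.2 ⟨hsplit, hgmpos⟩
  -- maximality
  have hmax : ∀ g ∈ FS (2 ^ r - 1) K, g = gm ∨ LexLt g gm := by
    intro g hg
    rw [mem_FS] at hg
    by_cases hne : g = gm
    · exact Or.inl hne
    right
    have hex : ((Finset.univ : Finset (Fin n)).filter (fun l => g l ≠ gm l)).Nonempty := by
      by_contra h0
      rw [Finset.not_nonempty_iff_eq_empty] at h0
      apply hne
      funext l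
      by_contra hl
      have : l ∈ (Finset.univ : Finset (Fin n)).filter (fun l => g l ≠ gm l) := by
        rw [Finset.mem_filter]
        exact ⟨Finset.mem_univ _, hl⟩
      rw [h0] at this
      exact absurd this (Finset.notMem_empty _)
    set l0 := Finset.min' _ hex with hl0
    have hl0mem := Finset.min'_mem _ hex
    rw [← hl0, Finset.mem_filter] at hl0mem
    have hl0ne := hl0mem.2
    have hbefore : ∀ j, j < l0 → g j = gm j := by
      intro j hj
      by_contra hne2
      have : l0 ≤ j := Finset.min'_le _ j (by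
        rw [Finset.mem_filter]
        exact ⟨Finset.mem_univ _, hne2⟩)
      exact absurd (this.trans_lt hj) (lt_irrefl _)
    have hl0K : l0 ∈ K := by
      by_contra hno
      apply hl0ne
      rw [hgm0 l0 hno]
      by_contra h2
      exact hno ((hg.2 l0).2 (Nat.pos_of_ne_zero h2))
    obtain ⟨m, hm, hml⟩ := (hmemK l0).1 hl0K
    refine ⟨l0, hbefore, ?_⟩
    have h1 := sum_split_at g l0
    have h2 := sum_split_at gm l0
    rw [hg.1.sum_eq] at h1
    rw [hsplit.sum_eq] at h2
    have h3 : ∑ j ∈ Finset.Iio l0, g j = ∑ j ∈ Finset.Iio l0, gm j :=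
      Finset.sum_congr rfl (fun j hj => hbefore j (Finset.mem_Iio.1 hj))
    -- the tail
    set A := (Finset.Ioi m).image lm with hA
    have hAK : ∀ l ∈ A, l ∈ K := by
      intro l hl
      rw [hA, Finset.mem_image] at hl
      obtain ⟨m', hm', rfl⟩ := hl
      rw [Finset.mem_Ioi] at hm'
      exact (hmemK _).2 ⟨m', (hm.trans_lt hm').le, rfl⟩
    have hAsub : A ⊆ Finset.Ioi l0 := by
      intro l hl
      rw [hA, Finset.mem_image] at hl
      obtain ⟨m', hm', rfl⟩ := hl
      rw [Finset.mem_Ioi] at hm' ⊢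
      rw [← hml]
      exact hlmono hm'
    have hAcard : A.card = r - 1 - (m : ℕ) := by
      rw [hA, Finset.card_image_of_injective _ hlmono.injective, Fin.card_Ioi]
    have h4 : 2 ^ (r - 1 - (m : ℕ)) ≤ ∑ l ∈ A, g l + 1 := by
      rw [← hAcard]
      exact hg.1.card_pow_le A (fun l hl => (hg.2 l).1 (hAK l hl))
    have h5 : ∑ l ∈ A, g l ≤ ∑ j ∈ Finset.Ioi l0, g j :=
      Finset.sum_le_sum_of_subset hAsub
    have h6 : ∑ j ∈ Finset.Ioi l0, gm j = ∑ l ∈ A, gm l := by
      symm
      apply Finset.sum_subset hAsub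
      intro l hl hlA
      by_contra hne3
      have hlK := (hgmpos l).2 (Nat.pos_of_ne_zero hne3)
      obtain ⟨m', hm', hml'⟩ := (hmemK l).1 hlK
      apply hlA
      rw [hA, Finset.mem_image]
      refine ⟨m', ?_, hml'⟩
      rw [Finset.mem_Ioi] at hl ⊢
      rw [← hml, ← hml'] at hl
      exact hlmono.lt_iff_lt.1 hl
    have h7 : ∑ l ∈ A, gm l + 1 = 2 ^ (r - 1 - (m : ℕ)) := by
      rw [hA, Finset.sum_image (fun a _ b _ hab => hlmono.injective hab), ← sum_Ioi_pow r m]
      congr 1
      apply Finset.sum_congr rfl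
      intro m' hm'
      rw [Finset.mem_Ioi] at hm'
      exact hgmm m' (hm.trans_lt hm')
    have hne4 : g l0 ≠ gm l0 := hl0ne
    omega
  -- full columns
  have hs : ∀ i ≤ (u : ℕ), e (sI n p i) = 2 ^ r - 1 := by
    intro i hi
    rcases Nat.eq_zero_or_pos i with rfl | hi0
    · have h1 : sI n p 0 = p := Fin.ext (by rw [sI_val (by omega)]; rfl)
      rw [h1, hep]
    · have hlt : (⟨i - 1, by omega⟩ : Fin r) < u := by
        rw [Fin.lt_def]
        dsimp only
        omega
      have h1 : sI n p i = κ ⟨i - 1, by omega⟩ := by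
        apply Fin.ext
        rw [sI_val (by omega), hadj _ hlt]
        dsimp only
        omega
      rw [h1, heo _ (hpκ _).ne', hfull _ hlt]
      intro m hm heq
      have := hκ.injective heq
      rw [← this] at hm
      exact absurd (hm.trans_lt hlt) (lt_irrefl _)
  have hsu : ∀ l, l ∈ K → ∃ m, u ≤ m ∧ (sI n p u).succAbove l = κ m ∧ p.succAbove l = κ m := by
    intro l hl
    obtain ⟨m, hm, rfl⟩ := (hmemK l).1 hl
    refine ⟨m, hm, ?_, ?_⟩
    · apply Fin.ext
      have := hK _ hl
      rw [val_succAbove, sI_val hpu, if_neg (by omega), hlmv]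
    · apply Fin.ext
      have := hK _ hl
      rw [val_succAbove, if_neg (by omega), hlmv]
  have hle0 : ∀ m, u ≤ m → e (κ m) ≤ e0 (κ m) := by
    intro m hm
    rcases hm.eq_or_lt with rfl | hm
    · omega
    · rw [← hem m hm]
      exact Nat.le_add_right _ _
  have hgmval : ∀ l, l ∈ K → gm l = e0 l.succ - e l.succ := by
    intro l hl
    rw [hgmdef]
    dsimp only
    rw [if_pos hl]
  have ht : ∀ l, t l = e ((sI n p u).succAbove l) + gm l := by
    intro l
    rw [← he0 l]
    by_cases hl : l ∈ K
    · obtain ⟨m, hm, h1, h2⟩ := hsu l hl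
      have h3 : l.succ = κ m := by
        rw [← h2]
        apply Fin.ext
        have := hK _ hl
        rw [val_succAbove, if_neg (by omega)]
        rfl
      rw [h1, h2, hgmval l hl, h3]
      have := hle0 m hm
      omega
    · rw [hgm0 l hl, add_zero]
      by_cases hmid : (p : ℕ) ≤ (l : ℕ) ∧ (l : ℕ) < (p : ℕ) + (u : ℕ)
      · have h1 : (sI n p u).succAbove l = sI n p (l - p) := by
          apply Fin.ext
          rw [val_succAbove, sI_val hpu, sI_val (by omega), if_pos hmid.2]
          omega
        have hlt : (⟨(l : ℕ) - p, by omega⟩ : Fin r) < u := by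
          rw [Fin.lt_def]
          dsimp only
          omega
        have h2 : p.succAbove l = κ ⟨(l : ℕ) - p, by omega⟩ := by
          apply Fin.ext
          rw [val_succAbove, if_neg (by omega), hadj _ hlt]
          dsimp only
          omega
        rw [h1, hs _ (by omega), h2, hfull _ hlt]
      · have h1 : (sI n p u).succAbove l = p.succAbove l := by
          apply Fin.ext
          rw [val_succAbove, val_succAbove, sI_val hpu]
          split_ifs <;> omega
        rw [h1]
        symm
        apply heo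
        · exact Fin.succAbove_ne p l
        · intro m hm heq
          apply hl
          rw [hmemK]
          refine ⟨m, hm, ?_⟩
          apply Fin.ext
          have h2 := congrArg Fin.val heq
          rw [hlmv, val_succAbove] at h2
          have h3 := hκu m hm
          rw [hlmv] at h3
          split_ifs at h2 <;> omega
  have hNC : ∀ l, NC (e ((sI n p u).succAbove l)) (gm l) := by
    intro l
    by_cases hl : l ∈ K
    · obtain ⟨m, hm, h1, h2⟩ := hsu l hl
      apply NC_of_sub (a := e0 (κ m))
      · rw [← ht l, ← he0 l, h2]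
      · intro b
        obtain ⟨m', hm', hml'⟩ := (hmemK l).1 hl
        have hmm : m' = m := by
          apply hlmono.injective
          rw [hml']
          apply Fin.ext
          have h3 := congrArg Fin.val h2
          have h4 := hK _ hl
          rw [val_succAbove, if_neg (by omega), hlmv] at h3
          omega
        subst hmm
        rw [← hml']
        rcases hm.eq_or_lt with rfl | hm
        · rw [hgmu, digit_top (by omega)]
          split_ifs with hb
          · have h5 := hd1 (⟨r - 1 - b, by omega⟩ : Fin r) (by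
              rw [Fin.le_def]
              dsimp only
              omega)
            dsimp only at h5
            have h6 : r - 1 - (r - 1 - b) = b := by omega
            rw [h6] at h5
            omega
          · omega
        · rw [hgmm _ hm, digit_two_pow]
          split_ifs with hb
          · rw [hb, hd2 _ hm]
          · omega
    · rw [hgm0 l hl]
      intro b
      simp only [Nat.zero_div, Nat.zero_mod]
      omega
  have hWt : Wt t = Wt e := by
    have h1 : t = fun l => e ((sI n p u).succAbove l) + gm l := funext ht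
    have h2 : Split (e (sI n p u)) gm := by
      rw [hs _ le_rfl]
      exact hsplit
    rcases term_wt h2 with ⟨_, h3⟩ | ⟨h3, _⟩
    · rw [h1]
      exact h3
    · exact absurd hNC h3
  let D : Dat n :=
    { p := p, u := u, r := r, K := K, e := e, t := t, gm := gm, hpu := hpu, hK := hK,
      hcard := hcard, hs := hs, hgm := hgmFS, hmax := hmax, ht := ht, hWt := hWt }
  exact ⟨hWt, D.sum_t, fun h => D.inad h⟩

end Pool.Agent.Helper53.Hit
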